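import Pool.Agent.MP_28f8a1_an.Mlc.Defs

/-! The local model at a root. -/

set_option autoImplicit false

namespace Pool.Agent.MP_28f8a1_an.Mlc

open Set Filter Topology Metric

theorem li_root {u : ℂ → ℂ} (hu : AnalyticAt ℂ u 0) (h0 : u 0 ≠ 0) {k : ℕ} (hk : k ≠ 0) :
    ∃ r : ℂ → ℂ, AnalyticAt ℂ r 0 ∧ r 0 ≠ 0 ∧ ∀ᶠ w in 𝓝 0, r w ^ k = u w := by
  obtain ⟨a, ha⟩ := IsAlgClosed.exists_pow_nat_eq (u 0) (Nat.pos_of_ne_zero hk)
  have ha0 : a ≠ 0 := by
    rintro rfl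
    rw [zero_pow hk] at ha
    exact h0 ha.symm
  have hk' : (k : ℂ) ≠ 0 := by exact_mod_cast hk
  refine ⟨fun w => a * Complex.exp (Complex.log (u w / u 0) / k), ?_, ?_, ?_⟩
  · refine analyticAt_const.mul (AnalyticAt.cexp' ?_)
    refine (AnalyticAt.clog (hu.div analyticAt_const h0) ?_).div analyticAt_const hk'
    simp [div_self h0]
  · exact mul_ne_zero ha0 (Complex.exp_ne_zero _)
  · filter_upwards [hu.continuousAt.eventually_ne h0] with w hw
    rw [mul_pow, ha, ← Complex.exp_nat_mul, mul_div_cancel₀ _ hk',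
      Complex.exp_log (div_ne_zero hw h0)]
    field_simp

theorem li_inv {y : ℂ → ℂ} (hy : AnalyticAt ℂ y 0) (h0 : y 0 = 0) (h1 : deriv y 0 ≠ 0) :
    ∃ φ : ℂ → ℂ, AnalyticAt ℂ φ 0 ∧ φ 0 = 0 ∧ (∀ᶠ t in 𝓝 0, y (φ t) = t) ∧
      ∀ᶠ w in 𝓝 0, φ (y w) = w := by
  have h2 := hy.analyticAt_localInverse h1
  have h3 := hy.hasStrictDerivAt.eventually_left_inverse h1
  have h4 := hy.hasStrictDerivAt.eventually_right_inverse h1
  have h5 := h3.self_of_nhds
  rw [h0] at h2 h4 h5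
  exact ⟨_, h2, h5, h4, h3⟩

theorem li_mul {r : ℂ → ℂ} (hr : AnalyticAt ℂ r 0) (h0 : r 0 ≠ 0) :
    AnalyticAt ℂ (fun w => w * r w) 0 ∧ deriv (fun w => w * r w) 0 ≠ 0 := by
  refine ⟨analyticAt_id.mul hr, ?_⟩
  have h := ((hasDerivAt_id (0 : ℂ)).fun_mul hr.differentiableAt.hasDerivAt).deriv
  simp only [id, one_mul, zero_mul, add_zero] at h
  rw [h]
  exact h0

/-- A direction in which `t ^ k * U t` moves `1` into the unit disc. -/
theorem li_small {U : ℂ → ℂ} (hU : ContinuousAt U 0) {k : ℕ} (hk : k ≠ 0) {t : ℂ}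
    (ht : (t ^ k * U 0).re < 0) :
    ∀ᶠ s : ℝ in 𝓝[>] 0, ‖1 + ((s : ℂ) * t) ^ k * U (s * t)‖ < 1 := by
  have h1 : Tendsto (fun s : ℝ => (s : ℂ) * t) (𝓝 0) (𝓝 0) := by
    have : Continuous fun s : ℝ => (s : ℂ) * t := by fun_prop
    simpa using this.tendsto 0
  have h2 : Tendsto (fun s : ℝ => t ^ k * U (s * t)) (𝓝 0) (𝓝 (t ^ k * U 0)) :=
    (hU.tendsto.comp h1).const_mul _
  have h3 : Tendsto (fun s : ℝ => 2 * (t ^ k * U (s * t)).re +
      s ^ k * Complex.normSq (t ^ k * U (s * t))) (𝓝 0)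
      (𝓝 (2 * (t ^ k * U 0).re + 0 ^ k * Complex.normSq (t ^ k * U 0))) :=
    (((Complex.continuous_re.tendsto _).comp h2).const_mul 2).add
      ((tendsto_id.pow k).mul ((Complex.continuous_normSq.tendsto _).comp h2))
  rw [zero_pow hk, zero_mul, add_zero] at h3
  have h4 := (h3.eventually (gt_mem_nhds (show 2 * (t ^ k * U 0).re < 0 by linarith))).filter_mono
    (nhdsWithin_le_nhds (s := Ioi (0 : ℝ)))
  filter_upwards [h4, self_mem_nhdsWithin] with s hs hs0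
  have hp : 0 < s ^ k := pow_pos hs0 k
  generalize hx : t ^ k * U (s * t) = x at hs
  have h5 : ((s : ℂ) * t) ^ k * U (s * t) = ((s ^ k : ℝ) : ℂ) * x := by
    rw [← hx]; push_cast; ring
  rw [h5, ← sq_lt_one_iff₀ (norm_nonneg _), Complex.sq_norm]
  generalize s ^ k = p at hp hs
  simp only [Complex.normSq_apply, Complex.add_re, Complex.one_re, Complex.mul_re,
    Complex.ofReal_re, Complex.ofReal_im, Complex.add_im, Complex.one_im, Complex.mul_im] at hs ⊢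
  nlinarith [mul_neg_of_pos_of_neg hp hs]

/-- Invariance of the multiplier under a deck rotation. -/
theorem li_rot {U : ℂ → ℂ} (hU : AnalyticAt ℂ U 0) (h0 : U 0 ≠ 0) {k : ℕ} (hk : k ≠ 0) {ζ : ℂ}
    (hζ : ‖ζ‖ = 1) (hk1 : ζ ^ k ≠ -1)
    (att : ∀ᶠ t in 𝓝 (0 : ℂ), ‖1 + t ^ k * U t‖ < 1 → ‖1 + (ζ * t) ^ k * U (ζ * t)‖ < 1 →
      (ζ * t) ^ k * U (ζ * t) = t ^ k * U t) :
    ζ ^ k = 1 ∧ ∀ᶠ t in 𝓝 (0 : ℂ), U (ζ * t) = U t := by
  set η := ζ ^ k with hη
  have hη1 : ‖η‖ = 1 := by rw [hη, norm_pow, hζ, one_pow]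
  have hn : η.re * η.re + η.im * η.im = 1 := by
    rw [← Complex.normSq_apply, ← Complex.sq_norm, hη1, one_pow]
  have hre : -1 < η.re := by
    by_contra h
    have h1 : η.re = -1 := by nlinarith [mul_self_nonneg η.im, mul_self_nonneg (η.re + 1)]
    have h2 : η.im = 0 := by
      rw [h1] at hn
      exact mul_self_eq_zero.1 (by linarith)
    exact hk1 (Complex.ext (by simpa using h1) (by simpa using h2))
  obtain ⟨t, ht⟩ := IsAlgClosed.exists_pow_nat_eq (-(1 + starRingEnd ℂ η) / U 0)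
    (Nat.pos_of_ne_zero hk)
  have h1 : t ^ k * U 0 = -(1 + starRingEnd ℂ η) := by rw [ht, div_mul_cancel₀ _ h0]
  have h2 : (t ^ k * U 0).re < 0 := by
    rw [h1]; simp only [Complex.neg_re, Complex.add_re, Complex.one_re, Complex.conj_re]; linarith
  have h3 : ((ζ * t) ^ k * U 0).re < 0 := by
    rw [mul_pow, mul_assoc, h1, ← hη]
    simp only [Complex.mul_re, Complex.neg_re, Complex.add_re, Complex.one_re, Complex.conj_re,
      Complex.neg_im, Complex.add_im, Complex.one_im, Complex.conj_im]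
    nlinarith
  have ht0 : t ≠ 0 := by
    rintro rfl
    rw [zero_pow hk, zero_mul] at h2
    simp at h2
  have h4 : Tendsto (fun s : ℝ => (s : ℂ) * t) (𝓝[>] 0) (𝓝[≠] 0) := by
    refine tendsto_nhdsWithin_iff.2 ⟨?_, ?_⟩
    · have : Continuous fun s : ℝ => (s : ℂ) * t := by fun_prop
      simpa using (this.tendsto 0).mono_left nhdsWithin_le_nhds
    · filter_upwards [self_mem_nhdsWithin] with s hs
      exact mul_ne_zero (by exact_mod_cast (ne_of_gt hs)) ht0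
  have hζU : AnalyticAt ℂ (fun t => U (ζ * t)) 0 :=
    AnalyticAt.comp_of_eq hU (analyticAt_const.mul analyticAt_id) (by simp)
  have h5 : ∃ᶠ t in 𝓝[≠] (0 : ℂ), η * U (ζ * t) = U t := by
    refine h4.frequently (Eventually.frequently ?_)
    filter_upwards [li_small hU.continuousAt hk h2, li_small hU.continuousAt hk h3,
      (h4.mono_right nhdsWithin_le_nhds).eventually att, h4.eventually self_mem_nhdsWithin]
      with s a b c d
    have h6 := c a (by rwa [show ζ * (s * t) = s * (ζ * t) by ring])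
    rw [mul_pow, ← hη] at h6
    exact mul_left_cancel₀ (pow_ne_zero k d) (by linear_combination h6)
  have h6 := ((analyticAt_const.mul hζU).frequently_eq_iff_eventually_eq hU).1 h5
  have h7 := h6.self_of_nhds
  simp only [Pi.mul_apply, mul_zero] at h7
  have h8 : η = 1 := mul_right_cancel₀ h0 (by rw [h7, one_mul])
  refine ⟨h8, ?_⟩
  filter_upwards [h6] with t ht
  have h9 : η * U (ζ * t) = U t := ht
  rwa [h8, one_mul] at h9

/-- Points near `0` with the same value of `t ^ k * U t` differ by a deck rotation. -/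
theorem li_fib {U : ℂ → ℂ} (hU : AnalyticAt ℂ U 0) (h0 : U 0 ≠ 0) {k : ℕ} (hk : k ≠ 0)
    (rot : ∀ ζ : ℂ, ζ ^ k = 1 → ∀ᶠ t in 𝓝 (0 : ℂ), U (ζ * t) = U t) :
    ∀ᶠ p : ℂ × ℂ in 𝓝 (0, 0), p.1 ^ k * U p.1 = p.2 ^ k * U p.2 → p.1 ^ k = p.2 ^ k := by
  obtain ⟨r, hr, hr0, hru⟩ := li_root hU h0 hk
  obtain ⟨hh, hd⟩ := li_mul hr hr0
  obtain ⟨φ, -, -, -, hφ⟩ := li_inv hh (by simp) hd
  have hfin : {ζ : ℂ | ζ ^ k = 1}.Finite := by
    refine (Polynomial.nthRoots k (1 : ℂ)).finite_toSet.subset fun ζ hζ => ?_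
    exact (Polynomial.mem_nthRoots (Nat.pos_of_ne_zero hk)).2 hζ
  have hloc : ∀ᶠ x in 𝓝 (1 : ℂ), x ^ k = 1 → x = 1 := by
    have h1 : ({ζ : ℂ | ζ ^ k = 1} \ {1})ᶜ ∈ 𝓝 (1 : ℂ) :=
      (hfin.subset sdiff_subset).isClosed.isOpen_compl.mem_nhds (by simp)
    filter_upwards [h1] with x hx h
    by_contra h'
    exact hx ⟨h, h'⟩
  have hall : ∀ᶠ t in 𝓝 (0 : ℂ), ∀ ζ ∈ {ζ : ℂ | ζ ^ k = 1},
      r (ζ * t) = r t ∧ φ (ζ * t * r (ζ * t)) = ζ * t := by
    refine (hfin.eventually_all).2 fun ζ hζ => ?_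
    have h1 : Tendsto (fun t : ℂ => ζ * t) (𝓝 0) (𝓝 0) := by
      have : Continuous fun t : ℂ => ζ * t := by fun_prop
      simpa using this.tendsto 0
    have h2 : Tendsto (fun t : ℂ => r (ζ * t) / r t) (𝓝 0) (𝓝 1) := by
      have := (hr.continuousAt.tendsto.comp h1).div hr.continuousAt.tendsto hr0
      rwa [div_self hr0] at this
    filter_upwards [rot ζ hζ, hru, h1.eventually hru, h2.eventually hloc,
      hr.continuousAt.eventually_ne hr0, h1.eventually hφ] with t a b c d e f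
    refine ⟨?_, f⟩
    have h3 := d (by rw [div_pow, c, a, ← b, div_self (pow_ne_zero _ e)])
    rwa [div_eq_one_iff_eq e] at h3
  have f1 : Tendsto (fun p : ℂ × ℂ => p.1) (𝓝 (0, 0)) (𝓝 0) := continuous_fst.tendsto _
  have f2 : Tendsto (fun p : ℂ × ℂ => p.2) (𝓝 (0, 0)) (𝓝 0) := continuous_snd.tendsto _
  filter_upwards [f1.eventually hall, f1.eventually hru, f2.eventually hru, f2.eventually hφ,
    f1.eventually (hr.continuousAt.eventually_ne hr0),
    f2.eventually (hr.continuousAt.eventually_ne hr0)] with p a b c d e f h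
  rw [← b, ← c, ← mul_pow, ← mul_pow] at h
  by_cases h1 : p.1 = 0
  · rw [h1, zero_mul, zero_pow hk] at h
    have h2 := (mul_eq_zero.1 (pow_eq_zero_iff hk |>.1 h.symm)).resolve_right f
    rw [h1, h2]
  · have h2 : p.1 * r p.1 ≠ 0 := mul_ne_zero h1 e
    have h3 : (p.2 * r p.2 / (p.1 * r p.1)) ^ k = 1 := by
      rw [div_pow, ← h, div_self (pow_ne_zero _ h2)]
    obtain ⟨h4, h5⟩ := a _ h3
    generalize hζ : p.2 * r p.2 / (p.1 * r p.1) = ζ at h3 h4 h5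
    have h6 : ζ * p.1 * r (ζ * p.1) = p.2 * r p.2 := by
      rw [h4, mul_assoc, ← hζ, div_mul_cancel₀ _ h2]
    rw [h6, d] at h5
    rw [h5, mul_pow, h3, one_mul]

/-- The analytic core of local injectivity at a parabolic root. -/
theorem li_core {g ρ A : ℂ → ℂ} (hg : AnalyticAt ℂ g 0) (hA : AnalyticAt ℂ A 0) (hA0 : A 0 ≠ 0)
    {i : ℕ} (hi : i ≤ 1) (h1 : ρ 0 = 1)
    (hρ : ∀ᶠ w in 𝓝 (0 : ℂ), ρ w - 1 = A w * w ^ i * deriv g w)
    (hnc : ¬∀ᶠ w in 𝓝 (0 : ℂ), g w = g 0)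
    (att : ∀ᶠ p : ℂ × ℂ in 𝓝 (0, 0), g p.1 = g p.2 → ‖ρ p.1‖ < 1 → ‖ρ p.2‖ < 1 → ρ p.1 = ρ p.2) :
    ∀ᶠ p : ℂ × ℂ in 𝓝 (0, 0), ρ p.1 = ρ p.2 → g p.1 = g p.2 := by
  obtain ⟨μ, v, hv, hv0, hgv⟩ :=
    (hg.sub (analyticAt_const (v := g 0))).exists_eventuallyEq_pow_smul_nonzero_iff.2
      fun h => hnc (h.mono fun w hw => sub_eq_zero.1 hw)
  simp only [Pi.sub_apply, sub_zero, smul_eq_mul] at hgv
  have hμ : μ ≠ 0 := by
    rintro rfl
    have := hgv.self_of_nhds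
    rw [sub_self, pow_zero, one_mul] at this
    exact hv0 this.symm
  obtain ⟨r, hr, hr0, hrv⟩ := li_root hv hv0 hμ
  obtain ⟨hy, hd⟩ := li_mul hr hr0
  set y : ℂ → ℂ := fun w => w * r w with hydef
  obtain ⟨φ, hφ, hφ0, hφ1, hφ2⟩ := li_inv hy (by simp [hydef]) hd
  have hgy : ∀ᶠ w in 𝓝 (0 : ℂ), g w = g 0 + y w ^ μ := by
    filter_upwards [hgv, hrv] with w a b
    rw [hydef, mul_pow, b, ← a]
    ring
  obtain ⟨m, rfl⟩ : ∃ m, μ = m + 1 := ⟨μ - 1, by omega⟩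
  set V : ℂ → ℂ := fun w => A w * ((m + 1 : ℕ) * deriv y w) / r w ^ i with hV
  have hVa : AnalyticAt ℂ V 0 :=
    (hA.mul (analyticAt_const.mul hy.deriv)).div (hr.pow i) (pow_ne_zero _ hr0)
  have hV0 : V 0 ≠ 0 := div_ne_zero
    (mul_ne_zero hA0 (mul_ne_zero (Nat.cast_ne_zero.2 hμ) hd)) (pow_ne_zero _ hr0)
  have hρy : ∀ᶠ w in 𝓝 (0 : ℂ), ρ w = 1 + y w ^ (m + i) * V w := by
    filter_upwards [hρ, hgy.eventually_nhds, hy.eventually_analyticAt,
      hr.continuousAt.eventually_ne hr0] with w a b c d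
    have h2 := ((c.differentiableAt.hasDerivAt.fun_pow (m + 1)).const_add (g 0)).deriv
    rw [EventuallyEq.deriv_eq b, h2, Nat.add_sub_cancel] at a
    have h3 : y w ^ i = w ^ i * r w ^ i := by rw [hydef, mul_pow]
    have h4 : r w ^ i ≠ 0 := pow_ne_zero _ d
    rw [pow_add, h3, hV]
    field_simp
    linear_combination a
  have hk : m + i ≠ 0 := by
    intro h
    have := hρy.self_of_nhds
    rw [h1, h, pow_zero, one_mul] at this
    exact hV0 (by linear_combination -this)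
  have hφt : Tendsto φ (𝓝 0) (𝓝 0) := by simpa [hφ0] using hφ.continuousAt.tendsto
  have hU : AnalyticAt ℂ (fun t => V (φ t)) 0 := AnalyticAt.comp_of_eq hVa hφ hφ0
  have hU0 : (fun t => V (φ t)) 0 ≠ 0 := by simpa [hφ0] using hV0
  have hrot : ∀ ζ : ℂ, ζ ^ (m + 1) = 1 → ζ ^ (m + i) ≠ -1 →
      ζ ^ (m + i) = 1 ∧ ∀ᶠ t in 𝓝 (0 : ℂ), V (φ (ζ * t)) = V (φ t) := fun ζ hζ hne => by
    have hn : ‖ζ‖ = 1 := Complex.norm_eq_one_of_pow_eq_one hζ hμ
    refine li_rot hU hU0 hk hn hne ?_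
    have h2 : Tendsto (fun t : ℂ => ζ * t) (𝓝 0) (𝓝 0) := by
      have : Continuous fun t : ℂ => ζ * t := by fun_prop
      simpa using this.tendsto 0
    have h3 : Tendsto (fun t : ℂ => (φ t, φ (ζ * t))) (𝓝 0) (𝓝 (0, 0)) :=
      hφt.prodMk_nhds (hφt.comp h2)
    filter_upwards [h3.eventually att, hφ1, h2.eventually hφ1, hφt.eventually hgy,
      (hφt.comp h2).eventually hgy, hφt.eventually hρy, (hφt.comp h2).eventually hρy]
      with t a b c d e f f' a1 a2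
    simp only [Function.comp] at a e f'
    rw [b] at d f
    rw [c] at e f'
    rw [d, e, f, f', mul_pow ζ t (m + 1), hζ, one_mul] at a
    exact (add_left_cancel (a rfl a1 a2)).symm
  have hfib : ∀ᶠ p : ℂ × ℂ in 𝓝 (0, 0), p.1 ^ (m + i) * V (φ p.1) = p.2 ^ (m + i) * V (φ p.2) →
      p.1 ^ (m + 1) = p.2 ^ (m + 1) := by
    rcases Nat.le_one_iff_eq_zero_or_eq_one.1 hi with rfl | rfl
    · have hz := Complex.isPrimitiveRoot_exp (m + 1) hμ
      generalize Complex.exp (2 * Real.pi * Complex.I / (m + 1 : ℕ)) = ζ at hz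
      have h2 : ζ ^ (m + 0) = 1 ∨ ζ ^ (m + 0) = -1 := by
        by_cases h : ζ ^ (m + 0) = -1
        · exact Or.inr h
        · exact Or.inl (hrot ζ hz.pow_eq_one h).1
      have h3 : ζ ^ 2 = 1 := by
        have h4 := hz.pow_eq_one
        rw [pow_succ] at h4
        rw [add_zero] at h2
        rcases h2 with h | h <;> rw [h] at h4
        · rw [one_mul] at h4; rw [h4, one_pow]
        · linear_combination (1 - ζ) * h4
      have h4 := Nat.le_of_dvd two_pos (hz.dvd_of_pow_eq_one 2 h3)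
      obtain rfl : m = 1 := by omega
      filter_upwards [li_fib hU hU0 hk fun ζ hζ => by
        rw [add_zero, pow_one] at hζ
        simp [hζ]] with p a b
      have h5 := a b
      rw [add_zero, pow_one, pow_one] at h5
      rw [h5]
    · exact li_fib hU hU0 hk fun ζ hζ => (hrot ζ hζ (by rw [hζ]; norm_num)).2
  have hyt : Tendsto y (𝓝 0) (𝓝 0) := by simpa [hydef] using hy.continuousAt.tendsto
  have f1 : Tendsto (fun p : ℂ × ℂ => p.1) (𝓝 (0, 0)) (𝓝 0) := continuous_fst.tendsto _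
  have f2 : Tendsto (fun p : ℂ × ℂ => p.2) (𝓝 (0, 0)) (𝓝 0) := continuous_snd.tendsto _
  have h3 : Tendsto (fun p : ℂ × ℂ => (y p.1, y p.2)) (𝓝 (0, 0)) (𝓝 (0, 0)) :=
    (hyt.comp f1).prodMk_nhds (hyt.comp f2)
  filter_upwards [h3.eventually hfib, f1.eventually hφ2, f2.eventually hφ2, f1.eventually hgy,
    f2.eventually hgy, f1.eventually hρy, f2.eventually hρy] with p a b c d e f f' h
  simp only [b, c] at a
  rw [f, f'] at h
  rw [d, e, a (add_left_cancel h)]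

theorem li_ana {g : ℂ → ℂ} {c : ℂ} (hg : ContDiffAt ℂ 1 g c) : AnalyticAt ℂ g c :=
  Complex.analyticAt_iff_eventually_differentiableAt.2
    ((hg.eventually (by simp)).mono fun _ h => h.differentiableAt one_ne_zero)

theorem li_upg {f h A : ℂ → ℂ} (hf : AnalyticAt ℂ f 0) (hh : AnalyticAt ℂ h 0)
    (hA : ContinuousAt A 0) (hA0 : A 0 ≠ 0) (hne : ¬∀ᶠ w in 𝓝 (0 : ℂ), h w = 0)
    (rel : ∀ᶠ w in 𝓝 (0 : ℂ), f w = A w * h w) :
    ∃ B : ℂ → ℂ, AnalyticAt ℂ B 0 ∧ B 0 ≠ 0 ∧ ∀ᶠ w in 𝓝 (0 : ℂ), f w = B w * h w := by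
  obtain ⟨a, H, hH, hH0, ha⟩ := hh.exists_eventuallyEq_pow_smul_nonzero_iff.2 hne
  obtain ⟨b, F, hF, hF0, hb⟩ := hf.exists_eventuallyEq_pow_smul_nonzero_iff.2 fun h0 => hne (by
    filter_upwards [h0, rel, hA.eventually_ne hA0] with w x y z
    rw [x] at y
    exact (mul_eq_zero.1 y.symm).resolve_left z)
  simp only [sub_zero, smul_eq_mul] at ha hb
  have key : ∀ (u v : ℂ → ℂ) (j m : ℕ), ContinuousAt u 0 → ContinuousAt v 0 → u 0 ≠ 0 →
      (∀ᶠ w in 𝓝 (0 : ℂ), w ^ j * u w = w ^ (j + m + 1) * v w) → False := fun u v j m hu hv h0 h => by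
    have h1 : ∀ᶠ w in 𝓝[≠] (0 : ℂ), u w = w ^ (m + 1) * v w := by
      filter_upwards [h.filter_mono nhdsWithin_le_nhds, self_mem_nhdsWithin] with w x y
      exact mul_left_cancel₀ (pow_ne_zero j y) (by rw [x]; ring)
    have h2 : Tendsto (fun w : ℂ => w ^ (m + 1) * v w) (𝓝 0) (𝓝 (0 ^ (m + 1) * v 0)) :=
      (tendsto_id.pow _).mul hv.tendsto
    have h3 := tendsto_nhds_unique_of_eventuallyEq (hu.tendsto.mono_left nhdsWithin_le_nhds)
      (h2.mono_left nhdsWithin_le_nhds) h1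
    rw [zero_pow (by omega), zero_mul] at h3
    exact h0 h3
  have hrel : ∀ᶠ w in 𝓝 (0 : ℂ), w ^ b * F w = w ^ a * (A w * H w) := by
    filter_upwards [ha, hb, rel] with w x y z
    rw [← y, z, x]
    ring
  obtain rfl : a = b := by
    rcases lt_trichotomy a b with h | h | h
    · obtain ⟨m, rfl⟩ := Nat.exists_eq_add_of_lt h
      exact (key _ _ a m (hA.mul hH.continuousAt) hF.continuousAt (mul_ne_zero hA0 hH0)
        (hrel.mono fun w x => x.symm)).elim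
    · exact h
    · obtain ⟨m, rfl⟩ := Nat.exists_eq_add_of_lt h
      exact (key _ _ b m hF.continuousAt (hA.mul hH.continuousAt) hF0 hrel).elim
  refine ⟨fun w => F w / H w, hF.div hH hH0, div_ne_zero hF0 hH0, ?_⟩
  filter_upwards [ha, hb, hH.continuousAt.eventually_ne hH0] with w x y z
  rw [x, y]
  field_simp

theorem li_const {g : ℂ → ℂ} (hg : AnalyticAt ℂ g 0) {i : ℕ}
    (h : ∀ᶠ w in 𝓝 (0 : ℂ), w ^ i * deriv g w = 0) : ∀ᶠ w in 𝓝 (0 : ℂ), g w = g 0 := by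
  have h1 : ∀ᶠ w in 𝓝 (0 : ℂ), deriv g w = 0 := by
    refine hg.deriv.frequently_zero_iff_eventually_zero.1 (Eventually.frequently ?_)
    filter_upwards [h.filter_mono nhdsWithin_le_nhds, self_mem_nhdsWithin] with w x y
    exact (mul_eq_zero.1 x).resolve_left (pow_ne_zero i y)
  obtain ⟨r, hr, h2⟩ := Metric.eventually_nhds_iff_ball.1 (h1.and hg.eventually_analyticAt)
  filter_upwards [ball_mem_nhds 0 hr] with w hw
  exact isOpen_ball.is_const_of_deriv_eq_zero (convex_ball 0 r).isPreconnected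
    (fun x hx => (h2 x hx).2.differentiableAt.differentiableWithinAt) (fun x hx => (h2 x hx).1) hw
    (mem_ball_self hr)

theorem loc_model {g ρ A : ℂ → ℂ} (hg : AnalyticAt ℂ g 0) (hρ : AnalyticAt ℂ ρ 0) (h1 : ρ 0 = 1)
    (hA : ContinuousAt A 0) (hA0 : A 0 ≠ 0) (hnc : ¬ ∀ᶠ w in 𝓝 (0 : ℂ), g w = g 0) {i : ℕ}
    (hi : i ≤ 1) (hrel : ∀ᶠ w in 𝓝 (0 : ℂ), ρ w - 1 = A w * w ^ i * deriv g w)
    (hatt : ∀ᶠ p : ℂ × ℂ in 𝓝 (0, 0), g p.1 = g p.2 → ‖ρ p.1‖ < 1 → ‖ρ p.2‖ < 1 →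
      ρ p.1 = ρ p.2) :
    ∀ᶠ p : ℂ × ℂ in 𝓝 (0, 0), ρ p.1 = ρ p.2 → g p.1 = g p.2 := by
  obtain ⟨B, hB, hB0, h⟩ := li_upg (f := fun w => ρ w - 1) (h := fun w => w ^ i * deriv g w)
    (hρ.sub analyticAt_const) ((analyticAt_id.pow i).mul hg.deriv) hA hA0
    (fun h => hnc (li_const hg h)) (hrel.mono fun w x => by rw [x, mul_assoc])
  exact li_core hg hB hB0 hi h1 (h.mono fun w x => by rw [x, mul_assoc]) hnc hatt

theorem loc_ift {R : ℂ × ℂ → ℂ} {c : ℂ} (hR : ContDiffAt ℂ 1 R (0, c)) (h0 : R (0, c) = 0)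
    (hc : deriv (fun c' => R (0, c')) c ≠ 0) :
    ∃ g A : ℂ → ℂ, AnalyticAt ℂ g 0 ∧ g 0 = c ∧ ContinuousAt A 0 ∧ A 0 ≠ 0 ∧
      (∀ᶠ p : ℂ × ℂ in 𝓝 (0, c), R p = 0 ↔ g p.1 = p.2) ∧
      ∀ᶠ w in 𝓝 (0 : ℂ), deriv (fun v => R (v, g w)) w = A w * deriv g w := by
  have hA := (hR.differentiableAt one_ne_zero).hasFDerivAt.comp c (hasFDerivAt_prodMk_right 0 c)
  have hd : HasDerivAt (fun c' => R (0, c')) (deriv (fun c' => R (0, c')) c) c :=
    hA.differentiableAt.hasDerivAt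
  have hinv : (fderiv ℂ R (0, c) ∘L ContinuousLinearMap.inr ℂ ℂ ℂ).IsInvertible :=
    ⟨_, (hd.hasFDerivAt_equiv hc).unique hA⟩
  have hg := li_ana (hR.contDiffAt_implicitFunction one_ne_zero hinv)
  have hg0 := hR.implicitFunction_apply_self one_ne_zero hinv
  have hiff := hR.eventually_apply_eq_iff_implicitFunction one_ne_zero hinv
  have hap := hR.eventually_apply_implicitFunction one_ne_zero hinv
  generalize hR.implicitFunction one_ne_zero hinv = g at hg hg0 hiff hap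
  simp only [h0] at hg hg0 hiff hap
  have ht : Tendsto (fun w => (w, g w)) (𝓝 0) (𝓝 ((0 : ℂ), c)) :=
    tendsto_id.prodMk_nhds (hg0 ▸ hg.continuousAt.tendsto)
  have hD : ContinuousAt (fderiv ℂ R) (0, c) := hR.continuousAt_fderiv one_ne_zero
  refine ⟨g, fun w => -fderiv ℂ R (w, g w) (0, 1), hg, hg0, ?_, ?_, hiff, ?_⟩
  · have h2 : ContinuousAt (fun w => fderiv ℂ R (w, g w)) 0 := by
      have h3 := hD.tendsto.comp ht
      rw [← hg0] at h3
      exact h3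
    exact (h2.clm_apply continuousAt_const).neg
  · beta_reduce
    rw [hg0, neg_ne_zero]
    have h2 := hA.hasDerivAt.deriv
    simp only [ContinuousLinearMap.comp_apply, ContinuousLinearMap.inr_apply] at h2
    rw [← h2]
    exact hc
  · filter_upwards [ht.eventually (hR.eventually (by simp)), hap.eventually_nhds,
      hg.eventually_analyticAt] with w a b d
    have h2 := (a.differentiableAt one_ne_zero).hasFDerivAt
    have h3 := (h2.comp w (hasFDerivAt_prodMk_left w (g w))).hasDerivAt.deriv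
    have h4 := h2.comp_hasDerivAt w ((hasDerivAt_id w).prodMk d.differentiableAt.hasDerivAt)
    have h5 := h4.unique ((hasDerivAt_const w (0 : ℂ)).congr_of_eventuallyEq b)
    simp only [ContinuousLinearMap.comp_apply, ContinuousLinearMap.inl_apply] at h3
    have h6 : ((1 : ℂ), deriv g w) = ((1 : ℂ), (0 : ℂ)) + deriv g w • ((0 : ℂ), (1 : ℂ)) := by simp
    rw [h6, map_add, map_smul, smul_eq_mul] at h5
    have h7 : deriv (fun v => R (v, g w)) w = fderiv ℂ R (w, g w) (1, 0) := h3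
    rw [h7]
    linear_combination h5

end Pool.Agent.MP_28f8a1_an.Mlc
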