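import Pool.Agent.MP_28f8a1_an.Mlc.Esc
import Pool.Agent.MP_28f8a1_an.Mlc.LocA

/-! A short arc in the Multibrot set from a parabolic parameter to a hyperbolic one. -/

set_option autoImplicit false

namespace Pool.Agent.MP_28f8a1_an.Mlc

open MeasureTheory Metric Set Real Filter Topology Pool.Agent.MP_28f8a1_an.H42
open Complex (I)

variable {e : ℕ}

theorem arc_pow {c z : ℂ} {m : ℕ} (hz : (fq e c)^[m] z = z) (a : ℕ) :
    Pd e c z (m * a) = Pd e c z m ^ a := by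
  induction a with
  | zero => simp [Pd_zero]
  | succ a ih => rw [Nat.mul_succ, Pd_add, hz, ih, pow_succ]

theorem arc_min {c z : ℂ} {n : ℕ} (hn : 0 < n) (hz : (fq e c)^[n] z = z)
    (h : ‖Pd e c z n‖ < 1) : ∃ m, 0 < m ∧ Function.minimalPeriod (fq e c) z = m ∧
      ‖Pd e c z m‖ < 1 := by
  have hp : Function.IsPeriodicPt (fq e c) n z := hz
  obtain ⟨a, ha⟩ := hp.minimalPeriod_dvd
  have hm0 := hp.minimalPeriod_pos hn
  have ha0 : a ≠ 0 := by
    rintro rfl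
    omega
  refine ⟨_, hm0, rfl, ?_⟩
  rw [ha, arc_pow Function.iterate_minimalPeriod, norm_pow] at h
  exact (pow_lt_one_iff_of_nonneg (norm_nonneg _) ha0).mp h

theorem arc_mem (he : 1 ≤ e) {c z : ℂ} {m : ℕ} (hm : 0 < m)
    (hper : Function.minimalPeriod (fq e c) z = m) (h : ‖Pd e c z m‖ < 1) : c ∈ Mset e := by
  obtain ⟨u, -, -, hu⟩ := fatou' he hm hper h
  have hK : IsCompact (⋃ j ∈ Finset.range m, (fq e c)^[j] ''
      insert u (range fun k : ℕ => (fq e c)^[m * k] 0)) :=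
    (Finset.range m).isCompact_biUnion fun j _ =>
      hu.isCompact_insert_range.image (iter_diff j).continuous
  obtain ⟨B, hB⟩ := hK.isBounded.exists_norm_le
  refine ⟨B, fun k => hB _ ?_⟩
  refine mem_iUnion₂.2 ⟨k % m, Finset.mem_range.2 (Nat.mod_lt _ hm), _,
    mem_insert_of_mem _ ⟨k / m, rfl⟩, ?_⟩
  rw [← Function.iterate_add_apply, Nat.mod_add_div]

theorem arc_dir {ρ : ℂ → ℂ} (hρ : AnalyticAt ℂ ρ 0) (h1 : ρ 0 = 1)
    (hnc : ¬ ∀ᶠ w in 𝓝 (0 : ℂ), ρ w = 1) :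
    ∃ v : ℂ, ∀ᶠ t : ℝ in 𝓝[>] 0, ‖ρ (t * v)‖ < 1 := by
  have ha : AnalyticAt ℂ (fun w => ρ w - 1) 0 := hρ.sub analyticAt_const
  obtain ⟨n, g, hg, hg0, hgw⟩ := ha.exists_eventuallyEq_pow_smul_nonzero_iff.2
    (fun h => hnc (h.mono fun w hw => sub_eq_zero.1 hw))
  have hn : n ≠ 0 := by
    rintro rfl
    have := hgw.self_of_nhds
    simp only [h1, sub_self, pow_zero, one_smul] at this
    exact hg0 this.symm
  obtain ⟨v, hv⟩ := IsAlgClosed.exists_pow_nat_eq (-(g 0)⁻¹) (Nat.pos_of_ne_zero hn)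
  have ht : Tendsto (fun t : ℝ => (t : ℂ) * v) (𝓝[>] 0) (𝓝 0) := by
    have : Continuous fun t : ℝ => (t : ℂ) * v := by fun_prop
    simpa using (this.tendsto 0).mono_left nhdsWithin_le_nhds
  have h2 : Tendsto (fun t : ℝ => ‖v ^ n * g (t * v) + 1‖) (𝓝[>] 0) (𝓝 0) := by
    have := (((hg.continuousAt.tendsto.comp ht).const_mul (v ^ n)).add_const 1).norm
    rwa [show v ^ n * g 0 + 1 = 0 by rw [hv]; field_simp; ring, norm_zero] at this
  refine ⟨v, ?_⟩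
  filter_upwards [ht.eventually hgw, h2.eventually (gt_mem_nhds one_half_pos),
    Ioo_mem_nhdsGT (zero_lt_one' ℝ)] with t e1 e2 e3
  have s0 : 0 < t ^ n := pow_pos e3.1 n
  have s1 : t ^ n ≤ 1 := pow_le_one₀ e3.1.le e3.2.le
  have e4 : ρ (t * v) = ((1 - t ^ n : ℝ) : ℂ) + ((t ^ n : ℝ) : ℂ) * (v ^ n * g (t * v) + 1) := by
    rw [sub_zero, smul_eq_mul, mul_pow] at e1
    push_cast
    linear_combination e1
  rw [e4]
  refine (norm_add_le _ _).trans_lt ?_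
  rw [norm_mul, Complex.norm_real, Complex.norm_real, Real.norm_of_nonneg (by linarith),
    Real.norm_of_nonneg s0.le]
  nlinarith

theorem arc_core (he : 1 ≤ e) {g ζ : ℂ → ℂ} {N : ℕ} (hN : 0 < N) (hg : AnalyticAt ℂ g 0)
    (hζ : AnalyticAt ℂ ζ 0) (hfix : ∀ᶠ w in 𝓝 (0 : ℂ), (fq e (g w))^[N] (ζ w) = ζ w)
    (h1 : Pd e (g 0) (ζ 0) N = 1) (hnc : ¬ ∀ᶠ w in 𝓝 (0 : ℂ), g w = g 0) {ε : ℝ} (hε : 0 < ε) :
    ∃ Z, IsPreconnected Z ∧ g 0 ∈ Z ∧ Z ⊆ Mset e ∩ ball (g 0) ε ∧ ∃ c' ∈ Z, ∃ (m : ℕ) (z' : ℂ),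
      0 < m ∧ Function.minimalPeriod (fq e c') z' = m ∧ ‖Pd e c' z' m‖ < 1 := by
  have hρ : AnalyticAt ℂ (fun w => mu e N (g w, ζ w)) 0 := by
    rw [Complex.analyticAt_iff_eventually_differentiableAt]
    filter_upwards [hg.eventually_analyticAt, hζ.eventually_analyticAt] with w a b
    exact ((mu_smooth e N).differentiable one_ne_zero _).comp w
      (a.differentiableAt.prodMk b.differentiableAt)
  have hρnc : ¬ ∀ᶠ w in 𝓝 (0 : ℂ), mu e N (g w, ζ w) = 1 := by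
    intro h
    apply hnc
    have hf := (t1323_fin he hN).subset (sdiff_subset (t := {g 0}))
    filter_upwards [h, hfix, hg.continuousAt.eventually
      (hf.isClosed.isOpen_compl.mem_nhds fun h => h.2 rfl)] with w a b d
    by_contra h2
    exact d ⟨⟨ζ w, b, a⟩, h2⟩
  obtain ⟨v, hv⟩ := arc_dir hρ h1 hρnc
  have hc : Continuous fun t : ℝ => (t : ℂ) * v := by fun_prop
  have ht : Tendsto (fun t : ℝ => (t : ℂ) * v) (𝓝 0) (𝓝 0) := by
    simpa using hc.tendsto 0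
  have h3 : ∀ᶠ t : ℝ in 𝓝[>] 0, (‖mu e N (g (t * v), ζ (t * v))‖ < 1 ∧
      (fq e (g (t * v)))^[N] (ζ (t * v)) = ζ (t * v)) ∧ ContinuousAt g (t * v) ∧
      g (t * v) ∈ ball (g 0) ε :=
    (hv.and ((ht.eventually hfix).filter_mono nhdsWithin_le_nhds)).and
      (((ht.eventually (hg.eventually_analyticAt.mono fun w h => h.continuousAt)).and
        (ht.eventually (hg.continuousAt.eventually (ball_mem_nhds _ hε)))).filter_mono
        nhdsWithin_le_nhds)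
  obtain ⟨δ, hδ, hI⟩ := (nhdsGT_basis_Ioc (0 : ℝ)).eventually_iff.1 h3
  have hM : ∀ t ∈ Ioc (0 : ℝ) δ, g (t * v) ∈ Mset e := fun t h => by
    obtain ⟨m, a, b, d⟩ := arc_min hN (hI h).1.2 (hI h).1.1
    exact arc_mem he a b d
  have hM0 : g 0 ∈ Mset e := by
    refine (M_closed he).mem_of_tendsto (b := 𝓝[>] (0 : ℝ)) (f := fun t : ℝ => g (t * v))
      ((hg.continuousAt.tendsto.comp ht).mono_left nhdsWithin_le_nhds) ?_
    filter_upwards [Ioc_mem_nhdsGT hδ] with t h using hM t h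
  refine ⟨(fun t : ℝ => g (t * v)) '' Icc 0 δ, isPreconnected_Icc.image _ fun t h => ?_,
    ⟨0, ⟨le_rfl, hδ.le⟩, by simp⟩, ?_, g (δ * v), ⟨δ, ⟨hδ.le, le_rfl⟩, rfl⟩, ?_⟩
  · refine (ContinuousAt.comp (f := fun t : ℝ => (t : ℂ) * v) ?_
      hc.continuousAt).continuousWithinAt
    rcases h.1.eq_or_lt with rfl | h0
    · simpa using hg.continuousAt
    · exact (hI ⟨h0, h.2⟩).2.1
  · rintro _ ⟨t, h, rfl⟩
    rcases h.1.eq_or_lt with rfl | h0
    · simpa using ⟨hM0, hε⟩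
    · exact ⟨hM t ⟨h0, h.2⟩, (hI ⟨h0, h.2⟩).2.2⟩
  · obtain ⟨m, a, b, d⟩ := arc_min hN (hI ⟨hδ, le_rfl⟩).1.2 (hI ⟨hδ, le_rfl⟩).1.1
    exact ⟨m, _, a, b, d⟩

theorem arc_graph {R : ℂ × ℂ → ℂ} {g : ℂ → ℂ} {c : ℂ} (hg : AnalyticAt ℂ g 0) (h0 : g 0 = c)
    (h : ∀ᶠ p : ℂ × ℂ in 𝓝 (0, c), R p = 0 ↔ g p.1 = p.2) :
    ∀ᶠ w in 𝓝 (0 : ℂ), R (w, g w) = 0 := by
  have hgr : Tendsto (fun w => (w, g w)) (𝓝 0) (𝓝 ((0 : ℂ), c)) := by
    have := (continuousAt_id.prodMk hg.continuousAt).tendsto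
    simpa only [id, h0] using this
  exact (hgr.eventually h).mono fun w hw => hw.2 rfl

theorem par_arc (he : 1 ≤ e) {c z : ℂ} {N : ℕ} (hN : 0 < N) (hz : (fq e c)^[N] z = z)
    (h1 : Pd e c z N = 1) {ε : ℝ} (hε : 0 < ε) :
    ∃ Z, IsPreconnected Z ∧ c ∈ Z ∧ Z ⊆ Mset e ∩ ball c ε ∧ ∃ c' ∈ Z, ∃ (m : ℕ) (z' : ℂ),
      0 < m ∧ Function.minimalPeriod (fq e c') z' = m ∧ ‖Pd e c' z' m‖ < 1 := by
  have hp : Function.IsPeriodicPt (fq e c) N z := hz
  obtain ⟨a, ha⟩ := hp.minimalPeriod_dvd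
  have hn := hp.minimalPeriod_pos hN
  set n := Function.minimalPeriod (fq e c) z with hnd
  have hzn : (fq e c)^[n] z = z := Function.iterate_minimalPeriod
  have hup : ∀ c' z' : ℂ, (fq e c')^[n] z' - z' = 0 → (fq e c')^[N] z' = z' := fun c' z' h => by
    rw [ha]
    exact Function.IsPeriodicPt.mul_const (show Function.IsPeriodicPt _ n z' from sub_eq_zero.1 h) a
  by_cases hl : Pd e c z n = 1
  · have hR : ContDiffAt ℂ 1 (fun p : ℂ × ℂ => (fq e p.2)^[n] (z + p.1) - (z + p.1)) (0, c) :=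
      (((t1055_smooth n).comp (contDiff_snd.prodMk (contDiff_const.add contDiff_fst))).sub
        (contDiff_const.add contDiff_fst)).contDiffAt
    obtain ⟨g, -, hg, hg0, -, -, h, -⟩ := loc_ift hR (by simp [hzn]) (by
      simpa using par_trans he hn hnd.symm hl)
    have hfix := (arc_graph hg hg0 h).mono fun w hw => hup _ _ hw
    have := arc_core he (g := g) (ζ := fun w => z + w) hN hg (by fun_prop) hfix
      (by simpa [hg0] using h1) (fun h2 => ?_) hε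
    · rwa [hg0] at this
    · have h3 : (fun w => z + w) ⁻¹' {w | (fq e c)^[N] w = w} ∈ 𝓝 (0 : ℂ) := by
        filter_upwards [hfix, h2] with w a b
        rwa [b, hg0] at a
      exact infinite_of_mem_nhds _ h3
        ((t1323_roots he hN c).preimage (add_right_injective z).injOn)
  · have hR : ContDiffAt ℂ 1 (fun p : ℂ × ℂ => (fq e (c + p.1))^[n] p.2 - p.2) (0, z) :=
      (((t1055_smooth n).comp ((contDiff_const.add contDiff_fst).prodMk contDiff_snd)).sub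
        contDiff_snd).contDiffAt
    obtain ⟨ζ, -, hζ, hζ0, -, -, h, -⟩ := loc_ift hR (by simp [hzn]) (by
      have := ((iter_deriv (e := e) (c := c) n z).fun_sub (hasDerivAt_id' z)).deriv
      simp only [add_zero]
      rw [this]
      exact sub_ne_zero.2 hl)
    have hfix := (arc_graph hζ hζ0 h).mono fun w hw => hup _ _ hw
    have := arc_core he (g := fun w => c + w) (ζ := ζ) hN (by fun_prop) hζ hfix
      (by simpa [hζ0] using h1) (fun h2 => ?_) hε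
    · simpa only [add_zero] using this
    · have h3 : ({0} : Set ℂ) ∈ 𝓝 (0 : ℂ) := by
        filter_upwards [h2] with w a
        simpa using a
      exact infinite_of_mem_nhds _ h3 (finite_singleton _)

end Pool.Agent.MP_28f8a1_an.Mlc
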