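import Pool.Agent.MP_28f8a1_an.Mlc.Defs

/-! Bounds and continuity of inverse Boettcher maps. -/

set_option autoImplicit false

namespace Pool.Agent.MP_28f8a1_an.Mlc

open MeasureTheory Metric Set Real Filter Topology Pool.Agent.MP_28f8a1_an.H42
open Complex (I)

variable {e : ℕ}

theorem b37_pow (he : 1 ≤ e) {w : ℂ} (hw : 1 < ‖w‖) :
    Tendsto (fun k : ℕ => w ^ (e + 1) ^ k) atTop (Bornology.cobounded ℂ) := by
  rw [← tendsto_norm_atTop_iff_cobounded]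
  simp only [norm_pow]
  exact (tendsto_pow_atTop_atTop_of_one_lt hw).comp
    (tendsto_pow_atTop_atTop_of_one_lt (show 1 < e + 1 by omega))

theorem Bot.bound (he : 1 ≤ e) {c : ℂ} (hc : ‖c‖ ≤ 2) {ψ : ℂ → ℂ} (h : Bot e c ψ) {w : ℂ}
    (hw : 1 < ‖w‖) : ‖ψ w‖ ≤ 2 * ‖w‖ := by
  by_contra hcon
  push Not at hcon
  have step : ∀ v : ℂ, 1 < ‖v‖ → 2 * ‖v‖ < ‖ψ v‖ →
      2 * ‖v ^ (e + 1)‖ < ‖ψ (v ^ (e + 1))‖ := by
    intro v hv h2
    have h1 : ‖ψ v ^ (e + 1)‖ ≤ ‖fq e c (ψ v)‖ + ‖c‖ := by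
      have := norm_sub_le (fq e c (ψ v)) c
      rwa [fq, add_sub_cancel_right] at this
    have h3 : (2 * ‖v‖) ^ (e + 1) ≤ ‖ψ v‖ ^ (e + 1) :=
      pow_le_pow_left₀ (by positivity) h2.le _
    have h4 : (2 : ℝ) ^ 2 ≤ 2 ^ (e + 1) := pow_le_pow_right₀ (by norm_num) (by omega)
    have h5 : 1 < ‖v‖ ^ (e + 1) := one_lt_pow₀ hv (by omega)
    rw [h.semi v hv, norm_pow]
    rw [norm_pow] at h1
    rw [mul_pow] at h3
    nlinarith
  have all : ∀ k : ℕ, 2 * ‖w ^ (e + 1) ^ k‖ < ‖ψ (w ^ (e + 1) ^ k)‖ := by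
    intro k
    induction k with
    | zero => simpa using hcon
    | succ k ih =>
      rw [pow_succ, pow_mul]
      exact step _ (by
        rw [norm_pow]
        exact one_lt_pow₀ hw (by positivity)) ih
  have lim := (h.asy.comp (b37_pow he hw)).norm
  have h2 : (2 : ℝ) ≤ ‖(1 : ℂ)‖ := by
    refine ge_of_tendsto' lim fun k => ?_
    have h0 : 0 < ‖w ^ (e + 1) ^ k‖ := by
      rw [norm_pow]
      exact pow_pos (by linarith) _
    simp only [Function.comp, norm_div]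
    rw [le_div_iff₀ h0]
    exact (all k).le
  rw [norm_one] at h2
  linarith

theorem Bot.quot (he : 1 ≤ e) {c : ℂ} (hc : ‖c‖ ≤ 2) {ψ : ℂ → ℂ} (h : Bot e c ψ) {w : ℂ}
    (hw : 1 < ‖w‖) : ‖ψ w / w‖ ≤ 2 := by
  rw [norm_div, div_le_iff₀ (by linarith)]
  exact h.bound he hc hw

theorem Bot.near (he : 1 ≤ e) {c : ℂ} (hc : ‖c‖ ≤ 2) {ψ : ℂ → ℂ} (h : Bot e c ψ) {w : ℂ}
    (hw : 1 < ‖w‖) : ‖ψ w / w - 1‖ ≤ 3 / ‖w‖ := by
  classical
  set g : ℂ → ℂ := Function.update (fun u => ψ u⁻¹ / u⁻¹) 0 1 with hg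
  have g0 : g 0 = 1 := by simp [hg]
  have gu : ∀ u : ℂ, u ≠ 0 → g u = ψ u⁻¹ / u⁻¹ := fun u hu => by
    rw [hg, Function.update_of_ne hu]
  have hin : ∀ u : ℂ, u ∈ ball (0 : ℂ) 1 → u ≠ 0 → 1 < ‖u⁻¹‖ := by
    intro u hu h0
    rw [mem_ball_zero_iff] at hu
    rw [norm_inv]
    exact one_lt_inv_iff₀.2 ⟨norm_pos_iff.2 h0, hu⟩
  have gd : DifferentiableOn ℂ g (ball 0 1) := by
    rw [← Complex.differentiableOn_compl_singleton_and_continuousAt_iff
      (ball_mem_nhds (0 : ℂ) one_pos)]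
    refine ⟨?_, ?_⟩
    · refine DifferentiableOn.congr (f := fun u => ψ u⁻¹ / u⁻¹) ?_ fun u hu => gu u hu.2
      have hi : DifferentiableOn ℂ (fun u : ℂ => u⁻¹) (ball 0 1 \ {0}) :=
        differentiableOn_id.inv fun u hu => hu.2
      exact (h.diff.comp hi fun u hu => hin u hu.1 hu.2).div hi fun u hu => inv_ne_zero hu.2
    · rw [hg, continuousAt_update_same]
      exact h.asy.comp tendsto_inv₀_nhdsNE_zero
  have gm : MapsTo g (ball 0 1) (closedBall (g 0) 3) := by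
    intro u hu
    rw [g0, mem_closedBall, dist_eq_norm]
    by_cases h0 : u = 0
    · rw [h0, g0]
      norm_num
    · rw [gu u h0]
      have := h.quot he hc (hin u hu h0)
      have h2 := norm_sub_le (ψ u⁻¹ / u⁻¹) 1
      rw [norm_one] at h2
      linarith
  have w0 : w ≠ 0 := norm_pos_iff.1 (by linarith)
  have hz : w⁻¹ ∈ ball (0 : ℂ) 1 := by
    rw [mem_ball_zero_iff, norm_inv]
    exact inv_lt_one_of_one_lt₀ hw
  have key := Complex.dist_le_div_mul_dist_of_mapsTo_ball gd gm hz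
  rw [g0, gu _ (inv_ne_zero w0), inv_inv, dist_eq_norm, dist_zero_right, norm_inv, div_one] at key
  rwa [div_eq_mul_inv 3]

theorem b37_sum (he : 1 ≤ e) : ∃ ρ > 0, ∀ a b : ℂ, ‖a - 1‖ < ρ → ‖b - 1‖ < ρ →
    3 / 2 * ‖a - b‖ ≤ ‖a ^ (e + 1) - b ^ (e + 1)‖ := by
  have hc : Continuous fun p : ℂ × ℂ =>
      ∑ i ∈ Finset.range (e + 1), p.1 ^ i * p.2 ^ (e + 1 - 1 - i) := by fun_prop
  obtain ⟨ρ, hρ, h⟩ := Metric.continuousAt_iff.1 (hc.continuousAt (x := (1, 1))) (1 / 2)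
    (by norm_num)
  refine ⟨ρ, hρ, fun a b ha hb => ?_⟩
  have h1 := h (x := (a, b)) (by
    rw [Prod.dist_eq, dist_eq_norm, dist_eq_norm]
    exact max_lt ha hb)
  simp only [one_pow, mul_one, Finset.sum_const, Finset.card_range, nsmul_eq_mul] at h1
  rw [dist_eq_norm] at h1
  have h2 := norm_sub_norm_le (((e + 1 : ℕ) : ℂ))
    (∑ i ∈ Finset.range (e + 1), a ^ i * b ^ (e + 1 - 1 - i))
  rw [norm_sub_rev, Complex.norm_natCast] at h2
  have h3 : (2 : ℝ) ≤ ((e + 1 : ℕ) : ℝ) := by exact_mod_cast (show 2 ≤ e + 1 by omega)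
  rw [← (Commute.all a b).geom_sum₂_mul, norm_mul]
  exact mul_le_mul_of_nonneg_right (by linarith) (norm_nonneg _)

theorem b37_far (he : 1 ≤ e) : ∃ R : ℝ, 1 < R ∧ ∀ (c c' : ℂ) (ψ ψ' : ℂ → ℂ), ‖c‖ ≤ 2 → ‖c'‖ ≤ 2 →
    Bot e c ψ → Bot e c' ψ' → ∀ w : ℂ, R ≤ ‖w‖ → ‖ψ w / w - ψ' w / w‖ ≤ 2 * ‖c - c'‖ := by
  obtain ⟨ρ, hρ, hs⟩ := b37_sum he
  have h0 : 0 < 3 / ρ := by positivity
  refine ⟨2 + 3 / ρ, by linarith, fun c c' ψ ψ' hc hc' h h' => ?_⟩
  have all : ∀ k : ℕ, ∀ w : ℂ, 2 + 3 / ρ ≤ ‖w‖ →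
      ‖ψ w / w - ψ' w / w‖ ≤ 2 * ‖c - c'‖ + 4 * (2 / 3) ^ k := by
    intro k
    induction k with
    | zero =>
      intro w hw
      have h1 := h.quot he hc (w := w) (by linarith)
      have h2 := h'.quot he hc' (w := w) (by linarith)
      have h3 := norm_sub_le (ψ w / w) (ψ' w / w)
      have h4 := norm_nonneg (c - c')
      rw [pow_zero]
      linarith
    | succ k ih =>
      intro w hw
      have w1 : 1 < ‖w‖ := by linarith
      have w0 : w ≠ 0 := norm_pos_iff.1 (by linarith)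
      have hlt : 3 / ‖w‖ < ρ := by
        rw [div_lt_iff₀ (by linarith)]
        have : 3 / ρ < ‖w‖ := by linarith
        rw [div_lt_iff₀ hρ] at this
        linarith
      have h1 := hs _ _ ((h.near he hc w1).trans_lt hlt) ((h'.near he hc' w1).trans_lt hlt)
      have hp : ‖w‖ ≤ ‖w ^ (e + 1)‖ := by
        rw [norm_pow]
        exact le_self_pow₀ w1.le (by omega)
      have h2 := ih (w ^ (e + 1)) (hw.trans hp)
      have h3 : (ψ w / w) ^ (e + 1) - (ψ' w / w) ^ (e + 1) =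
          (ψ (w ^ (e + 1)) / w ^ (e + 1) - ψ' (w ^ (e + 1)) / w ^ (e + 1)) -
            (c - c') / w ^ (e + 1) := by
        rw [h.semi w w1, h'.semi w w1, fq, fq, div_pow, div_pow]
        ring
      have h4 := norm_sub_le (ψ (w ^ (e + 1)) / w ^ (e + 1) - ψ' (w ^ (e + 1)) / w ^ (e + 1))
        ((c - c') / w ^ (e + 1))
      have h5 : ‖(c - c') / w ^ (e + 1)‖ ≤ ‖c - c'‖ := by
        rw [norm_div]
        exact div_le_self (norm_nonneg _) (by linarith)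
      rw [← h3] at h4
      rw [pow_succ]
      linarith
  intro w hw
  have lim : Tendsto (fun k : ℕ => 2 * ‖c - c'‖ + 4 * (2 / 3 : ℝ) ^ k) atTop
      (𝓝 (2 * ‖c - c'‖ + 4 * 0)) :=
    tendsto_const_nhds.add ((tendsto_pow_atTop_nhds_zero_of_lt_one (by norm_num)
      (by norm_num)).const_mul 4)
  rw [mul_zero, add_zero] at lim
  exact ge_of_tendsto' lim fun k => all k w hw

theorem bot_cont (he : 1 ≤ e) {r ε : ℝ} (hr : 1 < r) (hε : 0 < ε) : ∃ δ > 0, ∀ (c c' : ℂ)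
    (ψ ψ' : ℂ → ℂ), ‖c‖ ≤ 2 → ‖c'‖ ≤ 2 → Bot e c ψ → Bot e c' ψ' → ‖c - c'‖ < δ →
    ∀ w : ℂ, r ≤ ‖w‖ → ‖ψ w - ψ' w‖ ≤ ε * ‖w‖ := by
  obtain ⟨R, hR, hfar⟩ := b37_far he
  have lr : 0 < Real.log r := Real.log_pos hr
  set l := Real.log r / 2 with hl
  set u := Real.log (R + r) with hu
  have hru : Real.log r < u := Real.log_lt_log (by linarith) (by linarith)
  have hlu : l < u := by linarith
  set t0 := l / (u - l) with ht0
  have t0p : 0 < t0 := div_pos (by linarith) (by linarith)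
  have hcont : Tendsto (fun b : ℝ => 4 * b ^ t0) (𝓝 0) (𝓝 (4 * (0 : ℝ) ^ t0)) :=
    ((Real.continuousAt_rpow_const 0 t0 (Or.inr t0p.le)).tendsto).const_mul 4
  rw [Real.zero_rpow t0p.ne', mul_zero] at hcont
  obtain ⟨β, hβ, hb⟩ := Metric.eventually_nhds_iff.1 (hcont.eventually (gt_mem_nhds hε))
  refine ⟨min (β / 2) (min (1 / 2) (ε / 2)), by positivity, ?_⟩
  intro c c' ψ ψ' hc hc' h h' hδ w hw
  have d1 : ‖c - c'‖ < β / 2 := hδ.trans_le (min_le_left _ _)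
  have d2 : ‖c - c'‖ < 1 / 2 := hδ.trans_le ((min_le_right _ _).trans (min_le_left _ _))
  have d3 : ‖c - c'‖ < ε / 2 := hδ.trans_le ((min_le_right _ _).trans (min_le_right _ _))
  have d0 := norm_nonneg (c - c')
  have wp : 0 < ‖w‖ := by linarith
  have w0 : w ≠ 0 := norm_pos_iff.1 wp
  suffices hq : ‖ψ w / w - ψ' w / w‖ ≤ ε by
    rw [← sub_div, norm_div, div_le_iff₀ wp] at hq
    exact hq
  rcases le_total (R + r) ‖w‖ with hbig | hsm
  · have := hfar c c' ψ ψ' hc hc' h h' w (by linarith)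
    linarith
  set F : ℂ → ℂ := fun ζ => ψ (Complex.exp ζ) / Complex.exp ζ - ψ' (Complex.exp ζ) / Complex.exp ζ
    with hF
  have hex : ∀ ζ : ℂ, 0 < ζ.re → 1 < ‖Complex.exp ζ‖ := fun ζ hζ => by
    rw [Complex.norm_exp]
    exact Real.one_lt_exp_iff.2 hζ
  have Fd : DifferentiableOn ℂ F {ζ | 0 < ζ.re} :=
    ((h.diff.comp Complex.differentiable_exp.differentiableOn fun ζ hζ => hex ζ hζ).div
      Complex.differentiable_exp.differentiableOn fun ζ _ => Complex.exp_ne_zero ζ).sub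
    ((h'.diff.comp Complex.differentiable_exp.differentiableOn fun ζ hζ => hex ζ hζ).div
      Complex.differentiable_exp.differentiableOn fun ζ _ => Complex.exp_ne_zero ζ)
  have Fb : ∀ ζ : ℂ, 0 < ζ.re → ‖F ζ‖ ≤ 4 := fun ζ hζ => by
    have h1 := h.quot he hc (hex ζ hζ)
    have h2 := h'.quot he hc' (hex ζ hζ)
    have h3 := norm_sub_le (ψ (Complex.exp ζ) / Complex.exp ζ) (ψ' (Complex.exp ζ) / Complex.exp ζ)
    simp only [hF]
    linarith
  have l0 : 0 < l := by linarith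
  have z1 : Real.log r ≤ (Complex.log w).re := by
    rw [Complex.log_re]
    exact Real.log_le_log (by linarith) hw
  have z2 : (Complex.log w).re ≤ u := by
    rw [Complex.log_re]
    exact Real.log_le_log wp hsm
  have key := Complex.HadamardThreeLines.norm_le_interp_of_mem_verticalClosedStrip' (f := F)
    (z := Complex.log w) (a := 4) (b := 2 * ‖c - c'‖) hlu ⟨by linarith, z2⟩
    (by
      refine DifferentiableOn.diffContOnCl (Fd.mono ?_)
      refine (closure_minimal (t := {ζ : ℂ | l ≤ ζ.re}) (fun ζ hζ => hζ.1.le)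
        (isClosed_le continuous_const Complex.continuous_re)).trans fun ζ hζ => ?_
      exact l0.trans_le hζ)
    ⟨4, by
      rintro _ ⟨ζ, hζ, rfl⟩
      exact Fb ζ (l0.trans_le hζ.1)⟩
    (fun ζ hζ => Fb ζ (by
      have : ζ.re = l := hζ
      linarith))
    (fun ζ hζ => by
      have h1 : ζ.re = u := hζ
      refine hfar c c' ψ ψ' hc hc' h h' _ ?_
      rw [Complex.norm_exp, h1, hu, Real.exp_log (by linarith)]
      linarith)
  have hFw : F (Complex.log w) = ψ w / w - ψ' w / w := by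
    simp only [hF, Complex.exp_log w0]
  rw [hFw] at key
  set t := ((Complex.log w).re - l) / (u - l) with ht
  have t1 : t0 ≤ t := div_le_div_of_nonneg_right (by linarith) (by linarith)
  have a1 : (4 : ℝ) ^ (1 - t) ≤ 4 := by
    have := Real.rpow_le_rpow_of_exponent_le (show (1 : ℝ) ≤ 4 by norm_num)
      (show 1 - t ≤ 1 by linarith)
    rwa [Real.rpow_one] at this
  have a2 : (2 * ‖c - c'‖) ^ t ≤ (2 * ‖c - c'‖) ^ t0 :=
    Real.rpow_le_rpow_of_exponent_ge' (by linarith) (by linarith) t0p.le t1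
  have a3 := hb (y := 2 * ‖c - c'‖) (by
    rw [Real.dist_eq, sub_zero, abs_of_nonneg (by linarith)]
    linarith)
  have a4 : (4 : ℝ) ^ (1 - t) * (2 * ‖c - c'‖) ^ t ≤ 4 * (2 * ‖c - c'‖) ^ t0 :=
    mul_le_mul a1 a2 (Real.rpow_nonneg (by linarith) _) (by norm_num)
  linarith

end Pool.Agent.MP_28f8a1_an.Mlc
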