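import Pool.Agent.MP_28f8a1_an.Mlc.Defs

/-! Existence of the inverse Boettcher map when the critical orbit is bounded. -/

set_option autoImplicit false

namespace Pool.Agent.MP_28f8a1_an.Mlc

open Metric Set Real Filter Topology Asymptotics

variable {e : ℕ} {c : ℂ}

/-- The radii of the discs that carry the approximations. -/
noncomputable def bxr (e k : ℕ) : ℝ := (3⁻¹ : ℝ) ^ ((((e + 1) ^ k : ℕ) : ℝ)⁻¹)

theorem bx_br_pos (k : ℕ) : 0 < bxr e k := Real.rpow_pos_of_pos (by norm_num) _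

theorem bx_br_pow (k : ℕ) : bxr e k ^ ((e + 1) ^ k) = 3⁻¹ :=
  Real.rpow_inv_natCast_pow (by norm_num) (by positivity)

theorem bx_mem_br {k : ℕ} {u : ℂ} : u ∈ ball (0 : ℂ) (bxr e k) ↔ ‖u‖ ^ ((e + 1) ^ k) < 3⁻¹ := by
  rw [mem_ball_zero_iff, ← bx_br_pow (e := e) k,
    pow_lt_pow_iff_left₀ (norm_nonneg _) (bx_br_pos k).le (by positivity)]

theorem bx_br_lt (k : ℕ) : bxr e k < 1 :=
  Real.rpow_lt_one (by norm_num) (by norm_num) (by positivity)

theorem bx_br_map {k : ℕ} {u : ℂ} (hu : u ∈ ball (0 : ℂ) (bxr e (k + 1))) :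
    u ^ (e + 1) ∈ ball (0 : ℂ) (bxr e k) := by
  rw [bx_mem_br] at hu ⊢
  rwa [norm_pow, ← pow_mul, ← pow_succ']

theorem bx_br_mono {k : ℕ} {u : ℂ} (hu : u ∈ ball (0 : ℂ) (bxr e k)) {j : ℕ} (hj : k ≤ j) :
    u ∈ ball (0 : ℂ) (bxr e j) := by
  have h1 : ‖u‖ ≤ 1 := ((mem_ball_zero_iff.mp hu).trans (bx_br_lt k)).le
  rw [bx_mem_br] at hu ⊢
  exact (pow_le_pow_of_le_one (norm_nonneg _) h1 (Nat.pow_le_pow_right (by omega) hj)).trans_lt hu

/-- The properties of the `k`-th approximation. -/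
structure BxGd (e : ℕ) (c : ℂ) (k : ℕ) (h : ℂ → ℂ) : Prop where
  diff : DifferentiableOn ℂ h (ball 0 (bxr e k))
  zero : h 0 = 1
  bd : ∀ u ∈ ball (0 : ℂ) (bxr e k), ‖h u‖ ≤ 2
  it : ∀ u ∈ ball (0 : ℂ) (bxr e k), u ≠ 0 → (fq e c)^[k] (h u / u) = (u ^ ((e + 1) ^ k))⁻¹
  sym : ∀ u u' : ℂ, u ^ (e + 1) = u' ^ (e + 1) → h u = h u'

theorem bx_gd_step (he : 1 ≤ e) (hc : ∀ k, ‖(fq e c)^[k] 0‖ ≤ 2) (k : ℕ) (h : ℂ → ℂ)
    (H : BxGd e c k h) : ∃ h', BxGd e c (k + 1) h' ∧ ∀ u ∈ ball (0 : ℂ) (bxr e (k + 1)),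
      h' u ^ (e + 1) = h (u ^ (e + 1)) - c * u ^ (e + 1) := by
  have hd : ((e + 1 : ℕ) : ℂ) ≠ 0 := Nat.cast_ne_zero.mpr (Nat.succ_ne_zero e)
  have hc1 : ‖c‖ ≤ 2 := by simpa [fq] using hc 1
  obtain ⟨L, hL, hLe⟩ := exists_log (F := fun v => h v - c * v) (x := 0) (R := bxr e k)
    (H.diff.sub (by fun_prop)) fun v hv h0 => by
      by_cases hv0 : v = 0
      · simp [hv0, H.zero] at h0
      have h1 := H.it v hv hv0
      rw [sub_eq_zero.mp h0, mul_div_cancel_right₀ _ hv0] at h1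
      have h2 := hc (k + 1)
      rw [Function.iterate_succ_apply, show fq e c 0 = c by simp [fq], h1, norm_inv, norm_pow,
        inv_le_comm₀ (by positivity) two_pos] at h2
      linarith [bx_mem_br.mp hv]
  have hL0 : Complex.exp (L 0) = 1 := by simpa [H.zero] using hLe 0 (mem_ball_self (bx_br_pos k))
  have hp : ∀ u ∈ ball (0 : ℂ) (bxr e (k + 1)),
      Complex.exp ((L (u ^ (e + 1)) - L 0) / (e + 1 : ℕ)) ^ (e + 1) =
        h (u ^ (e + 1)) - c * u ^ (e + 1) := fun u hu => by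
    rw [← Complex.exp_nat_mul, mul_div_cancel₀ _ hd, Complex.exp_sub, hL0, div_one,
      hLe _ (bx_br_map hu)]
  refine ⟨fun u => Complex.exp ((L (u ^ (e + 1)) - L 0) / (e + 1 : ℕ)),
    ⟨?_, by simp, fun u hu => ?_, fun u hu hu0 => ?_, fun u u' huu => by rw [huu]⟩, hp⟩
  · exact (((hL.comp (by fun_prop) fun u hu => bx_br_map hu).sub_const _).div_const _).cexp
  · refine le_of_pow_le_pow_left₀ (n := e + 1) (by omega) two_pos.le ?_
    have h1 := H.bd _ (bx_br_map hu)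
    have h2 : ‖u ^ (e + 1)‖ ≤ 1 := ((mem_ball_zero_iff.mp (bx_br_map hu)).trans (bx_br_lt k)).le
    have h3 : (2 : ℝ) ^ 2 ≤ 2 ^ (e + 1) := pow_le_pow_right₀ one_le_two (by omega)
    rw [← norm_pow, hp u hu]
    refine (norm_sub_le _ _).trans ?_
    rw [norm_mul]
    nlinarith [norm_nonneg c, norm_nonneg (u ^ (e + 1))]
  · have h0 : u ^ (e + 1) ≠ 0 := pow_ne_zero _ hu0
    rw [Function.iterate_succ_apply, fq, div_pow, hp u hu, sub_div, mul_div_cancel_right₀ _ h0,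
      sub_add_cancel, H.it _ (bx_br_map hu) h0, ← pow_mul, ← pow_succ']

theorem bx_gd_seq (he : 1 ≤ e) (hc : ∀ k, ‖(fq e c)^[k] 0‖ ≤ 2) : ∃ h : ℕ → ℂ → ℂ,
    h 0 = (fun _ => 1) ∧ (∀ k, BxGd e c k (h k)) ∧ ∀ k, ∀ u ∈ ball (0 : ℂ) (bxr e (k + 1)),
      h (k + 1) u ^ (e + 1) = h k (u ^ (e + 1)) - c * u ^ (e + 1) := by
  choose st h1 h2 using bx_gd_step he hc
  have h0 : BxGd e c 0 fun _ => 1 :=
    ⟨differentiableOn_const _, rfl, fun _ _ => by simp, fun _ _ _ => by simp, fun _ _ _ => rfl⟩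
  let s : ∀ k, {h // BxGd e c k h} := fun k =>
    Nat.rec ⟨fun _ => 1, h0⟩ (fun k h => ⟨st k h.1 h.2, h1 k h.1 h.2⟩) k
  exact ⟨fun k => (s k).1, rfl, fun k => (s k).2, fun k => h2 k _ (s k).2⟩

theorem bx_root_O {a b : ℂ → ℂ} (ha : ContinuousAt a 0) (hb : ContinuousAt b 0) (ha1 : a 0 = 1)
    (hb1 : b 0 = 1) : (fun u => a u - b u) =O[𝓝 0] fun u => a u ^ (e + 1) - b u ^ (e + 1) := by
  have hS : ContinuousAt (fun u => ∑ i ∈ Finset.range (e + 1), a u ^ i * b u ^ (e + 1 - 1 - i))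
      0 := tendsto_finsetSum _ fun i _ => (ha.pow _).mul (hb.pow _)
  have h1 : ∀ᶠ u in 𝓝 (0 : ℂ),
      1 / 2 < ‖∑ i ∈ Finset.range (e + 1), a u ^ i * b u ^ (e + 1 - 1 - i)‖ := by
    refine hS.norm.eventually (lt_mem_nhds ?_)
    simp only [ha1, hb1, one_pow, mul_one, Finset.sum_const, Finset.card_range, nsmul_eq_mul,
      Complex.norm_natCast]
    push_cast
    linarith [Nat.cast_nonneg (α := ℝ) e]
  refine IsBigO.of_bound 2 ?_
  filter_upwards [h1] with u hu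
  rw [← geom_sum₂_mul, norm_mul]
  nlinarith [norm_nonneg (a u - b u)]

theorem bx_gd_est (he : 1 ≤ e) {h : ℕ → ℂ → ℂ} (h0 : h 0 = fun _ => 1) (H : ∀ k, BxGd e c k (h k))
    (hs : ∀ k, ∀ u ∈ ball (0 : ℂ) (bxr e (k + 1)),
      h (k + 1) u ^ (e + 1) = h k (u ^ (e + 1)) - c * u ^ (e + 1)) (k : ℕ) :
    ∀ u ∈ ball (0 : ℂ) (bxr e k), ‖h (k + 1) u - h k u‖ ≤ 12 * ‖u‖ ^ (k + 1) := by
  have hb : ∀ k, ball (0 : ℂ) (bxr e k) ∈ 𝓝 (0 : ℂ) := fun k => ball_mem_nhds _ (bx_br_pos k)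
  have hcont : ∀ k, ContinuousAt (h k) 0 := fun k => (H k).diff.continuousOn.continuousAt (hb k)
  have key : ∀ k, ((fun u => h (k + 1) u ^ (e + 1) - h k u ^ (e + 1)) =O[𝓝 0]
      fun u : ℂ => ‖u‖ ^ (k + 1)) →
      ∀ u ∈ ball (0 : ℂ) (bxr e k), ‖h (k + 1) u - h k u‖ ≤ 12 * ‖u‖ ^ (k + 1) := by
    intro k hO u hu
    have z : h (k + 1) 0 - h k 0 = 0 := by rw [(H _).zero, (H _).zero, sub_self]
    have h1 := Complex.dist_le_mul_div_pow_of_mapsTo_ball_of_isLittleO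
      (f := fun u => h (k + 1) u - h k u) (c := 0) (R₁ := bxr e k) (R₂ := 4) (n := k)
      (((H (k + 1)).diff.mono fun u hu => bx_br_mono hu k.le_succ).sub (H k).diff)
      (fun v hv => by
        simp only [z, mem_closedBall_zero_iff]
        linarith [norm_sub_le (h (k + 1) v) (h k v), (H k).bd v hv,
          (H (k + 1)).bd v (bx_br_mono hv k.le_succ)])
      (by
        simp only [z, sub_zero]
        refine ((bx_root_O (hcont _) (hcont _) (H _).zero (H _).zero).trans hO).trans_isLittleO ?_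
        exact (isLittleO_pow_pow (𝕜 := ℝ) k.lt_succ_self).comp_tendsto
          (by simpa using continuous_norm.tendsto (0 : ℂ))) hu
    simp only [z, dist_zero_right] at h1
    have h2 : 3⁻¹ ≤ bxr e k ^ (k + 1) := by
      rw [← bx_br_pow (e := e) k]
      exact pow_le_pow_of_le_one (bx_br_pos k).le (bx_br_lt k).le (Nat.lt_pow_self (by omega))
    refine h1.trans ?_
    rw [div_pow, ← mul_div_assoc, div_le_iff₀ (pow_pos (bx_br_pos k) _)]
    nlinarith [pow_nonneg (norm_nonneg u) (k + 1)]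
  have hle : ∀ u ∈ ball (0 : ℂ) (bxr e 0), ∀ {m n : ℕ}, m ≤ n → ‖u‖ ^ n ≤ ‖u‖ ^ m :=
    fun u hu m n hmn => pow_le_pow_of_le_one (norm_nonneg _)
      ((mem_ball_zero_iff.mp hu).trans (bx_br_lt 0)).le hmn
  induction k with
  | zero =>
    refine key 0 (IsBigO.of_bound ‖c‖ ?_)
    filter_upwards [hb 0] with u hu
    rw [hs 0 u (bx_br_mono hu (by omega)), h0]
    simp only [one_pow, sub_sub_cancel_left, norm_neg, norm_mul, norm_pow, norm_norm]
    exact mul_le_mul_of_nonneg_left (hle u hu (by omega)) (norm_nonneg _)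
  | succ k ih =>
    refine key _ (IsBigO.of_bound 12 ?_)
    filter_upwards [hb 0] with u hu
    rw [hs _ u (bx_br_mono hu (by omega)), hs _ u (bx_br_mono hu (by omega)), sub_sub_sub_cancel_right]
    refine (ih _ (bx_br_map (bx_br_mono hu (by omega)))).trans ?_
    rw [norm_pow, ← pow_mul, norm_pow, norm_norm]
    exact mul_le_mul_of_nonneg_left (hle u hu (by nlinarith)) (by norm_num)

theorem bx_br_ex (he : 1 ≤ e) {ρ : ℝ} (h0 : 0 ≤ ρ) (h1 : ρ < 1) : ∃ k, ρ < bxr e k := by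
  obtain ⟨k, hk⟩ := exists_pow_lt_of_lt_one (show (0 : ℝ) < 3⁻¹ by norm_num) h1
  refine ⟨k, lt_of_pow_lt_pow_left₀ ((e + 1) ^ k) (bx_br_pos k).le ?_⟩
  rw [bx_br_pow]
  exact (pow_le_pow_of_le_one h0 h1.le (Nat.lt_pow_self (by omega)).le).trans_lt hk

theorem bx_lim_h (he : 1 ≤ e) (hc : ∀ k, ‖(fq e c)^[k] 0‖ ≤ 2) : ∃ g : ℂ → ℂ,
    DifferentiableOn ℂ g (ball 0 1) ∧ g 0 = 1 ∧
      (∀ u ∈ ball (0 : ℂ) 1, g u ^ (e + 1) = g (u ^ (e + 1)) - c * u ^ (e + 1)) ∧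
      ∀ u u' : ℂ, u ^ (e + 1) = u' ^ (e + 1) → g u = g u' := by
  obtain ⟨h, h0, H, hs⟩ := bx_gd_seq he hc
  have est := bx_gd_est he h0 H hs
  set g : ℂ → ℂ := fun u => limUnder atTop fun k => h k u with hg
  have tail : ∀ k, ∀ u ∈ ball (0 : ℂ) (bxr e k), ∀ n,
      dist (h (n + k) u) (h (n + 1 + k) u) ≤ 12 * ‖u‖ ^ n := fun k u hu n => by
    have h1 : ‖u‖ ≤ 1 := ((mem_ball_zero_iff.mp hu).trans (bx_br_lt k)).le
    rw [dist_comm, dist_eq_norm, Nat.add_right_comm]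
    exact (est _ u (bx_br_mono hu (by omega))).trans (mul_le_mul_of_nonneg_left
      (pow_le_pow_of_le_one (norm_nonneg _) h1 (by omega)) (by norm_num))
  have conv : ∀ u ∈ ball (0 : ℂ) 1, Tendsto (fun k => h k u) atTop (𝓝 (g u)) := fun u hu => by
    obtain ⟨k, hk⟩ := bx_br_ex he (norm_nonneg u) (mem_ball_zero_iff.mp hu)
    refine CauchySeq.tendsto_limUnder ((cauchySeq_shift k).mp ?_)
    exact cauchySeq_of_le_geometric ‖u‖ 12 (mem_ball_zero_iff.mp hu)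
      (tail k u (mem_ball_zero_iff.mpr hk))
  refine ⟨g, fun u hu => ?_, ?_, fun u hu => ?_, fun u u' huu => ?_⟩
  · obtain ⟨ρ, h1, h2⟩ := exists_between (mem_ball_zero_iff.mp hu)
    have hρ : 0 ≤ ρ := (norm_nonneg u).trans h1.le
    obtain ⟨k, hk⟩ := bx_br_ex he hρ h2
    have hU : TendstoUniformlyOn (fun n => h (n + k)) g atTop (ball 0 ρ) := by
      rw [Metric.tendstoUniformlyOn_iff]
      intro ε hε
      have h3 : Tendsto (fun n : ℕ => 12 * ρ ^ n / (1 - ρ)) atTop (𝓝 0) := by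
        simpa using ((tendsto_pow_atTop_nhds_zero_of_lt_one hρ h2).const_mul 12).div_const (1 - ρ)
      filter_upwards [h3.eventually (gt_mem_nhds hε)] with n hn v hv
      rw [dist_comm]
      refine lt_of_le_of_lt (dist_le_of_le_geometric_of_tendsto ρ 12 h2
        (f := fun n => h (n + k) v) (fun n => (tail k v (ball_subset_ball hk.le hv) n).trans ?_)
        ((tendsto_add_atTop_iff_nat k).mpr (conv v (ball_subset_ball h2.le hv))) n) hn
      gcongr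
      exact (mem_ball_zero_iff.mp hv).le
    exact ((hU.tendstoLocallyUniformlyOn.differentiableOn (Eventually.of_forall fun n =>
      (H (n + k)).diff.mono fun v hv => bx_br_mono (ball_subset_ball hk.le hv) (by omega))
      isOpen_ball).differentiableAt (isOpen_ball.mem_nhds (mem_ball_zero_iff.mpr h1))
      ).differentiableWithinAt
  · refine tendsto_nhds_unique (conv 0 (mem_ball_self one_pos)) ?_
    simp only [(H _).zero]
    exact tendsto_const_nhds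
  · obtain ⟨k, hk⟩ := bx_br_ex he (norm_nonneg u) (mem_ball_zero_iff.mp hu)
    have hu' : u ^ (e + 1) ∈ ball (0 : ℂ) 1 := by
      rw [mem_ball_zero_iff, norm_pow]
      exact pow_lt_one₀ (norm_nonneg _) (mem_ball_zero_iff.mp hu) (by omega)
    refine tendsto_nhds_unique (((tendsto_add_atTop_iff_nat 1).mpr (conv u hu)).pow (e + 1))
      (((conv _ hu').sub_const _).congr' ?_)
    filter_upwards [eventually_ge_atTop k] with n hn
    exact (hs n u (bx_br_mono (mem_ball_zero_iff.mpr hk) (by omega))).symm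
  · simp only [hg, fun k => (H k).sym u u' huu]

theorem bx_inj_far {g : ℂ → ℂ} (hg : DifferentiableOn ℂ g (ball 0 1)) (h0 : g 0 = 1) :
    ∃ R : ℝ, 1 < R ∧ ∀ w w' : ℂ, R < ‖w‖ → R < ‖w'‖ → w * g w⁻¹ = w' * g w'⁻¹ → w = w' := by
  have hb : ball (0 : ℂ) 1 ∈ 𝓝 (0 : ℂ) := ball_mem_nhds _ one_pos
  have hq := (Complex.differentiableOn_dslope hb).mpr hg
  obtain ⟨K, t, ht, hK⟩ := ((hq.analyticAt hb).contDiffAt (n := 1)).exists_lipschitzOnWith
  obtain ⟨δ, hδ, hδt⟩ := Metric.mem_nhds_iff.mp ht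
  refine ⟨1 + δ⁻¹ + K, by linarith [inv_pos.mpr hδ, K.coe_nonneg], fun w w' hw hw' h => ?_⟩
  have hin : ∀ w : ℂ, 1 + δ⁻¹ + K < ‖w‖ → w ≠ 0 ∧ w⁻¹ ∈ t ∧ 1 + K < ‖w‖ := fun w hw => by
    have h1 := inv_pos.mpr hδ
    have h2 : 0 < ‖w‖ := by linarith [K.coe_nonneg]
    refine ⟨norm_pos_iff.mp h2, hδt ?_, by linarith⟩
    rw [mem_ball_zero_iff, norm_inv, inv_lt_comm₀ h2 hδ]
    linarith [K.coe_nonneg]
  obtain ⟨a1, a2, a3⟩ := hin w hw
  obtain ⟨b1, b2, b3⟩ := hin w' hw'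
  have hf : ∀ w : ℂ, w ≠ 0 → w * g w⁻¹ = w + dslope g 0 w⁻¹ := fun w hw => by
    have := sub_smul_dslope g 0 w⁻¹
    rw [sub_zero, smul_eq_mul, h0] at this
    rw [eq_add_of_sub_eq this.symm]
    field_simp
    ring
  rw [hf w a1, hf w' b1] at h
  have h1 := hK.dist_le_mul _ a2 _ b2
  rw [dist_eq_norm, dist_eq_norm, show dslope g 0 w⁻¹ - dslope g 0 w'⁻¹ = w' - w by
    linear_combination h, inv_sub_inv a1 b1, norm_div, norm_mul, ← mul_div_assoc,
    le_div_iff₀ (mul_pos (norm_pos_iff.mpr a1) (norm_pos_iff.mpr b1))] at h1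
  have h2 : (K : ℝ) < ‖w‖ * ‖w'‖ := by nlinarith [K.coe_nonneg]
  have h3 : ‖w' - w‖ ≤ 0 := by
    by_contra h4
    nlinarith [not_le.mp h4]
  exact (sub_eq_zero.mp (norm_le_zero_iff.mp h3)).symm

/-- The inverse Boettcher map exists outside the closed unit disc. -/
theorem bx_main (he : 1 ≤ e) (hc : ∀ k, ‖(fq e c)^[k] 0‖ ≤ 2) : ∃ ψ : ℂ → ℂ,
    DifferentiableOn ℂ ψ {w | 1 < ‖w‖} ∧ InjOn ψ {w | 1 < ‖w‖} ∧
      (∀ w : ℂ, 1 < ‖w‖ → ψ (w ^ (e + 1)) = ψ w ^ (e + 1) + c) ∧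
      Tendsto (fun w => ψ w / w) (Bornology.cobounded ℂ) (𝓝 1) := by
  obtain ⟨g, hg, h0, hf, hsym⟩ := bx_lim_h he hc
  obtain ⟨R, hR, hinj⟩ := bx_inj_far hg h0
  have hne : ∀ w : ℂ, 1 < ‖w‖ → w ≠ 0 := fun w hw => norm_pos_iff.mp (one_pos.trans hw)
  have hin : ∀ w : ℂ, 1 < ‖w‖ → w⁻¹ ∈ ball (0 : ℂ) 1 := fun w hw => by
    rw [mem_ball_zero_iff, norm_inv]
    exact inv_lt_one_of_one_lt₀ hw
  have hpw : ∀ w : ℂ, 1 < ‖w‖ → ∀ n, 1 < ‖w ^ (e + 1) ^ n‖ := fun w hw n => by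
    rw [norm_pow]
    exact one_lt_pow₀ hw (by positivity)
  set ψ : ℂ → ℂ := fun w => w * g w⁻¹ with hψ
  have semi : ∀ w : ℂ, 1 < ‖w‖ → ψ (w ^ (e + 1)) = ψ w ^ (e + 1) + c := fun w hw => by
    have := pow_ne_zero (e + 1) (hne w hw)
    simp only [hψ]
    rw [mul_pow, hf _ (hin w hw), inv_pow]
    field_simp
    ring
  have iter : ∀ n, ∀ w : ℂ, 1 < ‖w‖ → ψ (w ^ (e + 1) ^ n) = (fq e c)^[n] (ψ w) := by
    intro n w hw
    induction n with
    | zero => simp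
    | succ n ih => rw [Function.iterate_succ_apply', ← ih, pow_succ, pow_mul, semi _ (hpw w hw n), fq]
  have asym : Tendsto (fun w => ψ w / w) (Bornology.cobounded ℂ) (𝓝 1) := by
    have h1 := (hg.continuousOn.continuousAt (ball_mem_nhds _ one_pos)).tendsto.comp
      (Filter.tendsto_inv₀_cobounded (α := ℂ))
    rw [h0] at h1
    refine h1.congr' ?_
    filter_upwards [Bornology.eventually_ne_cobounded (0 : ℂ)] with w hw
    simp only [hψ, Function.comp]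
    rw [mul_div_cancel_left₀ _ hw]
  have big : ∀ w : ℂ, 1 < ‖w‖ → Tendsto (fun n => ‖w ^ (e + 1) ^ n‖) atTop atTop := fun w hw => by
    simp only [norm_pow]
    exact (tendsto_pow_atTop_atTop_of_one_lt hw).comp
      (tendsto_pow_atTop_atTop_of_one_lt (by omega))
  have nz : ∀ w : ℂ, 1 < ‖w‖ → ψ w ≠ 0 := fun w hw hz => by
    have h1 := asym.comp (tendsto_norm_atTop_iff_cobounded.mp (big w hw))
    have h2 : Tendsto ((fun w => ψ w / w) ∘ fun n => w ^ (e + 1) ^ n) atTop (𝓝 0) := by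
      refine squeeze_zero_norm (fun n => ?_) ((big w hw).const_div_atTop 2)
      simp only [Function.comp]
      rw [iter n w hw, hz, norm_div]
      gcongr
      exact hc n
    exact one_ne_zero (tendsto_nhds_unique h1 h2)
  have desc : ∀ n, ∀ w w' : ℂ, 1 < ‖w‖ → 1 < ‖w'‖ → ψ w = ψ w' →
      w ^ (e + 1) ^ n = w' ^ (e + 1) ^ n → w = w' := by
    intro n
    induction n with
    | zero => intro w w' _ _ _ h; simpa using h
    | succ n ih =>
      intro w w' hw hw' h1 h2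
      have h3 : w ^ (e + 1) = w' ^ (e + 1) := ih _ _ (by simpa using hpw w hw 1)
        (by simpa using hpw w' hw' 1) (by rw [semi w hw, semi w' hw', h1])
        (by rwa [← pow_mul, ← pow_mul, ← pow_succ'])
      have h4 := hsym w⁻¹ w'⁻¹ (by rw [inv_pow, inv_pow, h3])
      have h5 := nz w' hw'
      simp only [hψ, h4] at h1 h5
      exact mul_right_cancel₀ (right_ne_zero_of_mul h5) h1
  refine ⟨ψ, differentiableOn_id.mul (hg.comp (differentiableOn_id.inv hne) hin),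
    fun w hw w' hw' h => ?_, semi, asym⟩
  obtain ⟨n, h1, h2⟩ := (((big w hw).eventually_gt_atTop R).and
    ((big w' hw').eventually_gt_atTop R)).exists
  refine desc n w w' hw hw' h (hinj _ _ h1 h2 ?_)
  change ψ _ = ψ _
  rw [iter n w hw, iter n w' hw', h]

theorem bot_exists (he : 1 ≤ e) {c : ℂ} (hc : c ∈ Mset e) : ∃ ψ, Bot e c ψ := by
  obtain ⟨ψ, h1, h2, h3, h4⟩ := bx_main he (M_orbit he hc)
  exact ⟨ψ, h1, h2, h3, h4⟩

end Pool.Agent.MP_28f8a1_an.Mlc
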