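import Pool.Agent.MP_28f8a1_an.Mlc.Defs

/-! Boundary bumping: a connected neighbourhood from an open projection. -/

set_option autoImplicit false

namespace Pool.Agent.MP_28f8a1_an.Mlc

open Set Filter Topology

theorem bump_gen {T : Type} [TopologicalSpace T] [T2Space T] {π : T → ℂ} (hπ : Continuous π)
    {Y L : Set T} {M : Set ℂ} (hY : IsCompact Y) (hL : L ⊆ Y) (hfin : (Y \ L).Finite)
    (hM : IsPreconnected M) (hLM : ∀ x ∈ L, π x ∈ M) (hne : ∃ m ∈ M, ∀ y ∈ Y, π y ≠ m)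
    (hop : ∀ x ∈ L, ∀ N ∈ 𝓝 x, π '' (N ∩ L) ∈ 𝓝[M] (π x)) {x0 : T} (hx0 : x0 ∈ L) :
    π '' connectedComponentIn Y x0 ∈ 𝓝[M] (π x0) ∧ ∃ y ∈ connectedComponentIn Y x0, y ∉ L := by
  have : CompactSpace Y := isCompact_iff_compactSpace.mp hY
  have : PreconnectedSpace M := isPreconnected_iff_preconnectedSpace.mp hM
  set F : Set Y := {f | (f : T) ∉ L} with hFd
  have hF : F.Finite :=
    (hfin.preimage Subtype.val_injective.injOn).subset fun f hf => ⟨f.2, hf⟩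
  have key : ∀ Z : Set Y, ∀ z : Y, (z : T) ∈ L → Z ∈ 𝓝 z →
      π '' (Subtype.val '' Z) ∈ 𝓝[M] (π z) := by
    intro Z z hz hZ
    obtain ⟨N, hN, hNZ⟩ := (mem_nhds_subtype _ _ _).mp hZ
    refine mem_of_superset (hop z hz N hN) (image_mono ?_)
    rintro x ⟨hx, hxL⟩
    exact ⟨⟨x, hL hxL⟩, hNZ hx, rfl⟩
  have step : ∀ y : Y, ∃ f ∈ F, f ∈ connectedComponent y := by
    intro y
    by_contra h
    have h1 : ∀ f : Y, f ∈ F → ∃ Z : Set Y, IsClopen Z ∧ y ∈ Z ∧ f ∉ Z := by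
      intro f hf
      have h2 : f ∉ connectedComponent y := fun h3 => h ⟨f, hf, h3⟩
      rw [connectedComponent_eq_iInter_isClopen, mem_iInter, not_forall] at h2
      obtain ⟨⟨Z, hZ⟩, h4⟩ := h2
      exact ⟨Z, hZ.1, hZ.2, h4⟩
    choose! Zf hZ using h1
    set Z := ⋂ f ∈ F, Zf f with hZd
    have hZc : IsClopen Z := hF.isClopen_biInter fun f hf => (hZ f hf).1
    have hyZ : y ∈ Z := mem_iInter₂.mpr fun f hf => (hZ f hf).2.1
    have hZL : ∀ z ∈ Z, (z : T) ∈ L := fun z hz => by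
      by_contra h5
      exact (hZ z h5).2.2 (mem_iInter₂.mp hz z h5)
    set W := π '' (Subtype.val '' Z) with hW
    have hWc : IsClosed W :=
      ((hZc.1.isCompact.image continuous_subtype_val).image hπ).isClosed
    have hcl : IsClopen (Subtype.val ⁻¹' W : Set M) := by
      refine ⟨hWc.preimage continuous_subtype_val, isOpen_iff_mem_nhds.mpr ?_⟩
      rintro m ⟨_, ⟨z, hz, rfl⟩, hm⟩
      rw [preimage_coe_mem_nhds_subtype, ← hm]
      exact key Z z (hZL z hz) (hZc.2.mem_nhds hz)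
    have huniv := hcl.eq_univ ⟨⟨π y, hLM _ (hZL y hyZ)⟩, y, ⟨y, hyZ, rfl⟩, rfl⟩
    obtain ⟨m, hm, hm'⟩ := hne
    have h6 : (⟨m, hm⟩ : M) ∈ (Subtype.val ⁻¹' W : Set M) := huniv ▸ mem_univ _
    obtain ⟨_, ⟨z, -, rfl⟩, h7⟩ := h6
    exact hm' z z.2 h7
  set y0 : Y := ⟨x0, hL hx0⟩ with hy0
  rw [connectedComponentIn_eq_image (hL hx0)]
  refine ⟨key _ y0 hx0 ?_, (step y0).elim fun f hf => ⟨f, ⟨f, hf.2, rfl⟩, hf.1⟩⟩
  have hG : IsClosed (⋃ f ∈ F \ connectedComponent y0, connectedComponent f) :=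
    (hF.subset fun _ h => h.1).isClosed_biUnion fun f _ => isClosed_connectedComponent
  refine mem_of_superset (hG.isOpen_compl.mem_nhds ?_) fun y hy => ?_
  · intro h
    obtain ⟨f, hf, h1⟩ := mem_iUnion₂.mp h
    exact hf.2 (by rw [← connectedComponent_eq h1]; exact mem_connectedComponent)
  · obtain ⟨f, hf, h1⟩ := step y
    by_contra h2
    refine hy (mem_iUnion₂.mpr ⟨f, ⟨hf, fun h3 => h2 ?_⟩, ?_⟩)
    · rw [connectedComponent_eq h3, ← connectedComponent_eq h1]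
      exact mem_connectedComponent
    · rw [← connectedComponent_eq h1]
      exact mem_connectedComponent

theorem bump {M : Set ℂ} (hM : IsPreconnected M) {L : Set (ℂ × ℂ)} (hc : IsCompact (closure L))
    (hf : (closure L \ L).Finite) (hLM : ∀ x ∈ L, x.1 ∈ M)
    (ho : ∀ x ∈ L, ∀ N ∈ 𝓝 x, Prod.fst '' (L ∩ N) ∈ 𝓝[M] x.1) {m : ℂ} (hm : m ∈ M)
    (hm' : ∀ x ∈ closure L, x.1 ≠ m) {x : ℂ × ℂ} (hx : x ∈ L) :
    Prod.fst '' connectedComponentIn (closure L) x ∈ 𝓝[M] x.1 ∧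
      ∃ y ∈ connectedComponentIn (closure L) x, y ∉ L :=
  bump_gen continuous_fst hc subset_closure hf hM hLM ⟨m, hm, hm'⟩
    (fun y hy N hN => by rw [inter_comm]; exact ho y hy N hN) hx

end Pool.Agent.MP_28f8a1_an.Mlc
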