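import Pool.Agent.MP_28f8a1_an.Mlc.Defs
import Pool.Agent.MP_28f8a1_an.M22.Claim

/-! Mountain pass for entire proper maps, and connectivity of the Multibrot set. -/

set_option autoImplicit false

namespace Pool.Agent.MP_28f8a1_an.Mlc

open Metric Set Filter Topology

theorem preconn_iInter (K : ℕ → Set ℂ) (hanti : Antitone K) (hc : ∀ i, IsCompact (K i))
    (hp : ∀ i, IsPreconnected (K i)) : IsPreconnected (⋂ i, K i) := by
  rw [isPreconnected_iff_subset_of_fully_disjoint_closed (isClosed_iInter fun i => (hc i).isClosed)]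
  intro u v hu hv huv hd
  obtain ⟨U, W, hU, hW, h2, h3, h1⟩ := normal_separation hu hv hd
  obtain ⟨i, hi⟩ := exists_subset_nhds_of_isCompact' hanti.directed_ge hc
    (fun i => (hc i).isClosed)
    (U := U ∪ W) (fun x hx => (hU.union hW).mem_nhds (union_subset_union h2 h3 (huv hx)))
  rcases (hp i).subset_or_subset hU hW h1 hi with h | h
  · exact Or.inl fun x hx => (huv hx).resolve_right fun hv =>
      Set.disjoint_left.1 h1 (h (mem_iInter.1 hx i)) (h3 hv)
  · exact Or.inr fun x hx => (huv hx).resolve_left fun hu =>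
      Set.disjoint_left.1 h1 (h2 hu) (h (mem_iInter.1 hx i))

theorem loc_closure {P : ℂ → ℂ} (hP : Differentiable ℂ P) {x : ℂ} (hx : deriv P x ≠ 0) {s : ℝ}
    (hs : 0 < s) (hxs : ‖P x‖ ≤ s) : x ∈ closure {z | ‖P z‖ < s} := by
  have h1 : map P (𝓝 x) = 𝓝 (P x) := (hP.analyticAt x).hasStrictDerivAt.map_nhds_eq hx
  have h2 : P x ∈ closure (ball (0 : ℂ) s) := by
    rw [closure_ball _ hs.ne']
    simpa using hxs
  rw [mem_closure_iff_frequently] at h2 ⊢
  rw [← h1, frequently_map] at h2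
  simpa using h2

theorem loc_preconn {P : ℂ → ℂ} (hP : Differentiable ℂ P) {x : ℂ} (hx : deriv P x ≠ 0) (s : ℝ) :
    ∃ V ∈ 𝓝 x, IsPreconnected (V ∩ {z | ‖P z‖ < s}) := by
  have h0 := (hP.analyticAt x).hasStrictDerivAt.hasStrictFDerivAt_equiv hx
  set φ := h0.toOpenPartialHomeomorph P with hφ
  have hc : ∀ z, φ z = P z := fun z => rfl
  have hxs : x ∈ φ.source := h0.mem_toOpenPartialHomeomorph_source
  obtain ⟨r, hr, hb⟩ := Metric.isOpen_iff.mp φ.open_target (P x) (φ.map_source hxs)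
  refine ⟨φ.source ∩ P ⁻¹' ball (P x) r, inter_mem (φ.open_source.mem_nhds hxs)
    (hP.continuous.continuousAt.preimage_mem_nhds (ball_mem_nhds _ hr)), ?_⟩
  have h3 : φ.source ∩ P ⁻¹' ball (P x) r ∩ {z | ‖P z‖ < s} =
      φ.symm '' (ball (P x) r ∩ ball 0 s) := by
    ext z
    constructor
    · rintro ⟨⟨h1, h2⟩, h4⟩
      exact ⟨P z, ⟨h2, by simpa using h4⟩, φ.left_inv h1⟩
    · rintro ⟨w, ⟨h1, h2⟩, rfl⟩
      have h5 : P (φ.symm w) = w := φ.right_inv (hb h1)
      refine ⟨⟨φ.map_target (hb h1), ?_⟩, ?_⟩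
      · rw [mem_preimage, h5]
        exact h1
      · rw [mem_ofPred_eq, h5]
        simpa using h2
  rw [h3]
  exact ((convex_ball _ _).inter (convex_ball _ _)).isPreconnected.image _
    (φ.continuousOn_symm.mono fun w hw => hb hw.1)

theorem joined_sub {P : ℂ → ℂ} (hP : Differentiable ℂ P)
    (hprop : ∀ s : ℝ, IsCompact {z | ‖P z‖ ≤ s}) {R : ℝ} (hR : 0 ≤ R)
    (hcrit : ∀ z, R < ‖P z‖ → deriv P z ≠ 0) {t : ℝ} (ht : R < t) {a b : ℂ}
    (ha : ‖P a‖ < t) (hb : ‖P b‖ < t) : JoinedIn {z | ‖P z‖ < t} a b := by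
  by_contra hn
  have hN : Continuous fun z => ‖P z‖ := hP.continuous.norm
  set S : Set ℝ := {s | JoinedIn {z | ‖P z‖ < s} a b} with hS
  have up : ∀ s ∈ S, ∀ s', s ≤ s' → s' ∈ S := fun s hs s' h =>
    JoinedIn.mono hs fun z hz => lt_of_lt_of_le hz h
  have Sne : S.Nonempty := by
    have hseg : IsCompact (segment ℝ a b) := by
      rw [segment_eq_image_lineMap]
      exact isCompact_Icc.image AffineMap.lineMap_continuous
    obtain ⟨C, hC⟩ := (hseg.image hN).bddAbove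
    exact ⟨C + 1, JoinedIn.of_segment_subset fun z hz =>
      lt_of_le_of_lt (hC ⟨z, hz, rfl⟩) (lt_add_one C)⟩
  have low : ∀ s ∈ S, t ≤ s := fun s hs => by
    by_contra h
    exact hn (up s hs t (not_le.mp h).le)
  have bdd : BddBelow S := ⟨t, low⟩
  set σ := sInf S with hσ
  have htσ : t ≤ σ := le_csInf Sne low
  have hnot : σ ∉ S := by
    rintro ⟨γ, hγ⟩
    obtain ⟨u, -, hu⟩ := isCompact_univ.exists_isMaxOn univ_nonempty
      (hN.comp γ.continuous).continuousOn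
    have h1 : ‖P (γ u)‖ < σ := hγ u
    have h2 : (‖P (γ u)‖ + σ) / 2 ∈ S := ⟨γ, fun v => by
      have : ‖P (γ v)‖ ≤ ‖P (γ u)‖ := hu (mem_univ v)
      show ‖P (γ v)‖ < _
      linarith⟩
    have := csInf_le bdd h2
    linarith
  set U : Set ℂ := {z | ‖P z‖ < σ} with hU
  have hUo : IsOpen U := isOpen_lt hN continuous_const
  have haU : a ∈ U := lt_of_lt_of_le ha htσ
  have hbU : b ∈ U := lt_of_lt_of_le hb htσ
  set A := pathComponentIn U a with hA
  have hAo : IsOpen A := hUo.pathComponentIn a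
  have hBo : IsOpen (U \ A) := by
    rw [isOpen_iff_mem_nhds]
    rintro x ⟨hx, hxA⟩
    refine mem_of_superset ((hUo.pathComponentIn x).mem_nhds (mem_pathComponentIn_self hx)) ?_
    intro y hy
    exact ⟨pathComponentIn_subset hy, fun h => hxA (JoinedIn.trans h (JoinedIn.symm hy))⟩
  have hAU : A ⊆ U := pathComponentIn_subset
  have hσ0 : 0 < σ := by linarith
  have hdis : Disjoint (closure A) (closure (U \ A)) := by
    rw [Set.disjoint_left]
    intro x hxA hxB
    have hd : Disjoint A (U \ A) := disjoint_sdiff_right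
    by_cases hx : x ∈ U
    · by_cases hx' : x ∈ A
      · exact Set.disjoint_left.1 (hd.closure_right hAo) hx' hxB
      · exact Set.disjoint_left.1 (hd.closure_left hBo) hxA ⟨hx, hx'⟩
    · have h1 : R < ‖P x‖ := by
        have : σ ≤ ‖P x‖ := not_lt.mp hx
        linarith
      obtain ⟨V, hV, hVc⟩ := loc_preconn hP (hcrit x h1) σ
      obtain ⟨y, hyV, hyA⟩ := mem_closure_iff_nhds.mp hxA V hV
      obtain ⟨w, hwV, hwB⟩ := mem_closure_iff_nhds.mp hxB V hV
      rcases hVc.subset_or_subset hAo hBo hd (fun z hz => by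
        by_cases h : z ∈ A
        · exact Or.inl h
        · exact Or.inr ⟨hz.2, h⟩) with h | h
      · exact hwB.2 (h ⟨hwV, hwB.1⟩)
      · exact (h ⟨hyV, hAU hyA⟩).2 hyA
  obtain ⟨U1, U2, h1, h2, h3, h4, h5⟩ := normal_separation isClosed_closure isClosed_closure hdis
  have hanti : Antitone fun n : ℕ => {z | ‖P z‖ ≤ σ + 1 / ((n : ℝ) + 1)} := by
    intro m n hmn z hz
    have : 1 / ((n : ℝ) + 1) ≤ 1 / ((m : ℝ) + 1) := Nat.one_div_le_one_div hmn
    have hz' : ‖P z‖ ≤ σ + 1 / ((n : ℝ) + 1) := hz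
    show ‖P z‖ ≤ _
    linarith
  obtain ⟨n, hn'⟩ := exists_subset_nhds_of_isCompact' hanti.directed_ge (fun n => hprop _)
    (fun n => (hprop _).isClosed) (U := U1 ∪ U2) (fun x hx => by
      refine (h1.union h2).mem_nhds ?_
      have hle : ‖P x‖ ≤ σ := by
        refine le_of_forall_pos_le_add fun ε hε => ?_
        obtain ⟨m, hm⟩ := exists_nat_one_div_lt hε
        have : ‖P x‖ ≤ σ + 1 / ((m : ℝ) + 1) := mem_iInter.1 hx m
        linarith
      have hcl : x ∈ closure U := by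
        rcases hle.lt_or_eq with h | h
        · exact subset_closure h
        · exact loc_closure hP (hcrit x (by linarith)) hσ0 hle
      rw [← union_sdiff_cancel hAU, closure_union] at hcl
      exact hcl.imp (fun h => h3 h) fun h => h4 h)
  have hpos : (0 : ℝ) < 1 / ((n : ℝ) + 1) := by positivity
  obtain ⟨s, ⟨γ, hγ⟩, hs⟩ := exists_lt_of_csInf_lt Sne (show sInf S < σ + 1 / ((n : ℝ) + 1) by
    linarith)
  have hsub : range γ ⊆ U1 ∪ U2 := by
    rintro _ ⟨v, rfl⟩
    have : ‖P (γ v)‖ < s := hγ v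
    exact hn' (show ‖P (γ v)‖ ≤ _ by linarith)
  have haA : a ∈ U1 := h3 (subset_closure (mem_pathComponentIn_self haU))
  have hbB : b ∈ U2 := h4 (subset_closure ⟨hbU, hnot⟩)
  rcases (isPreconnected_range γ.continuous).subset_or_subset h1 h2 h5 hsub with h | h
  · exact Set.disjoint_left.1 h5 (h γ.target_mem_range) hbB
  · exact Set.disjoint_left.1 h5 haA (h γ.source_mem_range)

theorem pass {P : ℂ → ℂ} (hP : Differentiable ℂ P) (hb : ∀ t : ℝ, IsCompact {z | ‖P z‖ ≤ t})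
    {R t : ℝ} (hR : 0 ≤ R) (ht : R < t) (hd : ∀ z, R < ‖P z‖ → deriv P z ≠ 0) :
    IsPreconnected {z | ‖P z‖ < t} := by
  refine isPreconnected_of_forall_pair fun a ha b hb' => ?_
  obtain ⟨γ, hγ⟩ := joined_sub hP hb hR hd ht ha hb'
  exact ⟨range γ, by rintro _ ⟨v, rfl⟩; exact hγ v, γ.source_mem_range, γ.target_mem_range,
    isPreconnected_range γ.continuous⟩

theorem sub_preconn {P : ℂ → ℂ} (hP : Differentiable ℂ P)
    (hprop : ∀ s : ℝ, IsCompact {z | ‖P z‖ ≤ s}) {R : ℝ} (hR : 0 ≤ R)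
    (hcrit : ∀ z, R < ‖P z‖ → deriv P z ≠ 0) {t : ℝ} (ht : R < t) :
    IsPreconnected {z | ‖P z‖ ≤ t} := by
  have h1 := pass hP hprop hR ht hcrit
  refine h1.subset_closure (fun z hz => le_of_lt (show ‖P z‖ < t from hz)) fun z hz => ?_
  rcases (show ‖P z‖ ≤ t from hz).lt_or_eq with h | h
  · exact subset_closure h
  · exact loc_closure hP (hcrit z (by linarith)) (by linarith) hz

variable {e : ℕ}

theorem conn_grow (he : 1 ≤ e) {c z : ℂ} (hz : 1 ≤ ‖z‖) (hc : ‖c‖ ≤ ‖z‖) :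
    ‖z‖ * (‖z‖ - 1) ≤ ‖fq e c z‖ := by
  have h1 : ‖z‖ ^ 2 ≤ ‖z‖ ^ (e + 1) := pow_le_pow_right₀ hz (by omega)
  have h2 : ‖z ^ (e + 1)‖ ≤ ‖z ^ (e + 1) + c‖ + ‖c‖ := by
    simpa using norm_sub_le (z ^ (e + 1) + c) c
  rw [norm_pow] at h2
  unfold fq
  nlinarith

theorem conn_ge (he : 1 ≤ e) {c : ℂ} (hc : 2 ≤ ‖c‖) (k : ℕ) : ‖c‖ ≤ ‖(fq e c)^[k] c‖ := by
  induction k with
  | zero => simp
  | succ k ih =>
    rw [Function.iterate_succ_apply']
    have := conn_grow he (c := c) (z := (fq e c)^[k] c) (by linarith) ih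
    nlinarith

theorem conn_step (he : 1 ≤ e) {c : ℂ} {k : ℕ} (h : 2 ≤ ‖(fq e c)^[k] c‖) :
    ‖(fq e c)^[k] c‖ * (‖(fq e c)^[k] c‖ - 1) ≤ ‖(fq e c)^[k + 1] c‖ := by
  rw [Function.iterate_succ_apply']
  refine conn_grow he (by linarith) ?_
  rcases le_total 2 ‖c‖ with h1 | h1
  · exact conn_ge he h1 k
  · linarith

theorem conn_diff (e k : ℕ) : Differentiable ℂ fun c : ℂ => (fq e c)^[k] c := by
  induction k with
  | zero => exact differentiable_id
  | succ k ih =>
    simp only [Function.iterate_succ_apply']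
    exact (ih.pow (e + 1)).add differentiable_id

theorem conn_cpt (he : 1 ≤ e) (k : ℕ) (s : ℝ) : IsCompact {c : ℂ | ‖(fq e c)^[k] c‖ ≤ s} := by
  refine (isCompact_closedBall (0 : ℂ) (max 2 s)).of_isClosed_subset
    (isClosed_le (conn_diff e k).continuous.norm continuous_const) fun c hc => ?_
  rw [mem_closedBall_zero_iff]
  rcases le_total 2 ‖c‖ with h | h
  · exact le_max_of_le_right ((conn_ge he h k).trans hc)
  · exact le_max_of_le_left h

/-- A bounded critical orbit stays in the disc of radius two. -/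
theorem conn_two (he : 1 ≤ e) {c : ℂ} {B : ℝ} (hB : ∀ k, ‖(fq e c)^[k] c‖ ≤ B) (k : ℕ) :
    ‖(fq e c)^[k] c‖ ≤ 2 := by
  by_contra h
  rw [not_le] at h
  set δ := ‖(fq e c)^[k] c‖ - 2 with hδ
  have h1 : ∀ j : ℕ, 2 + δ + j * δ ≤ ‖(fq e c)^[k + j] c‖ := by
    intro j
    induction j with
    | zero => simp [hδ]
    | succ j ih =>
      have hj : (0 : ℝ) ≤ j * δ := mul_nonneg (Nat.cast_nonneg j) (by linarith)
      have := conn_step he (c := c) (k := k + j) (by linarith)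
      rw [← add_assoc]
      push_cast
      nlinarith
  obtain ⟨j, hj⟩ := exists_nat_gt (B / δ)
  rw [div_lt_iff₀ (by linarith)] at hj
  have := h1 j
  have := hB (k + j)
  linarith

theorem conn_main (he : 1 ≤ e)
    (hcl : ∀ k : ℕ, 1 ≤ k → ∀ c : ℂ, 32 < ‖(fq e c)^[k] c‖ →
      deriv (fun c : ℂ => (fq e c)^[k] c) c ≠ 0) :
    IsPreconnected {c : ℂ | ∀ k, ‖(fq e c)^[k] c‖ ≤ 2} := by
  have h1 : {c : ℂ | ∀ k, ‖(fq e c)^[k] c‖ ≤ 2} = ⋂ k, {c : ℂ | ‖(fq e c)^[k] c‖ ≤ 33} := by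
    ext c
    simp only [mem_ofPred_eq, mem_iInter]
    exact ⟨fun h k => (h k).trans (by norm_num), fun h k => conn_two he h k⟩
  rw [h1]
  refine preconn_iInter _ (antitone_nat_of_succ_le fun k c hc => ?_) (fun k => conn_cpt he k _)
    fun k => sub_preconn (conn_diff e k) (conn_cpt he k) (R := 32) (by norm_num) ?_ (by norm_num)
  · by_contra h
    have h2 : 33 < ‖(fq e c)^[k] c‖ := not_le.mp h
    have h3 : ‖(fq e c)^[k + 1] c‖ ≤ 33 := hc
    have := conn_step he (c := c) (k := k) (by linarith)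
    nlinarith
  · rcases Nat.eq_zero_or_pos k with rfl | hk
    · intro z _
      simp
    · exact hcl k hk

theorem conn_zero (c : ℂ) (k : ℕ) : (fq e c)^[k + 1] 0 = (fq e c)^[k] c := by
  rw [Function.iterate_succ_apply]
  simp [fq]

/-- The same set through the orbit of the critical point. -/
theorem conn_iff (he : 1 ≤ e) (c : ℂ) :
    (∃ B : ℝ, ∀ k, ‖(fq e c)^[k] 0‖ ≤ B) ↔ ∀ k, ‖(fq e c)^[k] c‖ ≤ 2 := by
  constructor
  · rintro ⟨B, hB⟩
    exact conn_two he (B := B) fun k => by rw [← conn_zero]; exact hB _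
  · intro h
    refine ⟨2, fun k => ?_⟩
    rcases k with _ | k
    · simp
    · rw [conn_zero]
      exact h k

theorem M_conn (he : 1 ≤ e) : IsPreconnected (Mset e) := by
  have h : Mset e = {c : ℂ | ∀ k, ‖(fq e c)^[k] c‖ ≤ 2} := Set.ext fun c => conn_iff he c
  rw [h]
  exact conn_main he fun _ _ _ hc => M22.claim he hc

end Pool.Agent.MP_28f8a1_an.Mlc
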