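import Pool.Agent.MP_28f8a1_an.Mg.H42_Yoc

/-! Definitions for the local connectivity theorem. -/

set_option autoImplicit false

namespace Pool.Agent.MP_28f8a1_an.Mlc

open MeasureTheory Metric Set Real Filter Topology Pool.Agent.MP_28f8a1_an.H42
open Complex (I)

variable {e : ℕ}

/-- The Multibrot set. -/
def Mset (e : ℕ) : Set ℂ := {c | ∃ B : ℝ, ∀ k : ℕ, ‖(fq e c)^[k] 0‖ ≤ B}

/-- An inverse Boettcher map. -/
structure Bot (e : ℕ) (c : ℂ) (ψ : ℂ → ℂ) : Prop where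
  diff : DifferentiableOn ℂ ψ {w | 1 < ‖w‖}
  inj : InjOn ψ {w | 1 < ‖w‖}
  semi : ∀ w : ℂ, 1 < ‖w‖ → ψ (w ^ (e + 1)) = fq e c (ψ w)
  asy : Tendsto (fun w => ψ w / w) (Bornology.cobounded ℂ) (𝓝 1)

/-- The ray of angle `θ` lands at `z`. -/
def Lands (ψ : ℂ → ℂ) (θ : ℝ) (z : ℂ) : Prop :=
  Tendsto (fun r : ℝ => ψ (r * Complex.exp (2 * π * I * θ))) (𝓝[>] 1) (𝓝 z)

/-- The multiplier. -/
noncomputable def mu (e n : ℕ) (x : ℂ × ℂ) : ℂ := Pd e x.1 x.2 n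

/-- Points of exact period `n`. -/
def Per (e n : ℕ) : Set (ℂ × ℂ) := {x | Function.minimalPeriod (fq e x.1) x.2 = n}

/-- The compact set carrying the multiplier map. -/
def Ec (e n : ℕ) : Set (ℂ × ℂ) :=
  {x | (fq e x.1)^[n] x.2 = x.2 ∧ ‖mu e n x‖ ≤ 3 / 2 ∧ (mu e n x = 1 ∨ x ∈ Per e n)}

theorem esc_step (he : 1 ≤ e) {c w : ℂ} {t : ℝ} (ht : 0 ≤ t) (hw : 2 + t ≤ ‖w‖) (hc : ‖c‖ ≤ ‖w‖) :
    ‖w‖ + t ≤ ‖fq e c w‖ := by
  have h1 : ‖w‖ ^ 2 ≤ ‖w‖ ^ (e + 1) := pow_le_pow_right₀ (by linarith) (by omega)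
  have h2 : ‖w ^ (e + 1)‖ ≤ ‖fq e c w‖ + ‖c‖ := by
    have := norm_sub_le (fq e c w) c
    rwa [fq, add_sub_cancel_right] at this
  rw [norm_pow] at h2
  nlinarith

theorem esc_iter (he : 1 ≤ e) {c w : ℂ} {t : ℝ} (ht : 0 ≤ t) (hw : 2 + t ≤ ‖w‖) (hc : ‖c‖ ≤ ‖w‖)
    (k : ℕ) : ‖w‖ + k * t ≤ ‖(fq e c)^[k] w‖ := by
  induction k with
  | zero => simp
  | succ k ih =>
    have h0 : (0 : ℝ) ≤ k * t := by positivity
    have := esc_step he ht (c := c) (w := (fq e c)^[k] w) (by linarith) (by linarith)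
    rw [Function.iterate_succ_apply']
    push_cast
    linarith

theorem M_aux (he : 1 ≤ e) {c : ℂ} (hc : c ∈ Mset e) (j : ℕ) (h : ‖c‖ ≤ ‖(fq e c)^[j] 0‖) :
    ‖(fq e c)^[j] 0‖ ≤ 2 := by
  obtain ⟨B, hB⟩ := hc
  by_contra h2
  push Not at h2
  obtain ⟨k, hk⟩ := exists_nat_gt (B / (‖(fq e c)^[j] 0‖ - 2))
  have h3 := esc_iter he (t := ‖(fq e c)^[j] 0‖ - 2) (by linarith) (by linarith) h k
  rw [← Function.iterate_add_apply] at h3
  rw [div_lt_iff₀ (by linarith)] at hk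
  linarith [hB (k + j)]

theorem M_norm (he : 1 ≤ e) {c : ℂ} (hc : c ∈ Mset e) : ‖c‖ ≤ 2 := by
  have h : (fq e c)^[1] 0 = c := by simp [fq]
  simpa only [h] using M_aux he hc 1 (by rw [h])

theorem M_orbit (he : 1 ≤ e) {c : ℂ} (hc : c ∈ Mset e) (k : ℕ) : ‖(fq e c)^[k] 0‖ ≤ 2 := by
  rcases le_total ‖c‖ ‖(fq e c)^[k] 0‖ with h | h
  · exact M_aux he hc k h
  · exact h.trans (M_norm he hc)

theorem M_closed (he : 1 ≤ e) : IsClosed (Mset e) := by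
  have h : Mset e = ⋂ k : ℕ, {c | ‖(fq e c)^[k] 0‖ ≤ 2} := by
    ext c
    simp only [mem_iInter]
    exact ⟨fun h k => M_orbit he h k, fun h => ⟨2, h⟩⟩
  rw [h]
  exact isClosed_iInter fun k => isClosed_le
    ((t57_cont k).comp (continuous_id.prodMk continuous_const)).norm continuous_const

theorem M_zero : (0 : ℂ) ∈ Mset e := by
  refine ⟨0, fun k => ?_⟩
  rw [Function.iterate_fixed (by simp [fq]), norm_zero]

theorem Bot.iter (he : 1 ≤ e) {c : ℂ} {ψ : ℂ → ℂ} (h : Bot e c ψ) (k : ℕ) {w : ℂ} (hw : 1 < ‖w‖) :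
    ψ (w ^ (e + 1) ^ k) = (fq e c)^[k] (ψ w) := by
  induction k with
  | zero => simp
  | succ k ih =>
    rw [Function.iterate_succ_apply', ← ih, pow_succ, pow_mul, h.semi _ (by
      rw [norm_pow]
      exact one_lt_pow₀ hw (by positivity))]

/-- A smooth divided difference of the iterate. -/
theorem div_smooth (e k : ℕ) : ∃ Q : ℂ × ℂ × ℂ → ℂ, ContDiff ℂ 1 Q ∧
    (∀ c z w, (fq e c)^[k] w - (fq e c)^[k] z = Q (c, z, w) * (w - z)) ∧
    ∀ c z, Q (c, z, z) = Pd e c z k := by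
  induction k with
  | zero => exact ⟨fun _ => 1, contDiff_const, fun c z w => by simp, fun c z => (Pd_zero z).symm⟩
  | succ k ih =>
    obtain ⟨Q, h1, h2, h3⟩ := ih
    have a1 : ContDiff ℂ 1 fun p : ℂ × ℂ × ℂ => (fq e p.1)^[k] p.2.1 :=
      (t1055_smooth k).comp (contDiff_fst.prodMk contDiff_snd.fst)
    have a2 : ContDiff ℂ 1 fun p : ℂ × ℂ × ℂ => (fq e p.1)^[k] p.2.2 :=
      (t1055_smooth k).comp (contDiff_fst.prodMk contDiff_snd.snd)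
    refine ⟨fun p => (∑ i ∈ Finset.range (e + 1),
      ((fq e p.1)^[k] p.2.2) ^ i * ((fq e p.1)^[k] p.2.1) ^ (e + 1 - 1 - i)) * Q p,
      (ContDiff.sum fun i _ => (a2.pow _).mul (a1.pow _)).mul h1, fun c z w => ?_,
      fun c z => ?_⟩
    · rw [Function.iterate_succ_apply', Function.iterate_succ_apply', mul_assoc, ← h2,
        (Commute.all _ _).geom_sum₂_mul]
      simp [fq]
    · dsimp only
      rw [Pd_succ', h3, geom_sum₂_self, Nat.add_sub_cancel]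

theorem mu_smooth (e n : ℕ) : ContDiff ℂ 1 (mu e n) := by
  obtain ⟨Q, q1, -, q3⟩ := div_smooth e n
  have h : mu e n = fun x => Q (x.1, x.2, x.2) := funext fun x => (q3 _ _).symm
  rw [h]
  exact q1.comp (contDiff_fst.prodMk (contDiff_snd.prodMk contDiff_snd))

theorem mu_cont (e n : ℕ) : Continuous (mu e n) := (mu_smooth e n).continuous

theorem Per.fix {n : ℕ} {x : ℂ × ℂ} (h : x ∈ Per e n) : (fq e x.1)^[n] x.2 = x.2 := by
  have := Function.iterate_minimalPeriod (f := fq e x.1) (x := x.2)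
  rwa [show _ = n from h] at this

end Pool.Agent.MP_28f8a1_an.Mlc
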