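import Pool.Agent.MP_28f8a1_an.Mlc.Defs
import Pool.Agent.MP_28f8a1_an.M22.Claim

/-! Transversality: escaping critical orbits, parabolic cycles. -/

set_option autoImplicit false

namespace Pool.Agent.MP_28f8a1_an.Mlc

open MeasureTheory Metric Set Real Filter Topology Pool.Agent.MP_28f8a1_an.H42
open Complex (I)
open scoped ENNReal

variable {e : ℕ}

theorem esc_deriv (he : 1 ≤ e) {c : ℂ} {k : ℕ} (_hk : 0 < k) (h : 50 < ‖(fq e c)^[k] c‖) :
    deriv (fun c' => (fq e c')^[k] c') c ≠ 0 :=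
  M22.claim he (by linarith)

theorem pt_deriv {c z : ℂ} {n : ℕ} (h0 : ∀ j < n, (fq e c)^[j] z ≠ 0) :
    Pd e c z n ≠ 0 ∧ HasDerivAt (fun c' => (fq e c')^[n] z)
      (Pd e c z n * ∑ j ∈ Finset.range n, (Pd e c z (j + 1))⁻¹) c := by
  induction n with
  | zero => exact ⟨by simp [Pd_zero], by simpa using hasDerivAt_const c z⟩
  | succ n ih =>
    obtain ⟨h1, h2⟩ := ih fun j hj => h0 j (by omega)
    have h3 : Pd e c z (n + 1) ≠ 0 := by
      rw [Pd_succ']
      exact mul_ne_zero (mul_ne_zero (Nat.cast_ne_zero.mpr (Nat.succ_ne_zero e))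
        (pow_ne_zero _ (h0 n (Nat.lt_succ_self n)))) h1
    refine ⟨h3, ?_⟩
    have h4 : (fun c' => (fq e c')^[n + 1] z) = fun c' => ((fq e c')^[n] z) ^ (e + 1) + c' :=
      funext fun c' => Function.iterate_succ_apply' _ _ _
    rw [h4]
    refine ((h2.pow (e + 1)).add (hasDerivAt_id c)).congr_deriv ?_
    rw [Finset.sum_range_succ, mul_add, mul_inv_cancel₀ h3, Pd_succ' z n, Nat.add_sub_cancel]
    ring

theorem pt_null {n : ℕ} (hn : 0 < n) {a p : ℕ → ℂ} (ha : a 0 ≠ 0)
    (hp : ∀ i < n, i ≠ 0 → p 0 ≠ p i) :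
    {y | ∑ j ∈ Finset.range n, a j * (y - p j)⁻¹ = 0}.Finite := by
  set N : Polynomial ℂ := ∑ j ∈ Finset.range n, Polynomial.C (a j) *
    ∏ i ∈ (Finset.range n).erase j, (Polynomial.X - Polynomial.C (p i)) with hN
  have hev : ∀ y, N.eval y =
      ∑ j ∈ Finset.range n, a j * ∏ i ∈ (Finset.range n).erase j, (y - p i) := fun y => by
    simp [hN, Polynomial.eval_finsetSum, Polynomial.eval_prod]
  have hN0 : N ≠ 0 := by
    intro h
    have h1 := hev (p 0)
    rw [h, Polynomial.eval_zero, Finset.sum_eq_single 0] at h1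
    · refine mul_ne_zero ha (Finset.prod_ne_zero_iff.mpr fun i hi => ?_) h1.symm
      exact sub_ne_zero.mpr (hp i (Finset.mem_range.mp (Finset.mem_erase.mp hi).2)
        (Finset.mem_erase.mp hi).1)
    · intro j _ hj
      rw [Finset.prod_eq_zero (i := 0)
        (Finset.mem_erase.mpr ⟨hj.symm, Finset.mem_range.mpr hn⟩) (sub_self _), mul_zero]
    · intro h2
      exact absurd (Finset.mem_range.mpr hn) h2
  refine ((Polynomial.finite_setOfPred_isRoot hN0).union
    ((Finset.range n).finite_toSet.image p)).subset fun y hy => ?_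
  by_cases h : y ∈ p '' (Finset.range n : Set ℕ)
  · exact Or.inr h
  · refine Or.inl ?_
    have h1 : ∑ j ∈ Finset.range n, a j * (y - p j)⁻¹ = 0 := hy
    have h2 : N.eval y = (∑ j ∈ Finset.range n, a j * (y - p j)⁻¹) *
        ∏ i ∈ Finset.range n, (y - p i) := by
      rw [hev, Finset.sum_mul]
      refine Finset.sum_congr rfl fun j hj => ?_
      have h3 : y - p j ≠ 0 := sub_ne_zero.mpr fun h4 => h ⟨j, hj, h4.symm⟩
      rw [← Finset.mul_prod_erase _ _ hj]
      field_simp
    show N.eval y = 0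
    rw [h2, h1, zero_mul]

theorem par_trans (he : 1 ≤ e) {c z : ℂ} {n : ℕ} (hn : 0 < n)
    (hper : Function.minimalPeriod (fq e c) z = n) (h1 : Pd e c z n = 1) :
    deriv (fun c' => (fq e c')^[n] z) c ≠ 0 := by
  have hfix : (fq e c)^[n] z = z := hper ▸ Function.iterate_minimalPeriod
  have h0 : ∀ j < n, (fq e c)^[j] z ≠ 0 := by
    intro j hj h
    obtain ⟨m, rfl⟩ : ∃ m, n = m + (j + 1) := ⟨n - (j + 1), by omega⟩
    rw [Pd_add, Pd_succ', h, zero_pow (by omega)] at h1
    simp at h1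
  rw [(pt_deriv h0).2.deriv, h1, one_mul]
  intro hS
  set a : ℕ → ℂ := fun j => (Pd e c z j)⁻¹ with ha
  set p : ℕ → ℂ := fun j => (fq e c)^[j] z with hp
  set H : ℂ → ℂ := fun y => ∑ j ∈ Finset.range n, a j * (y - p j)⁻¹ with hH
  have hHm : Measurable H := by
    rw [hH]
    fun_prop
  have hid : ∀ y ∉ insert c (range p), H y = Tr e c H y + (fun _ => (0 : ℂ)) y := by
    intro y hy
    rw [mem_insert_iff, not_or] at hy
    have h2 : ∀ j ∈ Finset.range n, a j * Tr e c (fun w => (w - p j)⁻¹) y =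
        a (j + 1) * (y - p (j + 1))⁻¹ - a (j + 1) * (y - c)⁻¹ := fun j hj => by
      have h3 : p (j + 1) = fq e c (p j) := Function.iterate_succ_apply' _ _ _
      have h4 : a (j + 1) = a j * ((e + 1 : ℕ) * p j ^ e)⁻¹ := by
        simp only [ha, hp]
        rw [Pd_succ', mul_inv, mul_comm]
      rw [Tr_pole (c := c) he (h0 j (Finset.mem_range.mp hj)) hy.1
        (by rw [← h3]; exact fun h => hy.2 ⟨_, h.symm⟩), h4, h3]
      ring
    have h5 := Finset.sum_range_succ' (fun j => a j * (y - p j)⁻¹) n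
    have h6 : a n = a 0 := by simp only [ha, h1, Pd_zero]
    have h7 : p n = p 0 := hfix
    rw [Finset.sum_range_succ, h6, h7, add_left_inj] at h5
    have h8 : ∑ j ∈ Finset.range n, a (j + 1) = 0 := hS
    simp only [hH]
    rw [Tr_sum, Finset.sum_congr rfl h2, Finset.sum_sub_distrib, ← Finset.sum_mul, h8, ← h5]
    ring
  set A := 33 + ‖c‖ with hA
  have hA0 : 33 ≤ A := by linarith [norm_nonneg c]
  set s := √(2 * A) with hs
  have hs4 : s < A / 4 := (Real.sqrt_lt' (by linarith)).mpr (by nlinarith)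
  have hT := transfer hHm (((countable_range p).insert c).measure_zero volume) hid
    (X := ball 0 (A / 2)) measurableSet_ball
  have hpre : fq e c ⁻¹' ball 0 (A / 2) ⊆ closedBall 0 s := fun y hy => by
    rw [mem_preimage, mem_ball_zero_iff] at hy
    rw [mem_closedBall_zero_iff]
    exact M22.cl_back (c := c) he (by linarith) (by linarith)
  have hfin : LI (closedBall 0 s) (fun y => ‖H y‖) ≠ ∞ := by
    refine ne_top_of_le_ne_top ?_ ((LI_mono_set (closedBall_subset_ball (lt_add_one s)) _).trans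
      ((LI_mono (v := fun y => ∑ j ∈ Finset.range n,
      ‖a j‖ * gk (p j) y) measurableSet_ball fun y _ => ?_).trans
      (LI_sum_le _ _ fun j _ => by fun_prop)))
    · refine ENNReal.sum_ne_top.mpr fun j _ => ?_
      rw [LI_const_mul _ (norm_nonneg _)]
      exact ENNReal.mul_ne_top ENNReal.ofReal_ne_top
        (ne_top_of_le_ne_top ENNReal.ofReal_ne_top (LI_gk_le _ _ _))
    · refine (norm_sum_le _ _).trans_eq (Finset.sum_congr rfl fun j _ => ?_)
      rw [norm_mul, norm_inv (y - p j), gk]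
  set D : Set ℂ := ball 0 (A / 2) \ closedBall 0 s with hD
  have hDo : IsOpen D := isOpen_ball.sdiff isClosed_closedBall
  have hsplit : LI (closedBall 0 s) (fun y => ‖H y‖) + LI D (fun y => ‖H y‖) ≤
      LI (ball 0 (A / 2)) (fun y => ‖H y‖) := by
    unfold LI
    rw [← lintegral_union hDo.measurableSet disjoint_sdiff_right]
    exact lintegral_mono_set (union_subset (closedBall_subset_ball (by linarith)) fun z hz => hz.1)
  have hE : LI (ball (0 : ℂ) (A / 2)) (fun y => ‖(fun _ => (0 : ℂ)) y‖) ≤ 0 := by simp [LI]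
  have h5 := (ENNReal.add_le_add_iff_left hfin).mp (hsplit.trans
    (le_self_add.trans (hT.trans (add_le_add (LI_mono_set hpre _) hE))))
  have h6 : ∀ᵐ y, y ∈ D → ENNReal.ofReal ‖H y‖ = 0 :=
    (ae_restrict_iff' hDo.measurableSet).mp
      ((lintegral_eq_zero_iff hHm.norm.ennreal_ofReal).mp (le_zero_iff.mp h5))
  have hfinz : {y | H y = 0}.Finite := by
    refine pt_null hn (by simp [ha, Pd_zero]) fun i hi hi0 h => hi0 ?_
    exact (Function.iterate_injOn_Iio_minimalPeriod (f := fq e c) (x := z)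
      (show 0 ∈ Iio _ by rw [hper]; exact hn) (show i ∈ Iio _ by rw [hper]; exact hi) h).symm
  have h7 : ∀ᵐ y, y ∉ D := by
    filter_upwards [h6, hfinz.countable.ae_notMem volume] with y hy hy' hyD
    have := hy hyD
    rw [ENNReal.ofReal_eq_zero] at this
    exact hy' (norm_le_zero_iff.mp this)
  have h8 : ((3 * A / 8 : ℝ) : ℂ) ∈ D := by
    have : ‖((3 * A / 8 : ℝ) : ℂ)‖ = 3 * A / 8 := by
      rw [Complex.norm_real, Real.norm_of_nonneg (by linarith)]
    refine ⟨?_, ?_⟩
    · rw [mem_ball_zero_iff, this]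
      linarith
    · rw [mem_closedBall_zero_iff, this]
      linarith
  exact (hDo.measure_pos volume ⟨_, h8⟩).ne' (measure_eq_zero_iff_ae_notMem.mpr h7)

end Pool.Agent.MP_28f8a1_an.Mlc
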