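import Pool.Agent.MP_28f8a1_an.Mlc.LocA
import Pool.Agent.MP_28f8a1_an.Mlc.Esc

/-! Near a root the multiplier determines the parameter. -/

set_option autoImplicit false

namespace Pool.Agent.MP_28f8a1_an.Mlc

open MeasureTheory Metric Set Real Filter Topology Pool.Agent.MP_28f8a1_an.H42
open Complex (I)

variable {e : ℕ}

theorem att (he : 1 ≤ e) {c z z' : ℂ} {n : ℕ} (hn : 0 < n) (hz : (fq e c)^[n] z = z)
    (hz' : (fq e c)^[n] z' = z') (h : ‖Pd e c z n‖ < 1) (h' : ‖Pd e c z' n‖ < 1) :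
    Pd e c z n = Pd e c z' n := by
  have key : ∀ z : ℂ, (fq e c)^[n] z = z → ‖Pd e c z n‖ < 1 → ∃ y : ℂ, Pd e c y n = Pd e c z n ∧
      Tendsto (fun k : ℕ => (fq e c)^[n * k] 0) atTop (𝓝 y) := fun z hz h => by
    have hp : Function.IsPeriodicPt (fq e c) n z := hz
    obtain ⟨b, hb⟩ := hp.minimalPeriod_dvd
    have hm := hp.minimalPeriod_pos hn
    have hf : (fq e c)^[Function.minimalPeriod (fq e c) z] z = z := Function.iterate_minimalPeriod
    generalize hmm : Function.minimalPeriod (fq e c) z = m at hb hm hf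
    have hb0 : b ≠ 0 := by
      rintro rfl
      omega
    have h1 : Pd e c z n = Pd e c z m ^ b := by rw [hb, t57_pow hf]
    have h2 : ‖Pd e c z m‖ < 1 := by
      rw [h1, norm_pow] at h
      exact lt_of_pow_lt_pow_left₀ b zero_le_one (by rwa [one_pow])
    obtain ⟨y, y1, y2, y3⟩ := fatou' he hm hmm h2
    have hy : (fq e c)^[m] y = y := y1 ▸ Function.iterate_minimalPeriod
    refine ⟨y, by rw [h1, hb, t57_pow hy, y2], ?_⟩
    have h3 : Tendsto (fun k : ℕ => b * k) atTop atTop :=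
      tendsto_id.const_mul_atTop' (Nat.pos_of_ne_zero hb0)
    refine (y3.comp h3).congr fun k => ?_
    simp only [Function.comp, hb, mul_assoc]
  obtain ⟨y, y1, y2⟩ := key z hz h
  obtain ⟨y', y1', y2'⟩ := key z' hz' h'
  rw [← y1, ← y1', tendsto_nhds_unique y2 y2']

theorem li_fin (he : 1 ≤ e) {n : ℕ} (hn : 0 < n) {c z : ℂ} {α : ℂ → ℂ} (hα : AnalyticAt ℂ α c)
    (hz : α c = z) {R : ℂ × ℂ → ℂ} (hR : ContDiffAt ℂ 1 R (0, c)) (h0 : R (0, c) = 0)
    (hc : deriv (fun c' => R (0, c')) c ≠ 0) {i : ℕ} (hi : i ≤ 1) (h1 : mu e n (c, z) = 1)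
    (hfix : ∀ᶠ p : ℂ × ℂ in 𝓝 (0, c), R p = 0 → (fq e p.2)^[n] (α p.2 + p.1) = α p.2 + p.1 ∧
      mu e n (p.2, α p.2 + p.1) - 1 = p.1 ^ i * deriv (fun v => R (v, p.2)) p.1)
    (hper : ∀ᶠ y : ℂ × ℂ in 𝓝 (c, z), y ∈ Per e n → R (y.2 - α y.1, y.1) = 0) :
    ∀ᶠ p : (ℂ × ℂ) × ℂ × ℂ in 𝓝 ((c, z), (c, z)), p.1 ∈ Per e n → p.2 ∈ Per e n →
      mu e n p.1 = mu e n p.2 → p.1.1 = p.2.1 := by
  obtain ⟨g, A, hg, hg0, hA, hA0, hiff, hrel⟩ := loc_ift hR h0 hc
  have ht : Tendsto (fun w => (w, g w)) (𝓝 0) (𝓝 ((0 : ℂ), c)) :=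
    tendsto_id.prodMk_nhds (hg0 ▸ hg.continuousAt.tendsto)
  have hw : ∀ᶠ w in 𝓝 (0 : ℂ), (fq e (g w))^[n] (α (g w) + w) = α (g w) + w ∧
      mu e n (g w, α (g w) + w) - 1 = w ^ i * deriv (fun v => R (v, g w)) w := by
    filter_upwards [ht.eventually hiff, ht.eventually hfix] with w a b
    exact b (a.2 rfl)
  have hαg : AnalyticAt ℂ (fun w => α (g w)) 0 := AnalyticAt.comp_of_eq hα hg hg0
  have hρ : AnalyticAt ℂ (fun w => mu e n (g w, α (g w) + w)) 0 :=
    li_ana ((mu_smooth e n).contDiffAt.comp 0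
      (hg.contDiffAt.prodMk (hαg.contDiffAt.add contDiffAt_id)))
  have f1 : Tendsto (fun p : ℂ × ℂ => p.1) (𝓝 (0, 0)) (𝓝 0) := continuous_fst.tendsto _
  have f2 : Tendsto (fun p : ℂ × ℂ => p.2) (𝓝 (0, 0)) (𝓝 0) := continuous_snd.tendsto _
  have hm := loc_model hg hρ (by simp only [hg0, hz, add_zero, h1]) hA hA0 (fun h => ?_) hi
    (by
      filter_upwards [hw, hrel] with w a b
      rw [a.2, b]
      ring)
    (by
      filter_upwards [f1.eventually hw, f2.eventually hw] with p a b h h2 h3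
      simp only [mu] at h2 h3 ⊢
      have h4 := b.1
      rw [← h] at h4 h3 ⊢
      exact att he hn a.1 h4 h2 h3)
  · have hs : Tendsto (fun y : ℂ × ℂ => y.2 - α y.1) (𝓝 (c, z)) (𝓝 0) := by
      have := (continuous_snd.tendsto (c, z)).sub
        (hα.continuousAt.tendsto.comp (continuous_fst.tendsto (c, z)))
      simpa [hz] using this
    have hs' : Tendsto (fun y : ℂ × ℂ => (y.2 - α y.1, y.1)) (𝓝 (c, z)) (𝓝 (0, c)) :=
      hs.prodMk_nhds (continuous_fst.tendsto (c, z))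
    have hy : ∀ᶠ y : ℂ × ℂ in 𝓝 (c, z), y ∈ Per e n → g (y.2 - α y.1) = y.1 := by
      filter_upwards [hper, hs'.eventually hiff] with y a b h
      exact b.1 (a h)
    have g1 : Tendsto (fun p : (ℂ × ℂ) × ℂ × ℂ => p.1) (𝓝 ((c, z), (c, z))) (𝓝 (c, z)) :=
      continuous_fst.tendsto _
    have g2 : Tendsto (fun p : (ℂ × ℂ) × ℂ × ℂ => p.2) (𝓝 ((c, z), (c, z))) (𝓝 (c, z)) :=
      continuous_snd.tendsto _
    filter_upwards [g1.eventually hy, g2.eventually hy,
      ((hs.comp g1).prodMk_nhds (hs.comp g2)).eventually hm] with p a b d h2 h3 h4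
    simp only [Function.comp, a h2, b h3, add_sub_cancel] at d
    exact d h4
  · have h2 : ∀ᶠ w in 𝓝 (0 : ℂ), z + w ∈ {w | (fq e c)^[n] w = w} := by
      filter_upwards [hw, h] with w a b
      have h3 := a.1
      rwa [b, hg0, hz] at h3
    have h3 : ((fun w => z + w) ⁻¹' {w | (fq e c)^[n] w = w}).Finite :=
      (t1323_roots he hn c).preimage (add_right_injective z).injOn
    exact infinite_of_mem_nhds (0 : ℂ) h2 h3

theorem li_none {m b : ℕ} (hm : 0 < m) (hb : 2 ≤ b) {c z : ℂ} (hz : (fq e c)^[m] z = z)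
    (h1 : Pd e c z m = 1) : ∀ᶠ y : ℂ × ℂ in 𝓝 (c, z), y ∉ Per e (m * b) := by
  choose Q q1 q2 q3 using fun j : ℕ => t57_div (e := e) (m * j)
  have hS : Continuous fun y : ℂ × ℂ =>
      ∑ j ∈ Finset.range b, Q j (y.1, y.2, (fq e y.1)^[m] y.2) :=
    continuous_finsetSum _ fun j _ => (q1 j).comp
      (continuous_fst.prodMk (continuous_snd.prodMk (t57_cont m)))
  have h2 : ∑ j ∈ Finset.range b, Q j (c, z, (fq e c)^[m] z) ≠ 0 := by
    simp only [hz, q3, t57_pow hz, h1, one_pow, Finset.sum_const, Finset.card_range, nsmul_eq_mul,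
      mul_one]
    exact Nat.cast_ne_zero.2 (by omega)
  filter_upwards [(hS.continuousAt (x := (c, z))).eventually_ne h2] with y hy hp
  have h3 : ∀ k : ℕ, (fq e y.1)^[m * k] y.2 - y.2 =
      (∑ j ∈ Finset.range k, Q j (y.1, y.2, (fq e y.1)^[m] y.2)) * ((fq e y.1)^[m] y.2 - y.2) := by
    intro k
    induction k with
    | zero => simp
    | succ k ih =>
      rw [Finset.sum_range_succ, add_mul (∑ j ∈ Finset.range k, _), ← ih, ← q2, Nat.mul_succ,
        Function.iterate_add_apply]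
      ring
  have h4 := h3 b
  rw [Per.fix hp, sub_self] at h4
  have h5 : Function.IsPeriodicPt (fq e y.1) m y.2 :=
    sub_eq_zero.1 ((mul_eq_zero.1 h4.symm).resolve_left hy)
  have h6 := h5.minimalPeriod_le hm
  rw [show _ = m * b from hp] at h6
  nlinarith

theorem li_trans (he : 1 ≤ e) {c d : ℂ} {m : ℕ} (hm : 0 < m) {α : ℂ → ℂ}
    (hα : HasStrictDerivAt α d c) (hper : Function.minimalPeriod (fq e c) (α c) = m)
    (hfix : ∀ᶠ c' in 𝓝 c, (fq e c')^[m] (α c') = α c') (h0 : ‖Pd e c (α c) m‖ = 1)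
    (h1 : Pd e c (α c) m ≠ 1) :
    ∃ s : ℂ, s ≠ 0 ∧ HasDerivAt (fun c' => Pd e c' (α c') m) s c := by
  have h2 : Pd e c (α c) m ≠ 0 := norm_ne_zero_iff.1 (by rw [h0]; exact one_ne_zero)
  obtain ⟨Y, t, hY, ht, hYS⟩ := t1055_cyc he hm hper h2 h1
  have hne : ∀ j < m, (fq e c)^[j] (α c) ≠ 0 := fun j hj => (t1055_ne0 he h2 hj).1
  have hd : t1055_sp e c (α c) d m = d :=
    ((t1055_orbit_deriv hα m).hasDerivAt.congr_of_eventuallyEq
      (hfix.mono fun _ h => h.symm)).unique hα.hasDerivAt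
  have htel := t1055_tele (e := e) (c := c) (z := α c) (t := t) (d := d) m hne
  rw [ht, hd, ← hYS] at htel
  have hμ := t1055_mult_deriv he hα m hne
  rw [show ∑ j ∈ Finset.range m, e * t1055_sp e c (α c) d j / (fq e c)^[j] (α c) = Y.S by
    linear_combination htel] at hμ
  obtain ⟨δ, hδ, hc⟩ := core he (M := 1) zero_le_one
  have h3 := hc Y (by rw [hY, h0]; norm_num) (hY ▸ h1) (by rw [hY, h0]; linarith)
  have h4 : 0 < 1 * ‖Y.ρ - 1‖ := by
    rw [one_mul, norm_pos_iff, sub_ne_zero, hY]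
    exact h1
  exact ⟨_, mul_ne_zero h2 (norm_pos_iff.1 ((lt_min hδ h4).trans_le h3)), hμ.hasDerivAt⟩

theorem loc_inj (he : 1 ≤ e) {n : ℕ} (hn : 0 < n) {x : ℂ × ℂ} (hx : (fq e x.1)^[n] x.2 = x.2)
    (h1 : mu e n x = 1) : ∀ᶠ p : (ℂ × ℂ) × ℂ × ℂ in 𝓝 (x, x), p.1 ∈ Per e n → p.2 ∈ Per e n →
      mu e n p.1 = mu e n p.2 → p.1.1 = p.2.1 := by
  obtain ⟨c, z⟩ := x
  have hp : Function.IsPeriodicPt (fq e c) n z := hx
  obtain ⟨b, hb⟩ := hp.minimalPeriod_dvd
  have hm := hp.minimalPeriod_pos hn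
  have hf : (fq e c)^[Function.minimalPeriod (fq e c) z] z = z := Function.iterate_minimalPeriod
  generalize hmm : Function.minimalPeriod (fq e c) z = m at hb hm hf
  have h1' : Pd e c z n = 1 := h1
  rcases Nat.lt_or_ge b 2 with h2 | h2
  · obtain rfl : n = m := by
      interval_cases b <;> omega
    have hR : ContDiff ℂ 1 fun p : ℂ × ℂ => (fq e p.2)^[n] (z + p.1) - (z + p.1) :=
      ((t1055_smooth n).comp (contDiff_snd.prodMk (contDiff_const.add contDiff_fst))).sub
        (contDiff_const.add contDiff_fst)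
    refine li_fin he hn (α := fun _ => z) analyticAt_const rfl hR.contDiffAt (by simp [hf]) ?_
      (Nat.zero_le 1) h1 (Eventually.of_forall fun p h => ⟨sub_eq_zero.1 h, ?_⟩)
      (Eventually.of_forall fun y hy => ?_)
    · simp only [add_zero, deriv_sub_const]
      exact par_trans he hn hmm h1'
    · have h3 := (hasDerivAt_id p.1).const_add z
      have h4 := (((iter_deriv (e := e) (c := p.2) n (z + p.1)).comp p.1 h3).sub h3).deriv
      rw [pow_zero, one_mul]
      simp only [mul_one] at h4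
      exact h4.symm
    · simp only [add_sub_cancel, Per.fix hy, sub_self]
  subst hb
  have hl : Pd e c z m ^ b = 1 := by rw [← h1', t57_pow hf]
  by_cases h3 : Pd e c z m = 1
  · filter_upwards [(continuous_fst.tendsto ((c, z), (c, z))).eventually (li_none hm h2 hf h3)]
      with p a h
    exact absurd h a
  have hR0 : ContDiff ℂ 1 fun p : ℂ × ℂ => (fq e (c + p.1))^[m] p.2 - p.2 :=
    ((t1055_smooth m).comp ((contDiff_const.add contDiff_fst).prodMk contDiff_snd)).sub contDiff_snd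
  obtain ⟨g, -, hg, hg0, -, -, hiff, -⟩ := loc_ift (c := z) hR0.contDiffAt (by simp [hf]) (by
    simp only [add_zero]
    have h4 := ((iter_deriv (e := e) (c := c) m z).sub (hasDerivAt_id z)).deriv
    exact fun h => sub_ne_zero.2 h3 (h4.symm.trans h))
  set α : ℂ → ℂ := fun c' => g (c' - c) with hαd
  have hα : AnalyticAt ℂ α c :=
    AnalyticAt.comp_of_eq hg (analyticAt_id.sub analyticAt_const) (by simp)
  have hαc : α c = z := by simp [hαd, hg0]
  have hfix : ∀ᶠ c' in 𝓝 c, (fq e c')^[m] (α c') = α c' := by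
    have h4 : Tendsto (fun c' => (c' - c, α c')) (𝓝 c) (𝓝 ((0 : ℂ), z)) := by
      refine Tendsto.prodMk_nhds ?_ (hαc ▸ hα.continuousAt.tendsto)
      have : Continuous fun c' : ℂ => c' - c := by fun_prop
      simpa using this.tendsto c
    filter_upwards [h4.eventually hiff] with c' h
    have h5 := h.2 rfl
    simp only [add_sub_cancel] at h5
    exact sub_eq_zero.1 h5
  have hfix' : ∀ c', (fq e c')^[m] (α c') = α c' → (fq e c')^[m * b] (α c') = α c' := fun c' h => by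
    rw [Function.iterate_mul, Function.iterate_fixed h]
  clear_value α
  subst hαc
  have hn1 : ‖Pd e c (α c) m‖ = 1 := Complex.norm_eq_one_of_pow_eq_one hl (by omega)
  obtain ⟨s, hs0, hs⟩ := li_trans he hm hα.hasStrictDerivAt hmm hfix hn1 h3
  obtain ⟨Q, q1, q2, q3⟩ := div_smooth e (m * b)
  have hαp : ContDiffAt ℂ 1 (fun p : ℂ × ℂ => α p.2) (0, c) :=
    (hα.contDiffAt (n := 1)).comp (0, c) contDiffAt_snd
  have hR : ContDiffAt ℂ 1 (fun p : ℂ × ℂ => Q (p.2, α p.2, α p.2 + p.1) - 1) (0, c) :=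
    (q1.contDiffAt.comp _ (contDiffAt_snd.prodMk (hαp.prodMk (hαp.add contDiffAt_fst)))).sub
      contDiffAt_const
  refine li_fin he hn hα rfl hR (by simp only [add_zero, q3, h1', sub_self]) ?_ le_rfl h1 ?_ ?_
  · have h4 : (fun c' => Q (c', α c', α c' + 0) - 1) =ᶠ[𝓝 c] fun c' => Pd e c' (α c') m ^ b - 1 := by
      filter_upwards [hfix] with c' h
      rw [add_zero, q3, t57_pow h]
    have h5 := (((hs.fun_pow b).sub_const 1).congr_of_eventuallyEq h4).deriv
    have h6 : Pd e c (α c) m ≠ 0 := norm_ne_zero_iff.1 (by rw [hn1]; exact one_ne_zero)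
    exact fun h => mul_ne_zero (mul_ne_zero (Nat.cast_ne_zero.2 (by omega)) (pow_ne_zero _ h6)) hs0
      (h5.symm.trans h)
  · filter_upwards [(continuous_snd.tendsto ((0 : ℂ), c)).eventually hfix] with p a h
    have h4 := hfix' _ a
    have h5 : Q (p.2, α p.2, α p.2 + p.1) = 1 := sub_eq_zero.1 h
    refine ⟨?_, ?_⟩
    · have h6 := q2 p.2 (α p.2) (α p.2 + p.1)
      rw [h4, h5] at h6
      linear_combination h6
    · have h6 : DifferentiableAt ℂ (fun v => Q (p.2, α p.2, α p.2 + v)) p.1 :=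
        (q1.differentiable one_ne_zero _).comp p.1 (by fun_prop)
      have h7 := (hasDerivAt_id p.1).const_add (α p.2)
      have h8 := ((iter_deriv (e := e) (c := p.2) (m * b) (α p.2 + p.1)).comp p.1 h7).sub_const
        (α p.2)
      have h9 := h6.hasDerivAt.mul (hasDerivAt_id p.1)
      have h10 := h8.unique (h9.congr_of_eventuallyEq (Eventually.of_forall fun v => by
        have := q2 p.2 (α p.2) (α p.2 + v)
        rw [h4, add_sub_cancel_left] at this
        exact this))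
      simp only [deriv_sub_const, mu, pow_one]
      simp only [id, h5] at h10
      linear_combination h10
  · filter_upwards [(continuous_fst.tendsto (c, α c)).eventually hfix] with y a hy
    have h4 := q2 y.1 (α y.1) y.2
    rw [hfix' _ a, Per.fix hy] at h4
    have h5 : y.2 - α y.1 ≠ 0 := fun h => by
      have h6 : Function.IsPeriodicPt (fq e y.1) m y.2 := by
        rw [sub_eq_zero.1 h]
        exact a
      have h7 := h6.minimalPeriod_le hm
      rw [show _ = m * b from hy] at h7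
      nlinarith
    simp only [add_sub_cancel]
    exact sub_eq_zero.2 (mul_right_cancel₀ h5 (by rw [← h4, one_mul]))

end Pool.Agent.MP_28f8a1_an.Mlc
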