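import Mathlib

/-! Sections of a covering of a punctured disc, their limits at the puncture, and a Lipschitz
bound for the first coordinate in terms of the multiplier. -/

set_option autoImplicit false

namespace Pool.Agent.H22M.Root

open Metric Set Filter Topology

/-- `ψ` inverts the restriction of `μ` to `E` near `x`. -/
def Inv (E : Set (ℂ × ℂ)) (μ : ℂ × ℂ → ℂ) (x : ℂ × ℂ) (ψ : ℂ → ℂ × ℂ) : Prop :=
  ContinuousAt ψ (μ x) ∧ (∀ᶠ w in 𝓝 (μ x), ψ w ∈ E ∧ μ (ψ w) = w) ∧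
    ∀ᶠ y in 𝓝 x, y ∈ E → ψ (μ y) = y

/-- A continuous section of the restriction of `μ` to `E` over `V`. -/
def Sec (E : Set (ℂ × ℂ)) (μ : ℂ × ℂ → ℂ) (V : Set ℂ) (σ : ℂ → ℂ × ℂ) : Prop :=
  ContinuousOn σ V ∧ ∀ w ∈ V, σ w ∈ E ∧ μ (σ w) = w

/-- The half disc of radius `r` at `1` in the direction `u`. -/
def Hd (r : ℝ) (u : ℂ) : Set ℂ := {w | ‖w - 1‖ < r ∧ 0 < ((w - 1) * starRingEnd ℂ u).re}

theorem Hd_open (r : ℝ) (u : ℂ) : IsOpen (Hd r u) :=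
  (isOpen_lt (continuous_id.sub continuous_const).norm continuous_const).inter
    (isOpen_lt continuous_const
      (Complex.continuous_re.comp ((continuous_id.sub continuous_const).mul continuous_const)))

theorem Hd_convex (r : ℝ) (u : ℂ) : Convex ℝ (Hd r u) := by
  intro x hx y hy a b ha hb hab
  refine ⟨mem_ball_iff_norm.1 (convex_ball (1 : ℂ) r (mem_ball_iff_norm.2 hx.1)
    (mem_ball_iff_norm.2 hy.1) ha hb hab), ?_⟩
  have e : (a • x + b • y - 1) * starRingEnd ℂ u =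
      a • ((x - 1) * starRingEnd ℂ u) + b • ((y - 1) * starRingEnd ℂ u) := by
    have h1 : (a : ℂ) + b = 1 := by exact_mod_cast hab
    simp only [Complex.real_smul]
    linear_combination (starRingEnd ℂ u) * h1
  rw [e]
  exact convex_halfSpace_re_gt 0 hx.2 hy.2 ha hb hab

theorem Hd_self {r : ℝ} {w : ℂ} (h : ‖w - 1‖ < r) (h1 : w ≠ 1) : w ∈ Hd r (w - 1) := by
  refine ⟨h, ?_⟩
  rw [Complex.mul_conj, Complex.ofReal_re]
  exact Complex.normSq_pos.2 (sub_ne_zero.2 h1)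

theorem Hd_seg {r : ℝ} {u v : ℂ} (h : 1 + v ∈ Hd r u) {t : ℝ} (ht : t ∈ Ioc (0 : ℝ) 1) :
    1 + t * v ∈ Hd r u := by
  obtain ⟨h1, h2⟩ := h
  rw [add_sub_cancel_left] at h1 h2
  constructor
  · rw [add_sub_cancel_left, norm_mul, Complex.norm_real, Real.norm_of_nonneg ht.1.le]
    exact (mul_le_of_le_one_left (norm_nonneg _) ht.2).trans_lt h1
  · rw [add_sub_cancel_left, mul_assoc, Complex.re_ofReal_mul]
    exact mul_pos ht.1 h2

theorem Hd_ne {r : ℝ} {u w : ℂ} (h : w ∈ Hd r u) : w ≠ 1 := by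
  rintro rfl
  simpa using h.2

theorem inv_nhds {E : Set (ℂ × ℂ)} {μ : ℂ × ℂ → ℂ} {y : E} {ψ : ℂ → ℂ × ℂ} (h : Inv E μ y ψ) :
    𝓝 (μ y) ≤ map (fun z : E => μ z) (𝓝 y) := by
  refine le_map fun S hS => ?_
  obtain ⟨T, hT, hTS⟩ := (mem_nhds_subtype E y S).1 hS
  have h0 : ψ (μ y) = y := h.2.2.self_of_nhds y.2
  have h1 : ∀ᶠ w in 𝓝 (μ y), ψ w ∈ T := h.1.eventually (by rw [h0]; exact hT)
  filter_upwards [h1, h.2.1] with w hw hw'
  exact ⟨⟨ψ w, hw'.1⟩, hTS hw, hw'.2⟩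

theorem sec_exists {E : Set (ℂ × ℂ)} (hE : IsCompact E) {μ : ℂ × ℂ → ℂ} (hμ : Continuous μ)
    {V : Set ℂ} (hV : IsOpen V) (hc : Convex ℝ V)
    (h : ∀ x ∈ E, μ x ∈ V → ∃ ψ, Inv E μ x ψ) {x : ℂ × ℂ} (hx : x ∈ E) (hxV : μ x ∈ V) :
    ∃ σ, Sec E μ V σ ∧ σ (μ x) = x := by
  classical
  have : CompactSpace E := isCompact_iff_compactSpace.1 hE
  have hp : Continuous fun z : E => μ z := hμ.comp continuous_subtype_val
  have hl : IsLocalHomeomorphOn (fun z : E => μ z) ((fun z : E => μ z) ⁻¹' V) := by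
    refine (isLocalHomeomorphOn_iff_isOpenEmbedding_restrict _).2 fun y hy => ?_
    obtain ⟨ψ, hψ⟩ := h y y.2 hy
    have h1 : ∀ᶠ z : E in 𝓝 y, μ z ∈ V ∧ ψ (μ z) = z := by
      filter_upwards [hp.continuousAt.eventually (hV.mem_nhds hy),
        continuous_subtype_val.continuousAt.eventually hψ.2.2] with z h2 h3
      exact ⟨h2, h3 z.2⟩
    obtain ⟨U, hU, hUo, hyU⟩ := _root_.eventually_nhds_iff.1 h1
    refine ⟨U, hUo.mem_nhds hyU, .of_continuous_injective_isOpenMap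
      (hp.comp continuous_subtype_val) (fun a b hab => ?_) (.of_nhds_le fun z => ?_)⟩
    · have h2 : μ a = μ b := hab
      exact Subtype.ext (Subtype.ext (by rw [← (hU a a.2).2, h2, (hU b b.2).2]))
    · obtain ⟨φ, hφ⟩ := h z z.1.2 (hU z z.2).1
      refine (inv_nhds hφ).trans ?_
      rw [← hUo.isOpenEmbedding_subtypeVal.map_nhds_eq, map_map]
      exact le_rfl
  have := hc.contractibleSpace ⟨_, hxV⟩
  have := hV.locallyPathConnectedSpace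
  obtain ⟨F, ⟨h1, h2⟩, -⟩ := (IsCoveringMapOn.of_isLocalHomeomorphOn hp hl
    ).existsUnique_continuousMap_lifts (A := V) ⟨Subtype.val, continuous_subtype_val⟩
      (a₀ := ⟨μ x, hxV⟩) (e₀ := ⟨x, hx⟩) rfl fun a => a.2
  refine ⟨fun w => if hw : w ∈ V then (F ⟨w, hw⟩).1 else x, ⟨?_, fun w hw => ?_⟩, ?_⟩
  · rw [continuousOn_iff_continuous_domRestrict]
    refine (continuous_subtype_val.comp F.continuous).congr fun w => ?_
    change (F w).1 = if hw : w.1 ∈ V then (F ⟨w.1, hw⟩).1 else x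
    rw [dif_pos w.2]
  · simp only [dif_pos hw]
    exact ⟨(F ⟨w, hw⟩).2, congrFun h2 ⟨w, hw⟩⟩
  · simp only [dif_pos hxV, h1]

/-- a locally constant property is constant on a connected set -/
theorem loc_const {α : Type*} [TopologicalSpace α] {W : Set α} (hW : IsPreconnected W)
    {Q : α → Prop} (h : ∀ w ∈ W, ∀ᶠ w' in 𝓝[W] w, (Q w ↔ Q w')) {w w' : α} (hw : w ∈ W)
    (hw' : w' ∈ W) (hQ : Q w) : Q w' :=
  (hW.induction₂ (fun a b => Q a ↔ Q b) h (fun _ _ _ _ _ _ h1 h2 => h1.trans h2)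
    (fun _ _ _ _ h1 => h1.symm) hw hw').1 hQ

section
variable {E : Set (ℂ × ℂ)} {μ : ℂ × ℂ → ℂ} {r : ℝ}

theorem sec_mono {V W : Set ℂ} {σ : ℂ → ℂ × ℂ} (h : Sec E μ V σ) (hW : W ⊆ V) : Sec E μ W σ :=
  ⟨h.1.mono hW, fun w hw => h.2 w (hW hw)⟩

/-- near a point a section is the local inverse -/
theorem sec_loc {W : Set ℂ} {σ ψ : ℂ → ℂ × ℂ} (h : Sec E μ W σ) {w : ℂ} (hw : w ∈ W)
    (hψ : Inv E μ (σ w) ψ) : ∀ᶠ w' in 𝓝[W] w, σ w' = ψ w' := by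
  filter_upwards [(h.1 w hw).eventually hψ.2.2, self_mem_nhdsWithin] with w' h1 h2
  rw [← h1 (h.2 w' h2).1, (h.2 w' h2).2]

theorem sec_uniq {W : Set ℂ} (hW : IsPreconnected W)
    (h : ∀ x ∈ E, μ x ∈ W → ∃ ψ, Inv E μ x ψ) {σ σ' : ℂ → ℂ × ℂ} (h1 : Sec E μ W σ)
    (h2 : Sec E μ W σ') {w w' : ℂ} (hw : w ∈ W) (hw' : w' ∈ W) (he : σ w = σ' w) :
    σ w' = σ' w' := by
  refine loc_const hW (Q := fun w => σ w = σ' w) (fun a ha => ?_) hw hw' he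
  by_cases hq : σ a = σ' a
  · obtain ⟨ψ, hψ⟩ := h _ (h1.2 a ha).1 (by rw [(h1.2 a ha).2]; exact ha)
    filter_upwards [sec_loc h1 ha hψ, sec_loc h2 ha (hq ▸ hψ)] with b h3 h4
    exact iff_of_true hq (h3.trans h4.symm)
  · filter_upwards [((h1.1 a ha).sub (h2.1 a ha)).eventually_ne (sub_ne_zero.2 hq)] with b h3
    exact iff_of_false hq (sub_ne_zero.1 h3)

theorem gap (hE : IsCompact E) (hμ : Continuous μ) {ε : ℝ} (hε : 0 < ε) :
    ∃ m > 0, ∀ x ∈ E, ‖μ x - 1‖ < m → ∃ z ∈ E, μ z = 1 ∧ dist x z < ε := by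
  have hK : IsCompact (E \ ⋃ z ∈ {x ∈ E | μ x = 1}, ball z ε) :=
    hE.diff (isOpen_biUnion fun _ _ => isOpen_ball)
  obtain ⟨m, hm, h⟩ := hK.exists_forall_le' (f := fun x => ‖μ x - 1‖) (a := 0)
    (hμ.sub continuous_const).norm.continuousOn fun x hx => norm_pos_iff.2 fun h0 =>
      hx.2 (mem_biUnion (show x ∈ {x ∈ E | μ x = 1} from ⟨hx.1, sub_eq_zero.1 h0⟩)
        (mem_ball_self hε))
  refine ⟨m, hm, fun x hx hxm => ?_⟩
  by_contra hc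
  refine (h x ⟨hx, fun hx' => hc ?_⟩).not_gt hxm
  obtain ⟨z, hz, hxz⟩ := mem_iUnion₂.1 hx'
  exact ⟨z, hz.1, hz.2, hxz⟩

theorem sep {Z : Set (ℂ × ℂ)} (hf : Z.Finite) :
    ∃ ε > 0, ∀ z ∈ Z, ∀ z' ∈ Z, ∀ x, dist x z < ε → dist x z' < ε → z = z' := by
  have hK : IsCompact {p ∈ Z ×ˢ Z | p.1 ≠ p.2} :=
    ((hf.prod hf).subset (sep_subset _ _)).isCompact
  obtain ⟨m, hm, h⟩ := hK.exists_forall_le' (f := fun p => dist p.1 p.2) (a := 0)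
    continuous_dist.continuousOn fun p hp => dist_pos.2 hp.2
  refine ⟨m / 2, half_pos hm, fun z hz z' hz' x h1 h2 => ?_⟩
  by_contra hc
  have h3 : m ≤ dist z z' := h (z, z') ⟨⟨hz, hz'⟩, hc⟩
  linarith [dist_triangle_left z z' x]

/-- the segment from `1 + v` to `1` -/
theorem seg_path {u v : ℂ} (h : 1 + v ∈ Hd r u) :
    Tendsto (fun t : ℝ => 1 + (t : ℂ) * v) (𝓝[>] 0) (𝓝[Hd r u] 1) := by
  refine tendsto_nhdsWithin_iff.2 ⟨?_, ?_⟩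
  · have hc : Continuous fun t : ℝ => 1 + (t : ℂ) * v :=
      continuous_const.add (Complex.continuous_ofReal.mul continuous_const)
    exact (hc.tendsto' 0 1 (by simp)).mono_left nhdsWithin_le_nhds
  · filter_upwards [Ioc_mem_nhdsGT one_pos] with t ht
    exact Hd_seg h ht

theorem sec_tend (hE : IsCompact E) (hμ : Continuous μ) {ε m : ℝ} (hm : 0 < m)
    (hsep : ∀ z ∈ {x ∈ E | μ x = 1}, ∀ z' ∈ {x ∈ E | μ x = 1}, ∀ x, dist x z < ε →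
      dist x z' < ε → z = z')
    (hgap : ∀ x ∈ E, ‖μ x - 1‖ < m → ∃ z ∈ E, μ z = 1 ∧ dist x z < ε) {u w : ℂ}
    {σ : ℂ → ℂ × ℂ} (hσ : Sec E μ (Hd r u) σ) (hw : w ∈ Hd r u) (hwm : ‖w - 1‖ < m)
    {z : ℂ × ℂ} (hz : z ∈ E) (hz1 : μ z = 1) (hwz : dist (σ w) z < ε) :
    Tendsto σ (𝓝[Hd r u] 1) (𝓝 z) := by
  have h1 : ∀ w' ∈ Hd r u ∩ ball 1 m, dist (σ w') z < ε := by
    intro w' hw'
    refine loc_const ((Hd_convex r u).inter (convex_ball 1 m)).isPreconnected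
      (Q := fun w => dist (σ w) z < ε) (fun a ha => ?_) ⟨hw, mem_ball_iff_norm.2 hwm⟩ hw' hwz
    obtain ⟨z', hz', hz1', ha'⟩ := hgap _ (hσ.2 a ha.1).1
      (by rw [(hσ.2 a ha.1).2]; exact mem_ball_iff_norm.1 ha.2)
    filter_upwards [((hσ.1 a ha.1).mono inter_subset_left).eventually
      (isOpen_ball.mem_nhds (mem_ball.2 ha'))] with b hb
    constructor
    · intro h2
      rw [hsep z ⟨hz, hz1⟩ z' ⟨hz', hz1'⟩ _ h2 ha']
      exact hb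
    · intro h2
      rw [hsep z ⟨hz, hz1⟩ z' ⟨hz', hz1'⟩ _ h2 hb]
      exact ha'
  have hε : 0 < ε := dist_nonneg.trans_lt hwz
  refine Metric.tendsto_nhds.2 fun δ hδ => ?_
  obtain ⟨m', hm', h2⟩ := gap hE hμ (lt_min hε hδ)
  filter_upwards [self_mem_nhdsWithin, mem_nhdsWithin_of_mem_nhds (ball_mem_nhds (1 : ℂ) hm),
    mem_nhdsWithin_of_mem_nhds (ball_mem_nhds (1 : ℂ) hm')] with a ha ha1 ha2
  obtain ⟨z', hz', hz1', ha'⟩ := h2 _ (hσ.2 a ha).1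
    (by rw [(hσ.2 a ha).2]; exact mem_ball_iff_norm.1 ha2)
  rw [hsep z ⟨hz, hz1⟩ z' ⟨hz', hz1'⟩ _ (h1 a ⟨ha, ha1⟩) (ha'.trans_le (min_le_left _ _))]
  exact ha'.trans_le (min_le_right _ _)

theorem exists_end (hE : IsCompact E) (hμ : Continuous μ)
    (hf : {x ∈ E | μ x = 1}.Finite) {u w : ℂ} {σ : ℂ → ℂ × ℂ} (hσ : Sec E μ (Hd r u) σ)
    (hw : w ∈ Hd r u) : ∃ z ∈ E, μ z = 1 ∧ Tendsto σ (𝓝[Hd r u] 1) (𝓝 z) := by
  obtain ⟨ε, hε, hsep⟩ := sep hf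
  obtain ⟨m, hm, hgap⟩ := gap hE hμ hε
  have hp := seg_path (r := r) (u := u) (v := w - 1) (by rwa [add_sub_cancel])
  obtain ⟨t, h1, h2⟩ := ((hp.eventually self_mem_nhdsWithin).and (hp.eventually
    (mem_nhdsWithin_of_mem_nhds (ball_mem_nhds (1 : ℂ) hm)))).exists
  have h3 := mem_ball_iff_norm.1 h2
  obtain ⟨z, hz, hz1, h4⟩ := hgap _ (hσ.2 _ h1).1 (by rw [(hσ.2 _ h1).2]; exact h3)
  exact ⟨z, hz, hz1, sec_tend hE hμ hm hsep hgap hσ h1 h3 hz hz1 h4⟩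

theorem end_indep (h : ∀ x ∈ E, ‖μ x - 1‖ < r → μ x ≠ 1 → ∃ ψ, Inv E μ x ψ)
    {u u' w : ℂ} {σ σ' : ℂ → ℂ × ℂ} (hσ : Sec E μ (Hd r u) σ) (hσ' : Sec E μ (Hd r u') σ')
    (hw : w ∈ Hd r u) (hw' : w ∈ Hd r u') (he : σ w = σ' w) {z z' : ℂ × ℂ}
    (hz : Tendsto σ (𝓝[Hd r u] 1) (𝓝 z)) (hz' : Tendsto σ' (𝓝[Hd r u'] 1) (𝓝 z')) : z = z' := by
  have hp := seg_path (r := r) (u := u) (v := w - 1) (by rwa [add_sub_cancel])
  have hp' := seg_path (r := r) (u := u') (v := w - 1) (by rwa [add_sub_cancel])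
  refine tendsto_nhds_unique_of_eventuallyEq (hz.comp hp) (hz'.comp hp') ?_
  filter_upwards [hp.eventually self_mem_nhdsWithin, hp'.eventually self_mem_nhdsWithin]
    with t h1 h2
  exact sec_uniq ((Hd_convex r u).inter (Hd_convex r u')).isPreconnected
    (fun x hx hx' => h x hx hx'.1.1 (Hd_ne hx'.1)) (sec_mono hσ inter_subset_left)
    (sec_mono hσ' inter_subset_right) ⟨hw, hw'⟩ ⟨h1, h2⟩ he

/-- the sections through `x` end at `z` -/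
def PEnd (E : Set (ℂ × ℂ)) (μ : ℂ × ℂ → ℂ) (r : ℝ) (x z : ℂ × ℂ) : Prop :=
  x ∈ E ∧ ‖μ x - 1‖ < r ∧ μ x ≠ 1 ∧ ∀ u, μ x ∈ Hd r u →
    ∃ σ, Sec E μ (Hd r u) σ ∧ σ (μ x) = x ∧ Tendsto σ (𝓝[Hd r u] 1) (𝓝 z)

theorem end_uniq (h : ∀ x ∈ E, ‖μ x - 1‖ < r → μ x ≠ 1 → ∃ ψ, Inv E μ x ψ)
    {x z z' : ℂ × ℂ} (h1 : PEnd E μ r x z) (h2 : PEnd E μ r x z') : z = z' := by
  have hu := Hd_self h1.2.1 h1.2.2.1
  obtain ⟨σ, a1, a2, a3⟩ := h1.2.2.2 _ hu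
  obtain ⟨σ', b1, b2, b3⟩ := h2.2.2.2 _ hu
  exact end_indep h a1 b1 hu hu (a2.trans b2.symm) a3 b3

theorem hd_sec (hE : IsCompact E) (hμ : Continuous μ)
    (h : ∀ x ∈ E, ‖μ x - 1‖ < r → μ x ≠ 1 → ∃ ψ, Inv E μ x ψ) {x : ℂ × ℂ} (hx : x ∈ E) {u : ℂ}
    (hu : μ x ∈ Hd r u) : ∃ σ, Sec E μ (Hd r u) σ ∧ σ (μ x) = x :=
  sec_exists hE hμ (Hd_open r u) (Hd_convex r u)
    (fun y hy hy' => h y hy hy'.1 (Hd_ne hy')) hx hu

theorem end_of (hE : IsCompact E) (hμ : Continuous μ)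
    (h : ∀ x ∈ E, ‖μ x - 1‖ < r → μ x ≠ 1 → ∃ ψ, Inv E μ x ψ) (hf : {x ∈ E | μ x = 1}.Finite)
    {x z : ℂ × ℂ} (hx : x ∈ E) {u : ℂ} (hu : μ x ∈ Hd r u) {σ : ℂ → ℂ × ℂ}
    (hσ : Sec E μ (Hd r u) σ) (he : σ (μ x) = x) (hz : Tendsto σ (𝓝[Hd r u] 1) (𝓝 z)) :
    PEnd E μ r x z := by
  refine ⟨hx, hu.1, Hd_ne hu, fun u' hu' => ?_⟩
  obtain ⟨σ', h1, h2⟩ := hd_sec hE hμ h hx hu'
  obtain ⟨z', -, -, h3⟩ := exists_end hE hμ hf h1 hu'
  rw [end_indep h hσ h1 hu hu' (he.trans h2.symm) hz h3]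
  exact ⟨σ', h1, h2, h3⟩

/-- the end is locally constant -/
theorem end_near (hE : IsCompact E) (hμ : Continuous μ)
    (h : ∀ x ∈ E, ‖μ x - 1‖ < r → μ x ≠ 1 → ∃ ψ, Inv E μ x ψ) (hf : {x ∈ E | μ x = 1}.Finite)
    {x : ℂ × ℂ} (hx : x ∈ E) (hxr : ‖μ x - 1‖ < r) (h1 : μ x ≠ 1) :
    ∃ z ∈ E, μ z = 1 ∧ ∀ᶠ y in 𝓝 x, y ∈ E → PEnd E μ r y z := by
  have hu := Hd_self hxr h1
  obtain ⟨σ, h2, h3⟩ := hd_sec hE hμ h hx hu
  obtain ⟨z, hz, hz1, h4⟩ := exists_end hE hμ hf h2 hu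
  obtain ⟨ψ, hψ⟩ := h x hx hxr h1
  have h5 := sec_loc h2 hu (h3.symm ▸ hψ)
  rw [(Hd_open _ _).nhdsWithin_eq hu] at h5
  refine ⟨z, hz, hz1, ?_⟩
  filter_upwards [hμ.continuousAt.eventually h5, hψ.2.2,
    hμ.continuousAt.eventually ((Hd_open _ _).mem_nhds hu)] with y h6 h7 h8 hy
  exact end_of hE hμ h hf hy h8 h2 (h6.trans (h7 hy)) h4

/-- a connected set has one end -/
theorem one_end (hE : IsCompact E) (hμ : Continuous μ)
    (h : ∀ x ∈ E, ‖μ x - 1‖ < r → μ x ≠ 1 → ∃ ψ, Inv E μ x ψ) (hf : {x ∈ E | μ x = 1}.Finite)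
    {X : Set (ℂ × ℂ)} (hX : IsPreconnected X)
    (hXE : ∀ x ∈ X, x ∈ E ∧ ‖μ x - 1‖ < r ∧ μ x ≠ 1) {x₀ : ℂ × ℂ} (h0 : x₀ ∈ X) :
    ∃ z ∈ E, μ z = 1 ∧ ∀ x ∈ X, PEnd E μ r x z := by
  obtain ⟨z, hz, hz1, h1⟩ := end_near hE hμ h hf (hXE _ h0).1 (hXE _ h0).2.1 (hXE _ h0).2.2
  refine ⟨z, hz, hz1, fun x hx => loc_const hX (Q := fun x => PEnd E μ r x z) (fun a ha => ?_)
    h0 hx (h1.self_of_nhds (hXE _ h0).1)⟩
  obtain ⟨z', -, -, h2⟩ := end_near hE hμ h hf (hXE _ ha).1 (hXE _ ha).2.1 (hXE _ ha).2.2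
  have h3 := h2.self_of_nhds (hXE _ ha).1
  filter_upwards [mem_nhdsWithin_of_mem_nhds h2, self_mem_nhdsWithin] with b h4 hb
  have h5 := h4 (hXE _ hb).1
  exact ⟨fun h6 => end_uniq h h3 h6 ▸ h5, fun h6 => end_uniq h h5 h6 ▸ h3⟩

theorem punct_conn : IsPreconnected {w : ℂ | ‖w - 1‖ < r ∧ w ≠ 1} := by
  have e : {w : ℂ | ‖w - 1‖ < r ∧ w ≠ 1} =
      (fun p : ℝ × ℝ => 1 + (p.1 : ℂ) * Complex.exp (p.2 * Complex.I)) '' (Ioo 0 r ×ˢ univ) := by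
    ext w
    constructor
    · rintro ⟨h1, h2⟩
      refine ⟨(‖w - 1‖, Complex.arg (w - 1)), ⟨⟨norm_pos_iff.2 (sub_ne_zero.2 h2), h1⟩, trivial⟩, ?_⟩
      simp only
      rw [Complex.norm_mul_exp_arg_mul_I, add_sub_cancel]
    · rintro ⟨p, ⟨⟨h1, h2⟩, -⟩, rfl⟩
      have h3 : ‖1 + (p.1 : ℂ) * Complex.exp (p.2 * Complex.I) - 1‖ = p.1 := by
        rw [add_sub_cancel_left, norm_mul, Complex.norm_exp_ofReal_mul_I, mul_one,
          Complex.norm_real, Real.norm_of_nonneg h1.le]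
      refine ⟨h3.trans_lt h2, fun h4 => ?_⟩
      simp only at h4
      rw [h4, sub_self, norm_zero] at h3
      exact h1.ne h3
  rw [e]
  exact (isPreconnected_Ioo.prod isPreconnected_univ).image _ (by fun_prop)

/-- the first coordinate of a section is holomorphic -/
theorem sec_deriv {V : Set ℂ} (hV : IsOpen V) {σ : ℂ → ℂ × ℂ} (hσ : Sec E μ V σ) {w : ℂ}
    (hw : w ∈ V) {ψ : ℂ → ℂ × ℂ} (hψ : Inv E μ (σ w) ψ) {D : ℂ}
    (hD : HasDerivAt (fun v => (ψ v).1) D (μ (σ w))) : HasDerivAt (fun v => (σ v).1) D w := by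
  have h1 := sec_loc hσ hw hψ
  rw [hV.nhdsWithin_eq hw] at h1
  rw [(hσ.2 w hw).2] at hD
  exact hD.congr_of_eventuallyEq (h1.mono fun v hv => by simp only [hv])

/-- Away from the multiplier `1`. -/
theorem chartA (hE : IsCompact E) (hμ : Continuous μ) {V : Set ℂ} (hV : IsOpen V)
    (hc : Convex ℝ V)
    (h : ∀ x ∈ E, μ x ∈ V → ∃ ψ D, Inv E μ x ψ ∧ HasDerivAt (fun v => (ψ v).1) D (μ x))
    {X : Set (ℂ × ℂ)} (hX : IsPreconnected X) (hXE : ∀ x ∈ X, x ∈ E ∧ μ x ∈ V)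
    {y : ℂ × ℂ} (hy : y ∈ X) : ∃ C : ℂ → ℂ, DifferentiableOn ℂ C V ∧
      (∀ w ∈ V, ∃ a ∈ E, μ a = w ∧ a.1 = C w) ∧ ∀ x ∈ X, C (μ x) = x.1 := by
  have h' : ∀ x ∈ E, μ x ∈ V → ∃ ψ, Inv E μ x ψ := fun x h1 h2 =>
    (h x h1 h2).imp fun _ h3 => h3.choose_spec.1
  obtain ⟨σ, hσ, h0⟩ := sec_exists hE hμ hV hc h' (hXE y hy).1 (hXE y hy).2
  have h1 : ∀ x ∈ X, σ (μ x) = x := fun x hx => by
    refine loc_const hX (Q := fun a => σ (μ a) = a) (fun a ha => ?_) hy hx h0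
    by_cases hq : σ (μ a) = a
    · obtain ⟨ψ, hψ⟩ := h' a (hXE a ha).1 (hXE a ha).2
      have h2 := sec_loc hσ (hXE a ha).2 (hq.symm ▸ hψ)
      rw [hV.nhdsWithin_eq (hXE a ha).2] at h2
      filter_upwards [mem_nhdsWithin_of_mem_nhds (hμ.continuousAt.eventually h2),
        mem_nhdsWithin_of_mem_nhds hψ.2.2, self_mem_nhdsWithin] with b h3 h4 hb
      exact iff_of_true hq (h3.trans (h4 (hXE b hb).1))
    · have h2 : ContinuousAt (fun b => σ (μ b) - b) a :=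
        ((hσ.1.continuousAt (hV.mem_nhds (hXE a ha).2)).comp hμ.continuousAt).sub continuousAt_id
      filter_upwards [mem_nhdsWithin_of_mem_nhds (h2.eventually_ne (sub_ne_zero.2 hq))] with b h3
      exact iff_of_false hq (sub_ne_zero.1 h3)
  refine ⟨fun v => (σ v).1, fun w hw => ?_, fun w hw => ⟨σ w, (hσ.2 w hw).1, (hσ.2 w hw).2, rfl⟩,
    fun x hx => congrArg Prod.fst (h1 x hx)⟩
  obtain ⟨ψ, D, a1, a2⟩ := h _ (hσ.2 w hw).1 (by rw [(hσ.2 w hw).2]; exact hw)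
  exact (sec_deriv hV hσ hw a1 a2).differentiableAt.differentiableWithinAt

/-- Near the multiplier `1`. -/
theorem chartB (hE : IsCompact E) (hμ : Continuous μ) (hr : 0 < r)
    (h : ∀ x ∈ E, ‖μ x - 1‖ < r → μ x ≠ 1 → ∃ ψ D, Inv E μ x ψ ∧
      HasDerivAt (fun v => (ψ v).1) D (μ x))
    (hf : {x ∈ E | μ x = 1}.Finite)
    (hLI : ∀ z ∈ E, μ z = 1 → ∃ U ∈ 𝓝 z, ∀ y ∈ U, ∀ y' ∈ U, y ∈ E → y' ∈ E → μ y ≠ 1 →
      μ y = μ y' → y.1 = y'.1)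
    {X : Set (ℂ × ℂ)} (hX : IsPreconnected X)
    (hXE : ∀ x ∈ X, x ∈ E ∧ ‖μ x - 1‖ < r ∧ μ x ≠ 1)
    {x : ℂ × ℂ} (hx : x ∈ X) : ∃ C : ℂ → ℂ, DifferentiableOn ℂ C (ball 1 r) ∧
      (∀ w ∈ ball (1 : ℂ) r, w ≠ 1 → ∃ a ∈ E, μ a = w ∧ a.1 = C w) ∧ ∀ x ∈ X, C (μ x) = x.1 := by
  classical
  have h' : ∀ x ∈ E, ‖μ x - 1‖ < r → μ x ≠ 1 → ∃ ψ, Inv E μ x ψ := fun x h1 h2 h3 =>
    (h x h1 h2 h3).imp fun _ h4 => h4.choose_spec.1
  obtain ⟨z, hz, hz1, hend⟩ := one_end hE hμ h' hf hX hXE hx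
  have hsd : ∀ u σ, Sec E μ (Hd r u) σ → ∀ w ∈ Hd r u,
      DifferentiableAt ℂ (fun v => (σ v).1) w := fun u σ hσ w hw => by
    obtain ⟨ψ, D, a1, a2⟩ := h _ (hσ.2 w hw).1 (by rw [(hσ.2 w hw).2]; exact hw.1)
      (by rw [(hσ.2 w hw).2]; exact Hd_ne hw)
    exact (sec_deriv (Hd_open _ _) hσ hw a1 a2).differentiableAt
  -- the first coordinate depends on the multiplier only
  have hwd : ∀ a b, PEnd E μ r a z → PEnd E μ r b z → μ a = μ b → a.1 = b.1 := by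
    intro a b ha hb hab
    have hu := Hd_self ha.2.1 ha.2.2.1
    obtain ⟨σ, a1, a2, a3⟩ := ha.2.2.2 _ hu
    obtain ⟨σ', b1, b2, b3⟩ := hb.2.2.2 (μ a - 1) (by rw [← hab]; exact hu)
    obtain ⟨U, hU, hU'⟩ := hLI z hz hz1
    have hp := seg_path (r := r) (u := μ a - 1) (v := μ a - 1) (by rwa [add_sub_cancel])
    have h1 : ∀ᶠ w in 𝓝[Hd r (μ a - 1)] 1, (σ w).1 = (σ' w).1 := by
      filter_upwards [a3.eventually hU, b3.eventually hU, self_mem_nhdsWithin] with w c1 c2 c3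
      exact hU' _ c1 _ c2 (a1.2 w c3).1 (b1.2 w c3).1 (by rw [(a1.2 w c3).2]; exact Hd_ne c3)
        (by rw [(a1.2 w c3).2, (b1.2 w c3).2])
    obtain ⟨O, hO, hO1, hO2⟩ := mem_nhdsWithin.1 h1
    obtain ⟨t, c1, c2⟩ := ((hp.eventually self_mem_nhdsWithin).and (hp.eventually
      (mem_nhdsWithin_of_mem_nhds (hO.mem_nhds hO1)))).exists
    have an : ∀ τ, Sec E μ (Hd r (μ a - 1)) τ →
        AnalyticOnNhd ℂ (fun v => (τ v).1) (Hd r (μ a - 1)) := fun τ hτ =>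
      DifferentiableOn.analyticOnNhd (fun w hw =>
        (hsd _ τ hτ w hw).differentiableWithinAt) (Hd_open _ _)
    have h2 := (an σ a1).eqOn_of_preconnected_of_eventuallyEq (an σ' b1)
      (Hd_convex _ _).isPreconnected c1
      (mem_of_superset ((hO.inter (Hd_open _ _)).mem_nhds ⟨c2, c1⟩) hO2) hu
    simp only [a2] at h2
    rw [h2, hab, b2]
  -- every multiplier is attained
  have hstep : ∀ u w w', w ∈ Hd r u → w' ∈ Hd r u →
      (∃ a, PEnd E μ r a z ∧ μ a = w) → ∃ a, PEnd E μ r a z ∧ μ a = w' := by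
    rintro u _ w' hw hw' ⟨a, ha, rfl⟩
    obtain ⟨σ, a1, -, a3⟩ := ha.2.2.2 _ hw
    have e := (a1.2 w' hw').2
    exact ⟨σ w', end_of hE hμ h' hf (a1.2 w' hw').1 (by rw [e]; exact hw') a1 (by rw [e]) a3, e⟩
  have hall : ∀ w, ‖w - 1‖ < r ∧ w ≠ 1 → ∃ a, PEnd E μ r a z ∧ μ a = w := by
    intro w hw
    refine loc_const (punct_conn (r := r)) (Q := fun w => ∃ a, PEnd E μ r a z ∧ μ a = w)
      (fun v hv => ?_) ⟨(hend x hx).2.1, (hend x hx).2.2.1⟩ hw ⟨x, hend x hx, rfl⟩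
    have hu := Hd_self hv.1 hv.2
    filter_upwards [mem_nhdsWithin_of_mem_nhds ((Hd_open _ _).mem_nhds hu)] with v' hv'
    exact ⟨hstep _ _ _ hu hv', hstep _ _ _ hv' hu⟩
  choose! A hA hA' using hall
  have hC : ∀ w, ‖w - 1‖ < r → w ≠ 1 → DifferentiableAt ℂ (fun v => (A v).1) w := by
    intro w h1 h2
    have hu := Hd_self h1 h2
    obtain ⟨σ, a1, -, a3⟩ := (hA w ⟨h1, h2⟩).2.2.2 (w - 1) (by rw [hA' w ⟨h1, h2⟩]; exact hu)
    refine (hsd _ σ a1 w hu).congr_of_eventuallyEq ?_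
    filter_upwards [(Hd_open _ _).mem_nhds hu] with v hv
    have e := (a1.2 v hv).2
    exact hwd _ _ (hA v ⟨hv.1, Hd_ne hv⟩)
      (end_of hE hμ h' hf (a1.2 v hv).1 (by rw [e]; exact hv) a1 (by rw [e]) a3)
      (by rw [hA' v ⟨hv.1, Hd_ne hv⟩, e])
  obtain ⟨R, hR⟩ := hE.isBounded.exists_norm_le
  refine ⟨_, Complex.differentiableOn_update_limUnder_of_bddAbove (f := fun v => (A v).1)
    (s := ball 1 r) (c := 1) (ball_mem_nhds _ hr)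
    (fun w hw => (hC w (mem_ball_iff_norm.1 hw.1) hw.2).differentiableWithinAt)
    ⟨R, by
      rintro _ ⟨w, hw, rfl⟩
      exact (norm_fst_le _).trans (hR _ (hA w ⟨mem_ball_iff_norm.1 hw.1, hw.2⟩).1)⟩,
    fun w hw h1 => ?_, fun a ha => ?_⟩
  · have h2 : ‖w - 1‖ < r ∧ w ≠ 1 := ⟨mem_ball_iff_norm.1 hw, h1⟩
    exact ⟨A w, (hA w h2).1, hA' w h2, by rw [Function.update_of_ne h1]⟩
  · have h1 : ‖μ a - 1‖ < r ∧ μ a ≠ 1 := (hXE a ha).2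
    rw [Function.update_of_ne h1.2]
    exact hwd _ _ (hA _ h1) (hend a ha) (hA' _ h1)

/-- The first coordinate is a holomorphic function of the multiplier on a disc of definite size. -/
theorem chart (hE : IsCompact E) (hμ : Continuous μ) {κ : ℝ} (hκ : 0 < κ)
    (h : ∀ x ∈ E, |‖μ x‖ - 1| < κ → μ x ≠ 1 → ∃ ψ D, Inv E μ x ψ ∧
      HasDerivAt (fun v => (ψ v).1) D (μ x))
    (hf : {x ∈ E | μ x = 1}.Finite)
    (hLI : ∀ z ∈ E, μ z = 1 → ∃ U ∈ 𝓝 z, ∀ y ∈ U, ∀ y' ∈ U, y ∈ E → y' ∈ E → μ y ≠ 1 →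
      μ y = μ y' → y.1 = y'.1)
    {w₀ : ℂ} (hw₀ : ‖w₀‖ = 1) {X : Set (ℂ × ℂ)} (hX : IsPreconnected X)
    (hXE : ∀ x ∈ X, x ∈ E ∧ ‖μ x - w₀‖ < κ / 8 ∧ μ x ≠ 1) {x : ℂ × ℂ} (hx : x ∈ X) :
    ∃ (a : ℂ) (ρ : ℝ) (C : ℂ → ℂ), ‖a‖ = 1 ∧ κ / 8 ≤ ρ ∧ ρ ≤ κ / 2 ∧
      DifferentiableOn ℂ C (ball a (2 * ρ)) ∧
      (∀ w ∈ ball a (2 * ρ), w ≠ 1 → ∃ b ∈ E, μ b = w ∧ b.1 = C w) ∧
      ∀ x ∈ X, ‖μ x - a‖ < ρ ∧ C (μ x) = x.1 := by
  rcases le_or_gt (κ / 4) ‖w₀ - 1‖ with h1 | h1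
  · obtain ⟨C, c1, c2, c3⟩ := chartA hE hμ (V := ball w₀ (2 * (κ / 8))) isOpen_ball
      (convex_ball _ _) (fun a ha ha' => by
        have h2 := mem_ball_iff_norm.1 ha'
        refine h a ha (by rw [← hw₀]; exact (abs_norm_sub_norm_le _ _).trans_lt (by linarith))
          fun h4 => ?_
        rw [h4, norm_sub_rev] at h2
        linarith) hX
      (fun a ha => ⟨(hXE a ha).1, mem_ball_iff_norm.2 (by linarith [(hXE a ha).2.1])⟩) hx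
    exact ⟨w₀, κ / 8, C, hw₀, le_rfl, by linarith, c1, fun w hw _ => c2 w hw,
      fun a ha => ⟨(hXE a ha).2.1, c3 a ha⟩⟩
  · have h2 : ∀ a ∈ X, ‖μ a - 1‖ < κ / 2 := fun a ha => by
      have := norm_sub_le_norm_sub_add_norm_sub (μ a) w₀ 1
      linarith [(hXE a ha).2.1]
    obtain ⟨C, c1, c2, c3⟩ := chartB (r := 2 * (κ / 2)) hE hμ (by linarith) (fun a ha h3 h4 =>
      h a ha (by
        have h5 : ‖μ a - 1‖ < κ := by linarith
        simpa using (abs_norm_sub_norm_le (μ a) 1).trans_lt h5) h4) hf hLI hX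
      (fun a ha => ⟨(hXE a ha).1, by linarith [h2 a ha], (hXE a ha).2.2⟩) hx
    exact ⟨1, κ / 2, C, norm_one, by linarith, le_rfl, c1, c2, fun a ha => ⟨h2 a ha, c3 a ha⟩⟩

end

/-- A value close to the value at the centre is attained. -/
theorem attained {F : ℂ → ℂ} {z v : ℂ} {r a : ℝ} (hr : 0 < r) (hF : DiffContOnCl ℂ F (ball z r))
    (h1 : ∀ w ∈ sphere z r, a ≤ ‖F w - v‖) (h2 : ‖F z - v‖ < a) : ∃ w ∈ closedBall z r, F w = v := by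
  by_contra hc
  push Not at hc
  have ha : 0 < a := (norm_nonneg _).trans_lt h2
  have h3 := Complex.norm_le_of_forall_mem_frontier_norm_le (U := ball z r) isBounded_ball
    ((hF.sub_const v).inv fun w hw => sub_ne_zero.2 (hc w (closure_ball_subset_closedBall hw)))
    (C := a⁻¹) (fun w hw => by
      rw [frontier_ball _ hr.ne'] at hw
      rw [Pi.inv_apply, norm_inv]
      exact inv_anti₀ ha (h1 w hw)) (subset_closure (mem_ball_self hr))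
  rw [Pi.inv_apply, norm_inv,
    inv_le_inv₀ (norm_pos_iff.2 (sub_ne_zero.2 (hc z (mem_closedBall_self hr.le)))) ha] at h3
  exact h3.not_gt h2

/-- Bounded holomorphic maps with disjoint images of a fixed disc tend to constants. -/
theorem shrink {P : ℕ → (ℂ → ℂ) → Prop} {R : ℝ}
    (hd : ∀ n F, P n F → DifferentiableOn ℂ F (ball 0 2) ∧ ∀ u ∈ ball (0 : ℂ) 2, ‖F u‖ ≤ R)
    (hdis : ∀ n m F G, P n F → P m G → ∀ u ∈ ball (-1 : ℂ) (1 / 2), ∀ v ∈ ball (-1 : ℂ) (1 / 2),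
      F u = G v → n = m) {ε : ℝ} (hε : 0 < ε) :
    ∃ N, ∀ n, N ≤ n → ∀ F, P n F → ∀ u ∈ ball (0 : ℂ) 1, ‖deriv F u‖ ≤ ε := by
  by_contra hc
  push Not at hc
  choose n hn F hF u hu hlt using hc
  obtain ⟨𝒰, h𝒰⟩ : ∃ 𝒰 : Ultrafilter ℕ, (𝒰 : Filter ℕ) ≤ atTop := Ultrafilter.exists_le atTop
  have hlim : ∀ x ∈ ball (0 : ℂ) 2, ∃ y, Tendsto (fun k => F k x) 𝒰 (𝓝 y) := by
    intro x hx
    have h1 : (↑(𝒰.map fun k => F k x) : Filter ℂ) ≤ 𝓟 (closedBall (0 : ℂ) R) := by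
      rw [le_principal_iff, Ultrafilter.coe_map, mem_map]
      exact Eventually.of_forall fun k => mem_closedBall_zero_iff.2 ((hd _ _ (hF k)).2 x hx)
    obtain ⟨y, -, hy⟩ := (isCompact_closedBall (0 : ℂ) R).ultrafilter_le_nhds _ h1
    exact ⟨y, hy⟩
  choose! g hg using hlim
  have key : TendstoLocallyUniformlyOn F g 𝒰 (ball 0 2) := by
    rw [Metric.tendstoLocallyUniformlyOn_iff]
    intro η hη x hx
    obtain ⟨s, hs, hsU⟩ := Metric.isOpen_iff.1 isOpen_ball x hx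
    have hlip : ∀ k, ∀ y ∈ ball x s, dist (F k y) (F k x) ≤ 2 * R / s * dist y x := by
      intro k y hy
      refine Complex.dist_le_div_mul_dist_of_mapsTo_ball ((hd _ _ (hF k)).1.mono hsU) ?_ hy
      intro z hz
      rw [mem_closedBall, dist_eq_norm]
      exact (norm_sub_le _ _).trans
        (by linarith [(hd _ _ (hF k)).2 z (hsU hz), (hd _ _ (hF k)).2 x hx])
    have hglip : ∀ y ∈ ball x s, dist (g y) (g x) ≤ 2 * R / s * dist y x := fun y hy =>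
      le_of_tendsto' ((hg y (hsU hy)).dist (hg x hx)) fun k => hlip k y hy
    have hc : ContinuousAt (fun y : ℂ => 2 * R / s * dist y x) x := by fun_prop
    have hev : ∀ᶠ y in 𝓝 x, 2 * R / s * dist y x < η / 3 :=
      hc.eventually (gt_mem_nhds (by simpa using hη))
    refine ⟨{y | 2 * R / s * dist y x < η / 3} ∩ ball x s,
      mem_nhdsWithin_of_mem_nhds (inter_mem hev (ball_mem_nhds _ hs)), ?_⟩
    filter_upwards [(Metric.tendsto_nhds.1 (hg x hx)) (η / 3) (by positivity)] with k h2 y hy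
    have b1 := hlip k y hy.2
    have b2 := hglip y hy.2
    have b3 : 2 * R / s * dist y x < η / 3 := hy.1
    have := dist_triangle4 (g y) (g x) (F k x) (F k y)
    rw [dist_comm (g x), dist_comm (F k x) (F k y)] at this
    linarith
  have hFd : ∀ᶠ k in (𝒰 : Filter ℕ), DifferentiableOn ℂ (F k) (ball 0 2) :=
    Eventually.of_forall fun k => (hd _ _ (hF k)).1
  have hga := (key.differentiableOn hFd isOpen_ball).analyticOnNhd isOpen_ball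
  have hm1 : (-1 : ℂ) ∈ ball (0 : ℂ) 2 := by simp
  rcases (hga _ hm1).eventually_eq_or_eventually_ne (g := fun _ => g (-1)) analyticAt_const
    with h0 | h0
  · have h1 := hga.eqOn_of_preconnected_of_eventuallyEq analyticOnNhd_const
      (convex_ball (0 : ℂ) 2).isPreconnected hm1 h0
    have hsub : closedBall (0 : ℂ) 1 ⊆ ball 0 2 := closedBall_subset_ball (by norm_num)
    have h2 := (tendstoLocallyUniformlyOn_iff_tendstoUniformlyOn_of_compact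
      (isCompact_closedBall (0 : ℂ) 1)).1 ((key.deriv hFd isOpen_ball).mono hsub)
    obtain ⟨k, hk⟩ := (Metric.tendstoUniformlyOn_iff.1 h2 ε hε).exists
    have h3 := hk (u k) (ball_subset_closedBall (hu k))
    have h4 : deriv g (u k) = 0 := by
      rw [(h1.eventuallyEq_of_mem
        (isOpen_ball.mem_nhds (hsub (ball_subset_closedBall (hu k))))).deriv_eq, deriv_const]
    rw [h4, dist_zero_left] at h3
    exact (hlt k).not_gt h3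
  · obtain ⟨t, ht, h1⟩ := Metric.eventually_nhds_iff.1 (eventually_nhdsWithin_iff.1 h0)
    obtain ⟨r, hr, hrt, hr2⟩ : ∃ r > 0, r < t ∧ r < 1 / 2 :=
      ⟨min t (1 / 2) / 2, by positivity, by linarith [min_le_left t (1 / 2)],
        by linarith [min_le_right t (1 / 2)]⟩
    have hsub : closedBall (-1 : ℂ) r ⊆ ball 0 2 := closedBall_subset_ball' (by simp; linarith)
    obtain ⟨m, hm, h2⟩ := (isCompact_sphere (-1 : ℂ) r).exists_forall_le'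
      (f := fun w => ‖g w - g (-1)‖) (a := 0)
      ((hga.continuousOn.mono (sphere_subset_closedBall.trans hsub)).sub continuousOn_const).norm
      fun w hw => norm_pos_iff.2 (sub_ne_zero.2 (h1 ((mem_sphere.1 hw).trans_lt hrt)
        (ne_of_mem_sphere hw hr.ne')))
    have h3 := Metric.tendstoUniformlyOn_iff.1
      ((tendstoLocallyUniformlyOn_iff_tendstoUniformlyOn_of_compact
        (isCompact_closedBall (-1 : ℂ) r)).1 (key.mono hsub)) (m / 2) (half_pos hm)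
    have h4 : ∀ᶠ k in (𝒰 : Filter ℕ), ∃ w ∈ ball (-1 : ℂ) (1 / 2), F k w = g (-1) := by
      filter_upwards [h3] with k hk
      obtain ⟨w, h5, h6⟩ := attained hr ((hd _ _ (hF k)).1.diffContOnCl_ball hsub)
        (v := g (-1)) (a := m / 2) (fun w hw => by
          have a1 := hk w (sphere_subset_closedBall hw)
          have a2 := norm_sub_le_norm_sub_add_norm_sub (g w) (F k w) (g (-1))
          rw [dist_eq_norm] at a1
          linarith [h2 w hw]) (by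
          have a1 := hk _ (mem_closedBall_self hr.le)
          rwa [dist_comm, dist_eq_norm] at a1)
      exact ⟨w, closedBall_subset_ball hr2 h5, h6⟩
    obtain ⟨k, w, a1, a2⟩ := h4.exists
    obtain ⟨k', ⟨w', b1, b2⟩, b3⟩ := (h4.and (h𝒰 (eventually_gt_atTop (n k)))).exists
    have h5 := hdis _ _ _ _ (hF k) (hF k') w a1 w' b1 (a2.trans b2.symm)
    have h6 := hn k'
    have h7 : n k < k' := b3
    omega

theorem shrink' {P : ℕ → (ℂ → ℂ) → Prop} {R : ℝ}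
    (hd : ∀ n F, P n F → DifferentiableOn ℂ F (ball 0 2) ∧ ∀ u ∈ ball (0 : ℂ) 2, ‖F u‖ ≤ R)
    (hdis : ∀ n m F G, P n F → P m G → ∀ u ∈ ball (-1 : ℂ) (1 / 2), ∀ v ∈ ball (-1 : ℂ) (1 / 2),
      F u = G v → n = m) : ∃ b : ℕ → ℝ, (∀ n, 0 ≤ b n) ∧ Tendsto b atTop (𝓝 0) ∧
      ∀ n F, P n F → ∀ u ∈ ball (0 : ℂ) 1, ‖deriv F u‖ ≤ b n := by
  have hne : ∀ n, {ε : ℝ | 0 ≤ ε ∧ ∀ F, P n F → ∀ u ∈ ball (0 : ℂ) 1, ‖deriv F u‖ ≤ ε}.Nonempty := by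
    refine fun n => ⟨2 * |R| / 1, by positivity, fun F hF u hu => ?_⟩
    have hsU : ball u 1 ⊆ ball 0 2 := ball_subset_ball' (by linarith [mem_ball.1 hu])
    refine Complex.norm_deriv_le_div_of_mapsTo_ball ((hd _ _ hF).1.mono hsU) (fun z hz => ?_)
      one_pos
    rw [mem_closedBall, dist_eq_norm]
    exact (norm_sub_le _ _).trans (by
      linarith [(hd _ _ hF).2 z (hsU hz), (hd _ _ hF).2 u (hsU (mem_ball_self one_pos)),
        le_abs_self R])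
  have h0 : ∀ n, 0 ≤ sInf {ε : ℝ | 0 ≤ ε ∧ ∀ F, P n F → ∀ u ∈ ball (0 : ℂ) 1, ‖deriv F u‖ ≤ ε} :=
    fun n => le_csInf (hne n) fun _ h => h.1
  refine ⟨_, h0, tendsto_order.2 ⟨fun a ha => Eventually.of_forall fun n => ha.trans_le (h0 n),
    fun a ha => ?_⟩, fun n F hF u hu => le_csInf (hne n) fun _ h => h.2 F hF u hu⟩
  obtain ⟨N, hN⟩ := shrink hd hdis (half_pos ha)
  filter_upwards [eventually_ge_atTop N] with n hn
  refine lt_of_le_of_lt (csInf_le ⟨0, fun _ h => h.1⟩ ?_) (half_lt_self ha)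
  exact ⟨(half_pos ha).le, hN n hn⟩

/-- On a connected set whose multipliers are different from `1` and close to a point of the unit
circle, the first coordinate is a Lipschitz function of the multiplier, with a constant which
tends to zero along the family. -/
theorem lip {E : ℕ → Set (ℂ × ℂ)} {μ : ℕ → ℂ × ℂ → ℂ} {κ R : ℝ} (hκ : 0 < κ) (hκ4 : κ ≤ 1 / 4)
    (hE : ∀ n > 0, IsCompact (E n)) (hμ : ∀ n, Continuous (μ n))
    (hR : ∀ n > 0, ∀ x ∈ E n, ‖x.1‖ ≤ R)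
    (h : ∀ n > 0, ∀ x ∈ E n, |‖μ n x‖ - 1| < κ → μ n x ≠ 1 → ∃ ψ D, Inv (E n) (μ n) x ψ ∧
      HasDerivAt (fun v => (ψ v).1) D (μ n x))
    (hf : ∀ n > 0, {x ∈ E n | μ n x = 1}.Finite)
    (hLI : ∀ n > 0, ∀ z ∈ E n, μ n z = 1 → ∃ U ∈ 𝓝 z, ∀ y ∈ U, ∀ y' ∈ U, y ∈ E n → y' ∈ E n →
      μ n y ≠ 1 → μ n y = μ n y' → y.1 = y'.1)
    (hdis : ∀ n > 0, ∀ m > 0, ∀ x ∈ E n, ∀ y ∈ E m, ‖μ n x‖ < 1 → ‖μ m y‖ < 1 → x.1 = y.1 →
      n = m) :
    ∃ B : ℕ → ℝ, (∀ n, 0 ≤ B n) ∧ Tendsto B atTop (𝓝 0) ∧ ∀ n > 0, ∀ w₀ : ℂ, ‖w₀‖ = 1 →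
      ∀ X : Set (ℂ × ℂ), IsPreconnected X →
        (∀ x ∈ X, x ∈ E n ∧ ‖μ n x - w₀‖ < κ / 8 ∧ μ n x ≠ 1) →
        ∀ x ∈ X, ∀ y ∈ X, ‖x.1 - y.1‖ ≤ B n * ‖μ n x - μ n y‖ := by
  have hmem : ∀ (a : ℂ) (ρ : ℝ), ‖a‖ = 1 → 0 < ρ → ∀ u ∈ ball (0 : ℂ) 2,
      a + ρ * a * u ∈ ball a (2 * ρ) := fun a ρ ha hρ u hu => by
    rw [mem_ball_iff_norm, add_sub_cancel_left, norm_mul, norm_mul, ha, Complex.norm_real,
      Real.norm_of_nonneg hρ.le]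
    nlinarith [mem_ball_zero_iff.1 hu]
  have hin : ∀ (a : ℂ) (ρ : ℝ), ‖a‖ = 1 → 0 < ρ → ρ ≤ 1 → ∀ u ∈ ball (-1 : ℂ) (1 / 2),
      ‖a + ρ * a * u‖ < 1 := fun a ρ ha hρ hρ1 u hu => by
    have h1 := norm_add_le (((1 - ρ : ℝ) : ℂ) * a) (ρ * a * (u - -1))
    rw [show ((1 - ρ : ℝ) : ℂ) * a + ρ * a * (u - -1) = a + ρ * a * u by push_cast; ring, norm_mul,
      norm_mul, norm_mul, ha, Complex.norm_real, Complex.norm_real, Real.norm_of_nonneg hρ.le,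
      Real.norm_of_nonneg (by linarith)] at h1
    nlinarith [mem_ball_iff_norm.1 hu]
  have hsub : ball (-1 : ℂ) (1 / 2) ⊆ ball 0 2 := ball_subset_ball' (by simp; norm_num)
  obtain ⟨b, b0, b1, b2⟩ := shrink' (R := R) (P := fun n F => 0 < n ∧ ∃ (a : ℂ) (ρ : ℝ) (C : ℂ → ℂ),
      ‖a‖ = 1 ∧ κ / 8 ≤ ρ ∧ ρ ≤ κ / 2 ∧ DifferentiableOn ℂ C (ball a (2 * ρ)) ∧
      (∀ w ∈ ball a (2 * ρ), w ≠ 1 → ∃ b ∈ E n, μ n b = w ∧ b.1 = C w) ∧
      F = fun u => C (a + ρ * a * u)) (by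
    rintro n _ ⟨hn, a, ρ, C, c1, c2, c3, c4, c5, rfl⟩
    have hρ : 0 < ρ := by linarith
    refine ⟨c4.comp (by fun_prop) (hmem a ρ c1 hρ), fun u hu => ?_⟩
    have h1 := hmem a ρ c1 hρ u hu
    dsimp only
    generalize a + ρ * a * u = w at h1
    have h2 : ∀ v ∈ ball a (2 * ρ), v ≠ 1 → ‖C v‖ ≤ R := fun v hv hv1 => by
      obtain ⟨y, y1, -, y3⟩ := c5 v hv hv1
      exact y3 ▸ hR n hn y y1
    by_cases h3 : w = 1
    · subst h3
      refine le_of_tendsto (x := 𝓝[≠] (1 : ℂ)) ((c4.differentiableAt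
        (isOpen_ball.mem_nhds h1)).continuousAt.norm.tendsto.mono_left nhdsWithin_le_nhds) ?_
      filter_upwards [mem_nhdsWithin_of_mem_nhds (isOpen_ball.mem_nhds h1), self_mem_nhdsWithin]
        with v hv hv1 using h2 v hv hv1
    · exact h2 w h1 h3) (by
    rintro n m _ _ ⟨hn, a, ρ, C, c1, c2, c3, -, c5, rfl⟩ ⟨hm, a', ρ', C', d1, d2, d3, -, d5, rfl⟩
      u hu v hv huv
    have e1 := hin a ρ c1 (by linarith) (by linarith) u hu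
    have e2 := hin a' ρ' d1 (by linarith) (by linarith) v hv
    obtain ⟨x, x1, x2, x3⟩ := c5 _ (hmem a ρ c1 (by linarith) u (hsub hu))
      fun h1 => by rw [h1, norm_one] at e1; exact e1.false
    obtain ⟨y, y1, y2, y3⟩ := d5 _ (hmem a' ρ' d1 (by linarith) v (hsub hv))
      fun h1 => by rw [h1, norm_one] at e2; exact e2.false
    exact hdis n hn m hm x x1 y y1 (x2 ▸ e1) (y2 ▸ e2) (x3.trans (huv.trans y3.symm)))
  refine ⟨fun n => 8 / κ * b n, fun n => mul_nonneg (by positivity) (b0 n),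
    by simpa using b1.const_mul (8 / κ), fun n hn w₀ hw₀ X hX hXE x hx y hy => ?_⟩
  obtain ⟨a, ρ, C, c1, c2, c3, c4, c5, c6⟩ :=
    chart (hE n hn) (hμ n) hκ (h n hn) (hf n hn) (hLI n hn) hw₀ hX hXE hx
  have hρ : 0 < ρ := by linarith
  have hne : (ρ : ℂ) * a ≠ 0 :=
    mul_ne_zero (Complex.ofReal_ne_zero.2 hρ.ne') (norm_pos_iff.1 (by rw [c1]; exact one_pos))
  have hnm : ‖(ρ : ℂ) * a‖ = ρ := by
    rw [norm_mul, c1, mul_one, Complex.norm_real, Real.norm_of_nonneg hρ.le]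
  have hu : ∀ z ∈ X, (μ n z - a) / (ρ * a) ∈ ball (0 : ℂ) 1 := fun z hz => by
    rw [mem_ball_zero_iff, norm_div, hnm, div_lt_one hρ]
    exact (c6 z hz).1
  have hv : ∀ z ∈ X, C (a + ρ * a * ((μ n z - a) / (ρ * a))) = z.1 := fun z hz => by
    rw [mul_div_cancel₀ _ hne, add_sub_cancel]
    exact (c6 z hz).2
  have hdF : DifferentiableOn ℂ (fun u => C (a + ρ * a * u)) (ball 0 2) :=
    c4.comp (by fun_prop) (hmem a ρ c1 hρ)
  have h3 := (convex_ball (0 : ℂ) 1).norm_image_sub_le_of_norm_deriv_le (𝕜 := ℂ)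
    (f := fun u => C (a + ρ * a * u))
    (fun w hw => hdF.differentiableAt
      (isOpen_ball.mem_nhds (ball_subset_ball (by norm_num) hw)))
    (b2 n _ ⟨hn, a, ρ, C, c1, c2, c3, c4, c5, rfl⟩) (hu y hy) (hu x hx)
  simp only [hv x hx, hv y hy] at h3
  rw [← sub_div, sub_sub_sub_cancel_right, norm_div, hnm] at h3
  refine h3.trans ?_
  rw [mul_div_left_comm, mul_comm]
  refine mul_le_mul_of_nonneg_right ?_ (norm_nonneg _)
  rw [div_le_iff₀ hρ, mul_right_comm]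
  refine le_mul_of_one_le_left (b0 n) ?_
  rw [div_mul_eq_mul_div, one_le_div hκ]
  linarith

end Pool.Agent.H22M.Root
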