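import Pool.Agent.MP_28f8a1_an.Mlc.Sec
import Pool.Agent.MP_28f8a1_an.Mlc.Loc
import Pool.Agent.MP_28f8a1_an.Mlc.Root29

/-! The parameter is a Lipschitz function of the multiplier near the unit circle. -/

set_option autoImplicit false

namespace Pool.Agent.MP_28f8a1_an.Mlc

open MeasureTheory Metric Set Real Filter Topology Pool.Agent.MP_28f8a1_an.H42
open Complex (I)

variable {e : ℕ}

/-- There is one attracting cycle at most. -/
theorem att_per (he : 1 ≤ e) {n m : ℕ} (hn : 0 < n) (hm : 0 < m) {c z w : ℂ}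
    (hz : Function.minimalPeriod (fq e c) z = n) (hw : Function.minimalPeriod (fq e c) w = m)
    (h1 : ‖Pd e c z n‖ < 1) (h2 : ‖Pd e c w m‖ < 1) : n = m := by
  obtain ⟨z', a1, -, a2⟩ := fatou' he hn hz h1
  obtain ⟨w', b1, -, b2⟩ := fatou' he hm hw h2
  have h3 : z' = w' := tendsto_nhds_unique (a2.comp (tendsto_id.const_mul_atTop' hm))
    ((b2.comp (tendsto_id.const_mul_atTop' hn)).congr fun k => by
      simp only [Function.comp, id, mul_left_comm])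
  rw [← a1, h3, b1]

theorem diam_lip (he : 1 ≤ e) : ∃ s > 0, s ≤ 1 / 32 ∧ ∃ L : ℕ → ℝ, (∀ n, 0 ≤ L n) ∧
    Tendsto L atTop (𝓝 0) ∧ ∀ n > 0, ∀ w₀ : ℂ,
    ‖w₀‖ = 1 → ∀ X : Set (ℂ × ℂ), IsPreconnected X →
      (∀ x ∈ X, x ∈ Ec e n ∧ ‖mu e n x - w₀‖ < s ∧ mu e n x ≠ 1) →
      ∀ x ∈ X, ∀ y ∈ X, ‖x.1 - y.1‖ ≤ L n * ‖mu e n x - mu e n y‖ := by
  obtain ⟨κ, hκ, hκ4, h⟩ := inv_core he one_pos
  refine ⟨κ / 8, by positivity, by linarith, Pool.Agent.H22M.Root.lip (R := 4) hκ hκ4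
    (fun n hn => Ec_compact he hn) (mu_cont e)
    (fun n hn x hx => (sec_bound he hn hx.1 (hx.2.1.trans_lt (by norm_num))).1)
    (fun n hn a ha h1 h2 => ?_) (fun n hn => Ec_fin he hn) (fun n hn z hz h1 => ?_)
    (fun n hn m hm x hx y hy h1 h2 h3 => ?_)⟩
  · obtain ⟨h3, h4⟩ := abs_lt.1 h1
    obtain ⟨ψ, D, a1, a2, -⟩ := h n hn a ha (by linarith) (by linarith) h2
    exact ⟨ψ, D, a1, a2⟩
  · have h2 := loc_inj he hn hz.1 h1
    rw [nhds_prod_eq] at h2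
    obtain ⟨U, hU, V, hV, h3⟩ := eventually_prod_iff.1 h2
    refine ⟨{y | U y} ∩ {y | V y}, inter_mem hU hV, fun y hy y' hy' h4 h5 h6 h7 => ?_⟩
    exact h3 hy.1 hy'.2 (h4.2.2.resolve_left h6) (h5.2.2.resolve_left (h7 ▸ h6)) h7
  · have a1 : x ∈ Per e n := hx.2.2.resolve_left fun h4 => by
      rw [h4, norm_one] at h1
      exact h1.false
    have a2 : y ∈ Per e m := hy.2.2.resolve_left fun h4 => by
      rw [h4, norm_one] at h2
      exact h2.false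
    obtain ⟨c, z⟩ := x
    obtain ⟨c', w⟩ := y
    obtain rfl : c = c' := h3
    exact att_per he hn hm a1 a2 h1 h2

end Pool.Agent.MP_28f8a1_an.Mlc
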