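import Pool.Agent.MP_28f8a1_an.Mlc.Tau

/-! The inverse of the root of the multiplier extends to a disc of period-independent radius. -/

set_option autoImplicit false

namespace Pool.Agent.MP_28f8a1_an.Mlc

open MeasureTheory Metric Set Real Filter Topology Pool.Agent.MP_28f8a1_an.H42
open Pool.Agent.H22M
open Complex (I)

variable {e : ℕ}

theorem ext_agree {V : Set ℂ} (hV : IsOpen V) (hc : Convex ℝ V) {F G : ℂ → ℂ}
    (hF : DifferentiableOn ℂ F V) (hG : DifferentiableOn ℂ G V) {t : ℂ} (ht : t ∈ V)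
    (ht1 : ‖t‖ < 1) (h : EqOn F G (V ∩ ball 0 1)) : EqOn F G V :=
  (hF.analyticOnNhd hV).eqOn_of_preconnected_of_eventuallyEq (hG.analyticOnNhd hV)
    hc.isPreconnected ht (h.eventuallyEq_of_mem
      ((hV.inter isOpen_ball).mem_nhds ⟨ht, mem_ball_zero_iff.2 ht1⟩))

theorem ext_unit {t : ℂ} (ht : 1 ≤ ‖t‖) : ‖t / ‖t‖‖ = 1 ∧ ‖t - t / ‖t‖‖ = ‖t‖ - 1 := by
  have h0 : 0 < ‖t‖ := by linarith
  have h1 : ‖t / ‖t‖‖ = 1 := by
    rw [norm_div, Complex.norm_real, norm_norm, div_self h0.ne']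
  refine ⟨h1, ?_⟩
  have h2 : (‖t‖ : ℂ) ≠ 0 := Complex.ofReal_ne_zero.2 h0.ne'
  rw [show t - t / ‖t‖ = ((‖t‖ - 1 : ℝ) : ℂ) * (t / ‖t‖) by push_cast; field_simp, norm_mul, h1,
    mul_one, Complex.norm_real, Real.norm_of_nonneg (by linarith)]

theorem ext_in {a : ℂ} (ha : ‖a‖ = 1) {r : ℝ} (hr : 0 < r) (hr1 : r ≤ 1) :
    ‖((1 - r : ℝ) : ℂ) * a‖ < 1 ∧ ‖((1 - r : ℝ) : ℂ) * a - a‖ = r := by
  constructor
  · rw [norm_mul, ha, mul_one, Complex.norm_real, Real.norm_of_nonneg (by linarith)]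
    linarith
  · rw [show ((1 - r : ℝ) : ℂ) * a - a = -((r : ℝ) * a) by push_cast; ring, norm_neg,
      norm_mul, ha, mul_one, Complex.norm_real, Real.norm_of_nonneg hr.le]

theorem ext_glue {s : ℝ} (hs : 0 < s) (hs1 : s ≤ 1) {C₀ : ℂ → ℂ}
    (h0 : DifferentiableOn ℂ C₀ (ball 0 1))
    (h : ∀ a : ℂ, ‖a‖ = 1 → ∃ C₁ : ℂ → ℂ, DifferentiableOn ℂ C₁ (ball a s) ∧
      EqOn C₁ C₀ (ball a s ∩ ball 0 1)) :
    ∃ C : ℂ → ℂ, DifferentiableOn ℂ C (ball 0 (1 + s / 4)) ∧ EqOn C C₀ (ball 0 1) ∧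
      ∀ (a : ℂ) (C₁ : ℂ → ℂ), ‖a‖ = 1 → DifferentiableOn ℂ C₁ (ball a s) →
        EqOn C₁ C₀ (ball a s ∩ ball 0 1) → EqOn C C₁ (ball a s ∩ ball 0 (1 + s / 4)) := by
  classical
  choose! F hF hF' using h
  have h1 : EqOn (fun t => if ‖t‖ < 1 then C₀ t else F (t / ‖t‖) t) C₀ (ball 0 1) :=
    fun t ht => if_pos (mem_ball_zero_iff.1 ht)
  have h2 : DifferentiableOn ℂ (fun t => if ‖t‖ < 1 then C₀ t else F (t / ‖t‖) t)
      (ball 0 (1 + s / 4)) := by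
    intro t ht
    refine DifferentiableAt.differentiableWithinAt ?_
    rcases lt_or_ge ‖t‖ 1 with h3 | h3
    · have h4 := isOpen_ball.mem_nhds (mem_ball_zero_iff.2 h3)
      exact (h0.differentiableAt h4).congr_of_eventuallyEq (h1.eventuallyEq_of_mem h4)
    · obtain ⟨a1, a2⟩ := ext_unit h3
      have a3 : t ∈ ball (t / ‖t‖) (s / 4) :=
        mem_ball_iff_norm.2 (by linarith [mem_ball_zero_iff.1 ht])
      generalize t / (‖t‖ : ℂ) = a at a1 a2 a3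
      have a4 : ball a (s / 4) ⊆ ball a s := ball_subset_ball (by linarith)
      refine ((hF a a1).differentiableAt (isOpen_ball.mem_nhds (a4 a3))).congr_of_eventuallyEq ?_
      filter_upwards [isOpen_ball.mem_nhds a3, isOpen_ball.mem_nhds ht] with v b1 b2
      split_ifs with b3
      · exact (hF' a a1 ⟨a4 b1, mem_ball_zero_iff.2 b3⟩).symm
      · obtain ⟨c1, c2⟩ := ext_unit (not_lt.1 b3)
        have c3 : ‖v - v / ‖v‖‖ < s / 4 := by linarith [mem_ball_zero_iff.1 b2]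
        generalize v / (‖v‖ : ℂ) = a' at c1 c3
        obtain ⟨d1, d2⟩ := ext_in c1 (r := s / 4) (by linarith) (by linarith)
        refine ext_agree (V := ball a' s ∩ ball a s) (isOpen_ball.inter isOpen_ball)
          ((convex_ball _ _).inter (convex_ball _ _)) ((hF a' c1).mono inter_subset_left)
          ((hF a a1).mono inter_subset_right) ⟨mem_ball_iff_norm.2 (by linarith),
            mem_ball_iff_norm.2 ?_⟩ d1
          (fun w hw => (hF' a' c1 ⟨hw.1.1, hw.2⟩).trans (hF' a a1 ⟨hw.1.2, hw.2⟩).symm)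
          ⟨mem_ball_iff_norm.2 (by linarith), a4 b1⟩
        have d3 := norm_sub_le_norm_sub_add_norm_sub (((1 - s / 4 : ℝ) : ℂ) * a') a' a
        have d4 := norm_sub_le_norm_sub_add_norm_sub a' v a
        rw [norm_sub_rev a' v] at d4
        linarith [mem_ball_iff_norm.1 b1]
  refine ⟨_, h2, h1, fun a C₁ ha c1 c2 => ?_⟩
  obtain ⟨d1, d2⟩ := ext_in ha (r := s / 2) (by linarith) (by linarith)
  exact ext_agree (isOpen_ball.inter isOpen_ball) ((convex_ball _ _).inter (convex_ball _ _))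
    (h2.mono inter_subset_right) (c1.mono inter_subset_left)
    ⟨mem_ball_iff_norm.2 (by linarith), mem_ball_zero_iff.2 (by linarith)⟩ d1
    fun w hw => (h1 hw.2).trans (c2 ⟨hw.1.1, hw.2⟩).symm

/-- A point with multiplier near the unit circle is joined to an attracting one. -/
theorem ext_bridge {E : Set (ℂ × ℂ)} {μ : ℂ × ℂ → ℂ} (hE : IsCompact E) (hμ : Continuous μ)
    {s : ℝ} (hs1 : s ≤ 1) {w₀ : ℂ} (hw : ‖w₀‖ = 1)
    (hinv : ∀ a ∈ E, ‖μ a - w₀‖ < s → μ a ≠ 1 → ∃ ψ, Root.Inv E μ a ψ) {x : ℂ × ℂ} (hx : x ∈ E)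
    (hxs : ‖μ x - w₀‖ < s) (hx1 : μ x ≠ 1) {τ : ℝ} (hτ : 0 < τ) :
    ∃ (X : Set (ℂ × ℂ)) (y : ℂ × ℂ), IsPreconnected X ∧ x ∈ X ∧ y ∈ X ∧ ‖μ y‖ < 1 ∧
      ‖μ y - w₀‖ < τ ∧ ∀ a ∈ X, a ∈ E ∧ ‖μ a - w₀‖ < s ∧ μ a ≠ 1 := by
  have hs : 0 < s := (norm_nonneg _).trans_lt hxs
  obtain ⟨v, hv⟩ : ∃ v, v = μ x - 1 := ⟨_, rfl⟩
  have hv0 : 0 < Complex.normSq v := Complex.normSq_pos.2 (hv ▸ sub_ne_zero.2 hx1)
  obtain ⟨t, ht, ht1, ht2⟩ : ∃ t > 0, t ≤ s ∧ t ≤ τ :=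
    ⟨_, lt_min hs hτ, min_le_left _ _, min_le_right _ _⟩
  obtain ⟨w, w1, w2, w3⟩ : ∃ w : ℂ, ‖w‖ < 1 ∧ ‖w - w₀‖ < t ∧
      ((w - 1) * starRingEnd ℂ v).im ≠ 0 := by
    obtain ⟨a1, a0⟩ := ext_in hw (r := t / 2) (by linarith) (by linarith)
    have a2 := a0.trans_lt (half_lt_self ht)
    generalize ((1 - t / 2 : ℝ) : ℂ) * w₀ = w at a1 a2
    by_cases a3 : ((w - 1) * starRingEnd ℂ v).im = 0
    · have hc : Tendsto (fun u : ℝ => w + u * I * v) (𝓝[≠] 0) (𝓝 w) :=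
        ((by fun_prop : Continuous fun u : ℝ => w + u * I * v).tendsto' 0 w (by simp)).mono_left
          nhdsWithin_le_nhds
      obtain ⟨u, b1, b2, b3⟩ := ((hc.norm.eventually (gt_mem_nhds a1)).and
        (((hc.sub_const w₀).norm.eventually (gt_mem_nhds a2)).and self_mem_nhdsWithin)).exists
      refine ⟨_, b1, b2, ?_⟩
      rw [show (w + u * I * v - 1) * starRingEnd ℂ v =
        (w - 1) * starRingEnd ℂ v + u * (v * starRingEnd ℂ v) * I by ring, Complex.mul_conj,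
        Complex.add_im, a3, zero_add, ← Complex.ofReal_mul, Complex.mul_I_im, Complex.ofReal_re]
      exact mul_ne_zero b3 hv0.ne'
    · exact ⟨w, a1, a2, a3⟩
  obtain ⟨A, hA⟩ : ∃ A, A = (w - 1) * starRingEnd ℂ v := ⟨_, rfl⟩
  rw [← hA] at w3
  obtain ⟨u, hu⟩ : ∃ u : ℂ, u = v * ⟨A.im ^ 2, A.im * (|A.re| + 1)⟩ := ⟨_, rfl⟩
  have hB : 0 < A.im ^ 2 := by positivity
  have hn3 : ∀ a : ℂ, a ∈ ball w₀ s → ‖a - 1‖ < 3 := fun a ha => by
    have b1 := mem_ball_iff_norm.1 ha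
    have b2 := norm_sub_le_norm_sub_add_norm_sub a w₀ 1
    have b3 := norm_sub_le w₀ 1
    rw [hw, norm_one] at b3
    linarith
  have hxV : μ x ∈ ball w₀ s ∩ Root.Hd 3 u := by
    refine ⟨mem_ball_iff_norm.2 hxs, hn3 _ (mem_ball_iff_norm.2 hxs), ?_⟩
    rw [← hv, hu, map_mul, ← mul_assoc, Complex.mul_conj, Complex.re_ofReal_mul, Complex.conj_re]
    exact mul_pos hv0 hB
  have hwV : w ∈ ball w₀ s ∩ Root.Hd 3 u := by
    have b1 := mem_ball_iff_norm.2 (w2.trans_le ht1)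
    refine ⟨b1, hn3 _ b1, ?_⟩
    rw [hu, map_mul, ← mul_assoc, ← hA, Complex.mul_re, Complex.conj_re, Complex.conj_im]
    dsimp only
    nlinarith [mul_pos hB (show 0 < A.re + (|A.re| + 1) by linarith [neg_abs_le A.re])]
  have hc := (convex_ball w₀ s).inter (Root.Hd_convex 3 u)
  obtain ⟨σ, hσ, h0⟩ := Root.sec_exists hE hμ (isOpen_ball.inter (Root.Hd_open 3 u)) hc
    (fun a ha ha' => hinv a ha (mem_ball_iff_norm.1 ha'.1) (Root.Hd_ne ha'.2)) hx hxV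
  have h2 := (hσ.2 w hwV).2
  refine ⟨_, σ w, hc.isPreconnected.image σ hσ.1, ⟨_, hxV, h0⟩, ⟨w, hwV, rfl⟩, by rwa [h2],
    by rw [h2]; linarith, ?_⟩
  rintro _ ⟨a, ha, rfl⟩
  rw [(hσ.2 a ha).2]
  exact ⟨(hσ.2 a ha).1, mem_ball_iff_norm.1 ha.1, Root.Hd_ne ha.2⟩

/-- A holomorphic family of cycles of period `n` with multiplier `t ^ e`. -/
def Good (e n : ℕ) (r : ℝ) (C : ℂ → ℂ) : Prop :=
  DifferentiableOn ℂ C (ball 0 r) ∧
    ∀ t ∈ ball (0 : ℂ) r, t ^ e ≠ 1 → ∃ b ∈ Ec e n, mu e n b = t ^ e ∧ b.1 = C t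

theorem ext_exists (he : 1 ≤ e) : ∃ ρ > 0, ρ ≤ 1 / 8 ∧ ∃ δ > 0, δ ≤ ρ ∧ ∀ n > 0, ∀ x ∈ Ec e n,
    ‖mu e n x‖ < 1 + δ → mu e n x ≠ 1 → ∃ (C : ℂ → ℂ) (t : ℂ), Good e n (1 + 2 * ρ) C ∧
      ‖t‖ < 1 + δ ∧ t ^ e = mu e n x ∧ C t = x.1 := by
  obtain ⟨κ, hκ, hκ4, hcore⟩ := inv_core he one_pos
  have hinv : ∀ n > 0, ∀ x ∈ Ec e n, |‖mu e n x‖ - 1| < κ → mu e n x ≠ 1 → ∃ ψ D,
      Root.Inv (Ec e n) (mu e n) x ψ ∧ HasDerivAt (fun v => (ψ v).1) D (mu e n x) := by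
    intro n hn a ha h1 h2
    obtain ⟨h3, h4⟩ := abs_lt.1 h1
    obtain ⟨ψ, D, a1, a2, -⟩ := hcore n hn a ha (by linarith) (by linarith) h2
    exact ⟨ψ, D, a1, a2⟩
  obtain ⟨s, hs, hs1, hpow⟩ : ∃ s > 0, s ≤ 1 ∧ ∀ a : ℂ, ‖a‖ = 1 → ∀ t ∈ ball a s,
      ‖t ^ e - a ^ e‖ < κ / 16 := by
    obtain ⟨s, hs, h⟩ := Metric.continuousAt_iff.1
      ((continuous_pow e).continuousAt (x := (1 : ℂ))) (κ / 16) (by positivity)
    refine ⟨min s 1, lt_min hs one_pos, min_le_right _ _, fun a ha t ht => ?_⟩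
    have h0 : a ≠ 0 := norm_pos_iff.1 (by rw [ha]; exact one_pos)
    have h1 := h (x := t / a) (by
      rw [dist_eq_norm, div_sub_one h0, norm_div, ha, div_one]
      exact (mem_ball_iff_norm.1 ht).trans_le (min_le_left _ _))
    rwa [dist_eq_norm, one_pow, div_pow, div_sub_one (pow_ne_zero _ h0), norm_div, norm_pow, ha,
      one_pow, div_one] at h1
  obtain ⟨ε, hε, hroot⟩ : ∃ ε > 0, ∀ u : ℂ, ‖u - 1‖ < ε → ‖u ^ (e⁻¹ : ℂ) - 1‖ < s := by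
    obtain ⟨ε, hε, h⟩ := Metric.continuousAt_iff.1
      (continuousAt_cpow_const (b := (e⁻¹ : ℂ)) Complex.one_mem_slitPlane) s hs
    exact ⟨ε, hε, fun u hu => by simpa [dist_eq_norm] using h (x := u) (by rwa [dist_eq_norm])⟩
  refine ⟨s / 8, by positivity, by linarith, min (s / 8) (κ / 8), by positivity, min_le_left _ _,
    fun n hn x hx hxδ hx1 => ?_⟩
  have hLI : ∀ z ∈ Ec e n, mu e n z = 1 → ∃ U ∈ 𝓝 z, ∀ y ∈ U, ∀ y' ∈ U, y ∈ Ec e n →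
      y' ∈ Ec e n → mu e n y ≠ 1 → mu e n y = mu e n y' → y.1 = y'.1 := fun z hz h1 => by
    have h2 := loc_inj he hn hz.1 h1
    rw [nhds_prod_eq] at h2
    obtain ⟨U, hU, V, hV, h3⟩ := eventually_prod_iff.1 h2
    refine ⟨{y | U y} ∩ {y | V y}, inter_mem hU hV, fun y hy y' hy' h4 h5 h6 h7 => ?_⟩
    exact h3 hy.1 hy'.2 (h4.2.2.resolve_left h6) (h5.2.2.resolve_left (h7 ▸ h6)) h7
  -- the family through an attracting point
  have main : ∀ y ∈ Ec e n, ‖mu e n y‖ < 1 → ∃ C : ℂ → ℂ, Good e n (1 + 2 * (s / 8)) C ∧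
      C (tau e n y) = y.1 ∧ ∀ a : ℂ, ‖a‖ = 1 → tau e n y ∈ ball a s → ∀ X : Set (ℂ × ℂ),
        IsPreconnected X → y ∈ X →
        (∀ b ∈ X, b ∈ Ec e n ∧ ‖mu e n b - a ^ e‖ < κ / 8 ∧ mu e n b ≠ 1) → ∀ b ∈ X,
          ∀ t ∈ ball a s ∩ ball 0 (1 + s / 4), t ^ e = mu e n b → C t = b.1 := by
    intro y hy hy1
    have hy2 := mem_ball_zero_iff.2 ((tau_lt he).2 hy1)
    obtain ⟨σ, hσ, h0⟩ := Root.sec_exists (Ec_compact he hn) (tau_cont e n) isOpen_ball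
      (convex_ball (0 : ℂ) 1) (fun a ha ha' => (tau_inv he hn ha (mem_ball_zero_iff.1 ha')).imp
        fun _ h => h.choose_spec.1) hy hy2
    have hμσ : ∀ t ∈ ball (0 : ℂ) 1, mu e n (σ t) = t ^ e := fun t ht => by
      rw [← tau_pow he, (hσ.2 t ht).2]
    have hd : DifferentiableOn ℂ (fun t => (σ t).1) (ball 0 1) := fun t ht => by
      obtain ⟨ψ, D, a1, a2⟩ := tau_inv he hn (hσ.2 t ht).1
        (by rw [(hσ.2 t ht).2]; exact mem_ball_zero_iff.1 ht)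
      exact (Root.sec_deriv isOpen_ball hσ ht a1 a2).differentiableAt.differentiableWithinAt
    have hX₀ : ∀ a : ℂ, ‖a‖ = 1 → IsPreconnected (σ '' (ball a s ∩ ball 0 1)) ∧
        ∀ b ∈ σ '' (ball a s ∩ ball 0 1),
          b ∈ Ec e n ∧ ‖mu e n b - a ^ e‖ < κ / 8 ∧ mu e n b ≠ 1 := fun a ha => by
      refine ⟨((convex_ball _ _).inter (convex_ball _ _)).isPreconnected.image σ
        (hσ.1.mono inter_subset_right), ?_⟩
      rintro _ ⟨t, ht, rfl⟩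
      rw [hμσ t ht.2]
      refine ⟨(hσ.2 t ht.2).1, by linarith [hpow a ha t ht.1], fun h => ?_⟩
      have := pow_lt_one₀ (norm_nonneg t) (mem_ball_zero_iff.1 ht.2) (show e ≠ 0 by omega)
      rw [← norm_pow, h, norm_one] at this
      exact this.false
    have loc : ∀ a : ℂ, ‖a‖ = 1 → ∀ X : Set (ℂ × ℂ), IsPreconnected X →
        σ '' (ball a s ∩ ball 0 1) ⊆ X →
        (∀ b ∈ X, b ∈ Ec e n ∧ ‖mu e n b - a ^ e‖ < κ / 8 ∧ mu e n b ≠ 1) → ∃ C₁ : ℂ → ℂ,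
          DifferentiableOn ℂ (fun t => C₁ (t ^ e)) (ball a s) ∧
          EqOn (fun t => C₁ (t ^ e)) (fun t => (σ t).1) (ball a s ∩ ball 0 1) ∧
          (∀ t ∈ ball a s, t ^ e ≠ 1 → ∃ b ∈ Ec e n, mu e n b = t ^ e ∧ b.1 = C₁ (t ^ e)) ∧
          ∀ b ∈ X, C₁ (mu e n b) = b.1 := fun a ha X hX hsub hXE => by
      obtain ⟨d1, d2⟩ := ext_in ha (r := s / 2) (by linarith) (by linarith)
      have d3 : ((1 - s / 2 : ℝ) : ℂ) * a ∈ ball a s ∩ ball 0 1 :=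
        ⟨mem_ball_iff_norm.2 (by linarith), mem_ball_zero_iff.2 d1⟩
      generalize ((1 - s / 2 : ℝ) : ℂ) * a = t₁ at d3
      obtain ⟨a', ρ, C₁, -, c2, -, c4, c5, c6⟩ := Root.chart (Ec_compact he hn) (mu_cont e n) hκ
        (hinv n hn) (Ec_fin he hn) hLI (w₀ := a ^ e) (by rw [norm_pow, ha, one_pow]) hX hXE
        (hsub ⟨t₁, d3, rfl⟩)
      have c7 : ∀ t ∈ ball a s, t ^ e ∈ ball a' (2 * ρ) := fun t ht => by
        have b1 := (c6 _ (hsub ⟨t₁, d3, rfl⟩)).1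
        rw [hμσ t₁ d3.2] at b1
        have b2 := norm_sub_le_norm_sub_add_norm_sub (t ^ e) (a ^ e) (t₁ ^ e)
        have b3 := norm_sub_le_norm_sub_add_norm_sub (t ^ e) (t₁ ^ e) a'
        rw [norm_sub_rev (a ^ e)] at b2
        exact mem_ball_iff_norm.2 (by linarith [hpow a ha t ht, hpow a ha t₁ d3.1])
      refine ⟨C₁, c4.comp (differentiableOn_pow e) c7, fun t ht => ?_,
        fun t ht => c5 _ (c7 t ht), fun b hb => (c6 b hb).2⟩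
      have b1 := (c6 _ (hsub ⟨t, ht, rfl⟩)).2
      rwa [hμσ t ht.2] at b1
    obtain ⟨C, g1, g2, g3⟩ := ext_glue hs hs1 hd fun a ha => by
      obtain ⟨C₁, c1, c2, -⟩ := loc a ha _ (hX₀ a ha).1 subset_rfl (hX₀ a ha).2
      exact ⟨_, c1, c2⟩
    rw [show 1 + 2 * (s / 8) = 1 + s / 4 by ring]
    refine ⟨C, ⟨g1, fun t ht h1 => ?_⟩, by rw [g2 hy2]; exact congrArg Prod.fst h0,
      fun a ha hya X hX hyX hXE b hb t ht htb => ?_⟩
    · rcases lt_or_ge ‖t‖ 1 with h3 | h3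
      · have h4 := mem_ball_zero_iff.2 h3
        exact ⟨σ t, (hσ.2 t h4).1, hμσ t h4, (g2 h4).symm⟩
      · obtain ⟨a1, a2⟩ := ext_unit h3
        have a3 : t ∈ ball (t / ‖t‖) s := mem_ball_iff_norm.2 (by linarith [mem_ball_zero_iff.1 ht])
        obtain ⟨C₁, c1, c2, c3, -⟩ := loc _ a1 _ (hX₀ _ a1).1 subset_rfl (hX₀ _ a1).2
        rw [g3 _ _ a1 c1 c2 ⟨a3, ht⟩]
        exact c3 t a3 h1
    · obtain ⟨C₁, c1, c2, -, c4⟩ := loc a ha (X ∪ σ '' (ball a s ∩ ball 0 1))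
        (hX.union y hyX ⟨_, ⟨hya, hy2⟩, h0⟩ (hX₀ a ha).1) subset_union_right
        fun b hb => hb.elim (hXE b) ((hX₀ a ha).2 b)
      rw [g3 _ _ ha c1 c2 ht]
      dsimp only
      rw [htb]
      exact c4 b (Or.inl hb)
  have hδ0 : 0 < min (s / 8) (κ / 8) := by positivity
  rcases lt_or_ge ‖mu e n x‖ 1 with h1 | h1
  · obtain ⟨C, c1, c2, -⟩ := main x hx h1
    exact ⟨C, _, c1, by linarith [(tau_lt he).2 h1], tau_pow he n x, c2⟩
  · obtain ⟨a1, a2⟩ := ext_unit h1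
    have a3 : mu e n x = ‖mu e n x‖ * (mu e n x / ‖mu e n x‖) :=
      (mul_div_cancel₀ _ (Complex.ofReal_ne_zero.2 (by linarith))).symm
    generalize mu e n x / (‖mu e n x‖ : ℂ) = w₀ at a1 a2 a3
    obtain ⟨X, y, b1, b2, b3, b4, b5, b6⟩ := ext_bridge (Ec_compact he hn) (mu_cont e n)
      (s := κ / 8) (by linarith) a1 (fun a ha h2 h3 => (hinv n hn a ha
        (by rw [← a1]; exact (abs_norm_sub_norm_le _ _).trans_lt (by linarith)) h3).imp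
          fun _ h => h.choose_spec.1) hx (by linarith [min_le_right (s / 8) (κ / 8)]) hx1
      (τ := min (ε / 2) (1 / 2)) (by positivity)
    have b7 : 1 / 2 < ‖mu e n y‖ := by
      have := norm_sub_norm_le w₀ (mu e n y)
      rw [norm_sub_rev] at this
      linarith [min_le_right (ε / 2) (1 / 2)]
    have b8 : mu e n y ≠ 0 := norm_pos_iff.1 (by linarith)
    have b9 := hroot (w₀ / mu e n y) (by
      rw [div_sub_one b8, norm_div, norm_sub_rev, div_lt_iff₀ (by linarith)]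
      nlinarith [min_le_left (ε / 2) (1 / 2)])
    obtain ⟨a, ha⟩ : ∃ a, a = tau e n y * (w₀ / mu e n y) ^ (e⁻¹ : ℂ) := ⟨_, rfl⟩
    have c1 : a ^ e = w₀ := by
      rw [ha, mul_pow, tau_pow he, Complex.cpow_nat_inv_pow _ (by omega), mul_div_cancel₀ _ b8]
    have c2 : ‖a‖ = 1 := (pow_eq_one_iff_of_nonneg (norm_nonneg _) (show e ≠ 0 by omega)).1
      (by rw [← norm_pow, c1, a1])
    have c3 : tau e n y ∈ ball a s := by
      rw [mem_ball_iff_norm, norm_sub_rev, ha, ← mul_sub_one, norm_mul]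
      exact (mul_le_of_le_one_left (norm_nonneg _) ((tau_lt he).2 b4).le).trans_lt b9
    obtain ⟨C, d1, -, d2⟩ := main y (b6 y b3).1 b4
    obtain ⟨r, r1, r2, r3⟩ : ∃ r : ℝ, 1 ≤ r ∧ r ≤ ‖mu e n x‖ ∧ r ^ e = ‖mu e n x‖ := by
      have r3 := Real.rpow_inv_natCast_pow (norm_nonneg (mu e n x)) (show e ≠ 0 by omega)
      have r1 : 1 ≤ ‖mu e n x‖ ^ (e⁻¹ : ℝ) := Real.one_le_rpow h1 (by positivity)
      exact ⟨_, r1, (le_self_pow₀ r1 (by omega)).trans_eq r3, r3⟩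
    have d3 : ‖(r : ℂ) * a‖ = r := by
      rw [norm_mul, c2, mul_one, Complex.norm_real, Real.norm_of_nonneg (by linarith)]
    have d4 : ((r : ℂ) * a) ^ e = mu e n x := by
      rw [mul_pow, c1, ← Complex.ofReal_pow, r3, ← a3]
    have d5 := min_le_left (s / 8) (κ / 8)
    refine ⟨C, r * a, d1, by linarith, d4, d2 a c2 c3 X b1 b3 (by rwa [c1]) x b2 _
      ⟨mem_ball_iff_norm.2 ?_, mem_ball_zero_iff.2 (by linarith)⟩ d4⟩
    rw [show (r : ℂ) * a - a = ((r - 1 : ℝ) : ℂ) * a by push_cast; ring, norm_mul, c2, mul_one,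
      Complex.norm_real, Real.norm_of_nonneg (by linarith)]
    linarith

theorem Good.bound (he : 1 ≤ e) {n : ℕ} (hn : 0 < n) {r : ℝ} {C : ℂ → ℂ} (h : Good e n r C)
    {t : ℂ} (ht : t ∈ ball (0 : ℂ) r) : ‖C t‖ ≤ 4 := by
  have h1 : ({v : ℂ | v ^ e = 1} \ {t}).Finite :=
    ((Polynomial.nthRootsFinset e (1 : ℂ)).finite_toSet.subset fun v hv =>
      (Polynomial.mem_nthRootsFinset (by omega) _).2 hv).sdiff
  refine le_of_tendsto (x := 𝓝[≠] t) ((h.1.differentiableAt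
    (isOpen_ball.mem_nhds ht)).continuousAt.norm.tendsto.mono_left nhdsWithin_le_nhds) ?_
  filter_upwards [mem_nhdsWithin_of_mem_nhds (isOpen_ball.mem_nhds ht),
    mem_nhdsWithin_of_mem_nhds (h1.isClosed.isOpen_compl.mem_nhds fun h2 => h2.2 rfl),
    self_mem_nhdsWithin] with v h2 h3 h4
  obtain ⟨b, b1, -, b3⟩ := h.2 v h2 fun h5 => h3 ⟨h5, h4⟩
  exact b3 ▸ (sec_bound he hn b1.1 (b1.2.1.trans_lt (by norm_num))).1

theorem ext_small (he : 1 ≤ e) {ρ : ℝ} (hρ : 0 < ρ) (hρ1 : ρ ≤ 1) : ∃ η : ℕ → ℝ,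
    Tendsto η atTop (𝓝 0) ∧ ∀ n > 0, ∀ C, Good e n (1 + 2 * ρ) C →
      ∀ t : ℂ, ‖t‖ < 1 + ρ → ‖deriv C t‖ ≤ η n := by
  have hmem : ∀ a : ℂ, ‖a‖ = 1 → ∀ u ∈ ball (0 : ℂ) 2,
      a + ρ * a * u ∈ ball (0 : ℂ) (1 + 2 * ρ) := fun a ha u hu => by
    have h1 := norm_add_le a (ρ * a * u)
    rw [norm_mul, norm_mul, ha, Complex.norm_real, Real.norm_of_nonneg hρ.le] at h1
    rw [mem_ball_zero_iff]
    nlinarith [mem_ball_zero_iff.1 hu]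
  have hin : ∀ a : ℂ, ‖a‖ = 1 → ∀ u ∈ ball (-1 : ℂ) (1 / 2),
      ‖a + ρ * a * u‖ < 1 := fun a ha u hu => by
    have h1 := norm_add_le (((1 - ρ : ℝ) : ℂ) * a) (ρ * a * (u - -1))
    rw [show ((1 - ρ : ℝ) : ℂ) * a + ρ * a * (u - -1) = a + ρ * a * u by push_cast; ring, norm_mul,
      norm_mul, norm_mul, ha, Complex.norm_real, Complex.norm_real, Real.norm_of_nonneg hρ.le,
      Real.norm_of_nonneg (by linarith)] at h1
    nlinarith [mem_ball_iff_norm.1 hu]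
  have hatt : ∀ n C, Good e n (1 + 2 * ρ) C → ∀ t : ℂ, ‖t‖ < 1 →
      ∃ z, Function.minimalPeriod (fq e (C t)) z = n ∧ ‖Pd e (C t) z n‖ < 1 := fun n C h t ht => by
    have h1 := pow_lt_one₀ (norm_nonneg t) ht (show e ≠ 0 by omega)
    rw [← norm_pow] at h1
    obtain ⟨b, b1, b2, b3⟩ := h.2 t (mem_ball_zero_iff.2 (by linarith))
      fun h2 => by rw [h2, norm_one] at h1; exact h1.false
    rw [← b2] at h1
    exact ⟨b.2, b3 ▸ Ec_per b1 h1, b3 ▸ h1⟩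
  obtain ⟨b, -, b1, b2⟩ := Root.shrink' (R := 4) (P := fun n F => 0 < n ∧ ∃ (a : ℂ) (C : ℂ → ℂ),
      ‖a‖ = 1 ∧ Good e n (1 + 2 * ρ) C ∧ F = fun u => C (a + ρ * a * u)) (by
    rintro n _ ⟨hn, a, C, c1, c2, rfl⟩
    exact ⟨c2.1.comp (by fun_prop) (hmem a c1), fun u hu => c2.bound he hn (hmem a c1 u hu)⟩) (by
    rintro n m _ _ ⟨hn, a, C, c1, c2, rfl⟩ ⟨hm, a', C', d1, d2, rfl⟩ u hu v hv huv
    obtain ⟨z, z1, z2⟩ := hatt n C c2 _ (hin a c1 u hu)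
    obtain ⟨w, w1, w2⟩ := hatt m C' d2 _ (hin a' d1 v hv)
    dsimp only at huv
    rw [huv] at z1 z2
    exact att_per he hn hm z1 w1 z2 w2)
  refine ⟨fun n => b n / ρ, by simpa using b1.div_const ρ, fun n hn C hC t ht => ?_⟩
  have h1 : max 1 ‖t‖ < 1 + ρ := max_lt (by linarith) ht
  refine max_disc (x := 0) (s := max 1 ‖t‖) (R := 1 + 2 * ρ) (by positivity) (by linarith)
    (hC.1.deriv isOpen_ball) (fun v hv => ?_) t (by simp)
  rw [sub_zero] at hv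
  obtain ⟨a1, a2⟩ := ext_unit (hv ▸ le_max_left 1 ‖t‖)
  generalize v / (‖v‖ : ℂ) = a at a1 a2
  have hne : (ρ : ℂ) * a ≠ 0 :=
    mul_ne_zero (Complex.ofReal_ne_zero.2 hρ.ne') (norm_pos_iff.1 (by rw [a1]; exact one_pos))
  have hnm : ‖(ρ : ℂ) * a‖ = ρ := by
    rw [norm_mul, a1, mul_one, Complex.norm_real, Real.norm_of_nonneg hρ.le]
  have h2 := b2 n _ ⟨hn, a, C, a1, hC, rfl⟩ ((v - a) / (ρ * a)) (by
    rw [mem_ball_zero_iff, norm_div, hnm, div_lt_one hρ]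
    linarith)
  have h3 : a + ρ * a * ((v - a) / (ρ * a)) = v := by rw [mul_div_cancel₀ _ hne, add_sub_cancel]
  have h4 : HasDerivAt C (deriv C v) (a + ρ * a * ((v - a) / (ρ * a))) := by
    rw [h3]
    exact (hC.1.differentiableAt (isOpen_ball.mem_nhds
      (mem_ball_zero_iff.2 (by linarith)))).hasDerivAt
  have h5 : HasDerivAt (fun u => C (a + ρ * a * u)) (deriv C v * (ρ * a * 1))
      ((v - a) / (ρ * a)) :=
    HasDerivAt.comp (h := fun u => a + ρ * a * u) _ h4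
      (((hasDerivAt_id _).const_mul (ρ * a)).const_add a)
  rw [h5.deriv, mul_one, norm_mul, hnm] at h2
  exact (le_div_iff₀ hρ).2 h2

theorem extension (he : 1 ≤ e) : ∃ (δ : ℝ) (η : ℕ → ℝ), 0 < δ ∧ Tendsto η atTop (𝓝 0) ∧
    ∀ n > 0, ∀ x ∈ Per e n, ‖mu e n x‖ < 1 + δ → mu e n x ≠ 1 → ∃ (C : ℂ → ℂ) (t₀ : ℂ),
      DifferentiableOn ℂ C (ball 0 (1 + δ)) ∧ ‖t₀‖ < 1 + δ ∧ t₀ ^ e = mu e n x ∧ C t₀ = x.1 ∧
      ∀ t : ℂ, ‖t‖ < 1 + δ → ‖deriv C t‖ ≤ η n ∧ (t ^ e ≠ 1 → ∃ u,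
        Function.minimalPeriod (fq e (C t)) u = n ∧ Pd e (C t) u n = t ^ e ∧
        (‖t‖ < 1 → Tendsto (fun k : ℕ => (fq e (C t))^[n * k] 0) atTop (𝓝 u))) := by
  obtain ⟨ρ, hρ, hρ1, δ, hδ, hδρ, h⟩ := ext_exists he
  obtain ⟨η, hη, h'⟩ := ext_small he hρ (by linarith)
  refine ⟨δ, η, hδ, hη, fun n hn x hx h1 h2 => ?_⟩
  obtain ⟨C, t₀, c1, c2, c3, c4⟩ := h n hn x ⟨Per.fix hx, by linarith, Or.inr hx⟩ h1 h2
  refine ⟨C, t₀, c1.1.mono (ball_subset_ball (by linarith)), c2, c3, c4, fun t ht =>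
    ⟨h' n hn C c1 t (by linarith), fun h3 => ?_⟩⟩
  obtain ⟨b, b1, b2, b3⟩ := c1.2 t (mem_ball_zero_iff.2 (by linarith)) h3
  have b4 : Function.minimalPeriod (fq e b.1) b.2 = n := b1.2.2.resolve_left (b2 ▸ h3)
  rw [← b3]
  by_cases h4 : ‖t‖ < 1
  · have h5 := pow_lt_one₀ (norm_nonneg t) h4 (show e ≠ 0 by omega)
    rw [← norm_pow, ← b2] at h5
    obtain ⟨u, u1, u2, u3⟩ := fatou' he hn b4 h5
    exact ⟨u, u1, u2.trans b2, fun _ => u3⟩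
  · exact ⟨b.2, b4, b2, fun h5 => absurd h5 h4⟩

end Pool.Agent.MP_28f8a1_an.Mlc
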