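import Pool.Agent.MP_28f8a1_an.Mlc.Bot1

/-! Periodic rays land. -/

set_option autoImplicit false

namespace Pool.Agent.MP_28f8a1_an.Mlc

open MeasureTheory Metric Set Real Filter Topology Pool.Agent.MP_28f8a1_an.H42
open Complex (I)

variable {e : ℕ}

/-- A bounded holomorphic map with large scaled derivative covers a disc of definite size. -/
theorem land_cover {f : ℂ → ℂ} {w : ℂ} {s B ε : ℝ} (hs : 0 < s) (hB : 0 < B) (hε : 0 < ε)
    (hεB : ε ≤ B) (hd : DifferentiableOn ℂ f (ball w s)) (hi : InjOn f (ball w s))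
    (hb : ∀ z ∈ ball w s, ‖f z‖ ≤ B) (hw : ε ≤ s * ‖deriv f w‖) :
    ball (f w) (ε ^ 2 / (32 * B)) ⊆ f '' closedBall w (s / 2) := by
  have hws : w ∈ ball w s := mem_ball_self hs
  have h1 : MapsTo f (ball w s) (closedBall (f w) (2 * B)) := fun z hz => by
    rw [mem_closedBall, dist_eq_norm]
    exact (norm_sub_le _ _).trans (by linarith [hb z hz, hb w hws])
  have h2 : ∀ z ∈ ball w s, ‖dslope f w z‖ ≤ 2 * B / s := fun z hz =>
    Complex.norm_dslope_le_div_of_mapsTo_ball hd h1 hz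
  have hg : DifferentiableOn ℂ (dslope f w) (ball w s) :=
    (Complex.differentiableOn_dslope (ball_mem_nhds w hs)).mpr hd
  have h3 : MapsTo (dslope f w) (ball w s) (closedBall (dslope f w w) (2 * (2 * B / s))) :=
    fun z hz => by
      rw [mem_closedBall, dist_eq_norm]
      exact (norm_sub_le _ _).trans (by linarith [h2 z hz, h2 w hws])
  set τ := ε / (8 * B) with hτ
  have hτ0 : 0 < τ := by positivity
  have hτ1 : τ ≤ 1 / 8 := by
    rw [hτ, div_le_div_iff₀ (by positivity) (by norm_num)]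
    linarith
  have hr : 0 < τ * s := by positivity
  have hrs : τ * s < s := by nlinarith
  have hsub : closedBall w (τ * s) ⊆ ball w s := closedBall_subset_ball hrs
  have hdc : DiffContOnCl ℂ f (ball w (τ * s)) :=
    DifferentiableOn.diffContOnCl (by
      rw [closure_ball w hr.ne']
      exact hd.mono hsub)
  have hsp : ∀ z ∈ sphere w (τ * s), ε ^ 2 / (16 * B) ≤ ‖f z - f w‖ := by
    intro z hz
    have hzs : z ∈ ball w s := hsub (sphere_subset_closedBall hz)
    have hz' : ‖z - w‖ = τ * s := by rwa [mem_sphere, dist_eq_norm] at hz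
    have h4 := Complex.dist_le_div_mul_dist_of_mapsTo_ball hg h3 hzs
    rw [dist_eq_norm, dist_eq_norm, hz', dslope_same] at h4
    have h5 : f z - f w = (z - w) * dslope f w z := by
      rw [← smul_eq_mul, sub_smul_dslope]
    have h6 : 2 * (2 * B / s) / s * (τ * s) = ε / (2 * s) := by
      rw [hτ]; field_simp; ring
    have h7 : ε / s ≤ ‖deriv f w‖ := by
      rw [div_le_iff₀ hs]; linarith
    have h8 : ε / (2 * s) ≤ ‖dslope f w z‖ := by
      have := norm_sub_norm_le (deriv f w) (dslope f w z)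
      rw [norm_sub_rev] at this
      have h9 : ε / s = 2 * (ε / (2 * s)) := by field_simp
      linarith
    rw [h5, norm_mul, hz']
    calc ε ^ 2 / (16 * B) = τ * s * (ε / (2 * s)) := by rw [hτ]; field_simp; ring
      _ ≤ _ := by gcongr
  have hfr : ∃ᶠ z in 𝓝 w, f z ≠ f w := by
    have : ∀ᶠ z in 𝓝[≠] w, f z ≠ f w := by
      filter_upwards [self_mem_nhdsWithin, mem_nhdsWithin_of_mem_nhds (ball_mem_nhds w hs)]
        with z hz hz' h using hz (hi hz' hws h)
    exact this.frequently.filter_mono nhdsWithin_le_nhds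
  have := hdc.ball_subset_image_closedBall hr hsp hfr
  rw [show ε ^ 2 / (16 * B) / 2 = ε ^ 2 / (32 * B) by field_simp; ring] at this
  exact this.trans (image_mono (closedBall_subset_closedBall (by nlinarith)))

/-- The scaled derivative tends to zero at the unit circle. -/
theorem land_deriv {ψ : ℂ → ℂ} (dψ : DifferentiableOn ℂ ψ {w | 1 < ‖w‖})
    (iψ : InjOn ψ {w | 1 < ‖w‖}) (bψ : ∀ w : ℂ, 1 < ‖w‖ → ‖ψ w‖ ≤ 2 * ‖w‖)
    {ε : ℝ} (hε : 0 < ε) :
    ∃ δ > 0, ∀ w : ℂ, 1 < ‖w‖ → ‖w‖ < 1 + δ → (‖w‖ - 1) * ‖deriv ψ w‖ < ε := by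
  wlog hε1 : ε ≤ 6 generalizing ε
  · obtain ⟨δ, hδ, h⟩ := this (ε := 6) (by norm_num) le_rfl
    exact ⟨δ, hδ, fun w h1 h2 => (h w h1 h2).trans (by linarith)⟩
  by_contra hcon
  push Not at hcon
  have hseq : ∀ k : ℕ, ∃ w : ℂ, 1 < ‖w‖ ∧ ‖w‖ < 1 + 1 / ((k : ℝ) + 1) ∧
      ε ≤ (‖w‖ - 1) * ‖deriv ψ w‖ := fun k => hcon _ (by positivity)
  choose w hw1 hw2 hw3 using hseq
  have hw4 : ∀ k, ‖w k‖ < 2 := fun k => by
    have : 1 / ((k : ℝ) + 1) ≤ 1 := by
      rw [div_le_one (by positivity)]; linarith [Nat.cast_nonneg (α := ℝ) k]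
    linarith [hw2 k]
  have hball : ∀ k, ball (w k) (‖w k‖ - 1) ⊆ {z : ℂ | 1 < ‖z‖} := fun k z hz => by
    rw [mem_ball, dist_eq_norm] at hz
    have := norm_sub_norm_le (w k) z
    rw [norm_sub_rev] at this
    show 1 < ‖z‖
    linarith
  have hcov : ∀ k, ball (ψ (w k)) (ε ^ 2 / (32 * 6)) ⊆
      ψ '' closedBall (w k) ((‖w k‖ - 1) / 2) := fun k =>
    land_cover (by linarith [hw1 k]) (by norm_num) hε hε1 (dψ.mono (hball k))
      (iψ.mono (hball k)) (fun z hz => by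
        refine (bψ z (hball k hz)).trans ?_
        rw [mem_ball, dist_eq_norm] at hz
        have := norm_sub_norm_le z (w k)
        linarith [hw4 k]) (hw3 k)
  obtain ⟨a, -, φ, hφ, hlim⟩ := (isCompact_closedBall (0 : ℂ) 4).tendsto_subseq
    (x := fun k => ψ (w k)) (fun k => by
      rw [mem_closedBall, dist_zero_right]
      linarith [bψ _ (hw1 k), hw4 k])
  have hc : 0 < ε ^ 2 / (32 * 6) / 2 := by positivity
  obtain ⟨N, hN⟩ := (Metric.tendsto_atTop.mp hlim) _ hc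
  have hpos : 0 < (‖w (φ N)‖ - 1) / 2 := by linarith [hw1 (φ N)]
  obtain ⟨k, hk⟩ := exists_nat_one_div_lt hpos
  set j := max N k with hj
  have h1 : ψ (w (φ j)) ∈ ball (ψ (w (φ N))) (ε ^ 2 / (32 * 6)) := by
    have a1 := hN N le_rfl
    have a2 := hN j (le_max_left _ _)
    rw [mem_ball]
    calc _ ≤ dist (ψ (w (φ j))) a + dist (ψ (w (φ N))) a := dist_triangle_right _ _ _
      _ < _ := by
        simp only [Function.comp] at a1 a2
        linarith
  obtain ⟨z, hz, hzeq⟩ := hcov _ h1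
  rw [mem_closedBall, dist_eq_norm] at hz
  have hz1 : (‖w (φ N)‖ + 1) / 2 ≤ ‖z‖ := by
    have := norm_sub_norm_le (w (φ N)) z
    rw [norm_sub_rev] at this
    linarith
  have hzw : z = w (φ j) := iψ (show 1 < ‖z‖ by linarith) (hw1 _) hzeq
  have h2 : 1 / ((φ j : ℝ) + 1) ≤ 1 / ((k : ℝ) + 1) := by
    have : k ≤ φ j := (le_max_right N k).trans (hφ.id_le j)
    gcongr
  have := hw2 (φ j)
  rw [← hzw] at this
  linarith

/-- A bounded continuous path whose displacement under `F` tends to zero converges to a fixed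
point of `F`, if there are finitely many of them. -/
theorem land_path {F : ℂ → ℂ} {γ : ℝ → ℂ} {B : ℝ} (hF : Continuous F)
    (hfin : {z | F z = z}.Finite) (hγ : ContinuousOn γ (Ioi 1))
    (hb : ∀ᶠ r in 𝓝[>] (1 : ℝ), ‖γ r‖ ≤ B)
    (hlim : Tendsto (fun r => F (γ r) - γ r) (𝓝[>] 1) (𝓝 0)) :
    ∃ z, F z = z ∧ Tendsto γ (𝓝[>] 1) (𝓝 z) := by
  obtain ⟨z, -, hz⟩ := (isCompact_closedBall (0 : ℂ) B).exists_mapClusterPt
    (f := 𝓝[>] (1 : ℝ)) (u := γ) (by
      rw [le_principal_iff, mem_map]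
      filter_upwards [hb] with r hr
      simpa using hr)
  have hG : Continuous fun x => F x - x := hF.sub continuous_id
  have hz0 : F z = z := by
    have h1 : MapClusterPt (F z - z) (𝓝[>] (1 : ℝ)) ((fun x => F x - x) ∘ γ) :=
      hz.continuousAt_comp hG.continuousAt
    have h2 : ClusterPt (F z - z) (𝓝 0) := ClusterPt.mono h1 hlim
    exact sub_eq_zero.mp (eq_of_nhds_neBot h2)
  refine ⟨z, hz0, ?_⟩
  have hiso : ∀ᶠ x in 𝓝 z, x ∉ ({z | F z = z} \ {z}) :=
    (hfin.subset sdiff_subset).isClosed.isOpen_compl.mem_nhds (by simp)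
  obtain ⟨η, hη, hη'⟩ := Metric.eventually_nhds_iff.mp hiso
  rw [Metric.tendsto_nhds]
  intro ε hε
  wlog hεη : ε < η generalizing ε
  · filter_upwards [this (η / 2) (by linarith) (by linarith)] with r hr
    linarith
  obtain ⟨x, hx, hmin⟩ := (isCompact_sphere z ε).exists_isMinOn
    (NormedSpace.sphere_nonempty.mpr hε.le) hG.norm.continuousOn
  have hx0 : 0 < ‖F x - x‖ := by
    rw [mem_sphere] at hx
    refine norm_pos_iff.mpr (sub_ne_zero.mpr fun h => hη' (hx.trans_lt hεη) ⟨h, fun h' => ?_⟩)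
    rw [mem_singleton_iff] at h'
    rw [h', dist_self] at hx
    exact hε.ne hx
  have hev : ∀ᶠ r in 𝓝[>] (1 : ℝ), dist (γ r) z ≠ ε := by
    filter_upwards [Metric.tendsto_nhds.mp hlim _ hx0] with r hr h
    rw [dist_zero_right] at hr
    exact absurd (hmin (show γ r ∈ sphere z ε from h)) (not_le.mpr hr)
  obtain ⟨t, ht, hsub⟩ := mem_nhdsGT_iff_exists_Ioo_subset.mp hev
  have hI : Ioo 1 t ∈ 𝓝[>] (1 : ℝ) := Ioo_mem_nhdsGT ht
  obtain ⟨r0, hr0, hr0'⟩ := ((mapClusterPt_iff_frequently.mp hz) _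
    (ball_mem_nhds z hε)).and_eventually hI |>.exists
  filter_upwards [hI] with r hr
  by_contra hcon
  have hc : ContinuousOn (fun r => dist (γ r) z) (Ioo 1 t) :=
    (continuous_id.dist continuous_const).comp_continuousOn (hγ.mono Ioo_subset_Ioi_self)
  obtain ⟨u, hu, hu'⟩ := isPreconnected_Ioo.intermediate_value hr0' hr hc
    (show ε ∈ Icc (dist (γ r0) z) (dist (γ r) z) from ⟨le_of_lt hr0, not_lt.mp hcon⟩)
  exact hsub hu hu'

/-- A ray that is mapped into itself lands at a fixed point. -/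
theorem land_ray {ψ F : ℂ → ℂ} {D : ℕ} (hD : 1 ≤ D) (hF : Continuous F)
    (hfin : {z | F z = z}.Finite) (dψ : DifferentiableOn ℂ ψ {w | 1 < ‖w‖})
    (iψ : InjOn ψ {w | 1 < ‖w‖}) (bψ : ∀ w : ℂ, 1 < ‖w‖ → ‖ψ w‖ ≤ 2 * ‖w‖)
    (sψ : ∀ w : ℂ, 1 < ‖w‖ → ψ (w ^ D) = F (ψ w)) {θ : ℝ} {m : ℤ}
    (hθ : (D : ℝ) * θ = θ + m) :
    ∃ z, F z = z ∧ Tendsto (fun r : ℝ => ψ (r * Complex.exp (2 * Real.pi * Complex.I * θ)))
      (𝓝[>] 1) (𝓝 z) := by
  set u := Complex.exp (2 * Real.pi * Complex.I * θ) with hu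
  have hu1 : ‖u‖ = 1 := by
    rw [hu, show (2 * Real.pi * Complex.I * θ : ℂ) = ((2 * Real.pi * θ : ℝ) : ℂ) * Complex.I by
      push_cast; ring, Complex.norm_exp_ofReal_mul_I]
  have huD : u ^ D = u := by
    have h1 : (D : ℂ) * θ = θ + m := by exact_mod_cast hθ
    rw [hu, ← Complex.exp_nat_mul, show (D : ℂ) * (2 * Real.pi * Complex.I * θ) =
      2 * Real.pi * Complex.I * θ + m * (2 * Real.pi * Complex.I) by
        linear_combination (2 * Real.pi * Complex.I) * h1, Complex.exp_add,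
      Complex.exp_int_mul_two_pi_mul_I, mul_one]
  have hn : ∀ r : ℝ, 1 < r → ‖(r : ℂ) * u‖ = r := fun r hr => by
    rw [norm_mul, hu1, mul_one, Complex.norm_real, Real.norm_of_nonneg (by linarith)]
  have hop : IsOpen {w : ℂ | 1 < ‖w‖} := isOpen_lt continuous_const continuous_norm
  have hder : ∀ r : ℝ, 1 < r → HasDerivAt (fun r : ℝ => ψ (r * u)) (deriv ψ (r * u) * u) r := by
    intro r hr
    have h1 : HasDerivAt ψ (deriv ψ (r * u)) (r * u) :=
      (dψ.differentiableAt (hop.mem_nhds (show 1 < ‖(r : ℂ) * u‖ by rwa [hn r hr]))).hasDerivAt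
    have h2 : HasDerivAt (fun x : ℂ => ψ (x * u)) (deriv ψ (r * u) * u) r :=
      h1.comp (r : ℂ) (hasDerivAt_mul_const u)
    exact h2.comp_ofReal
  refine land_path (B := 4) hF hfin
    (fun r hr => (hder r hr).continuousAt.continuousWithinAt) ?_ ?_
  · filter_upwards [Ioo_mem_nhdsGT (show (1 : ℝ) < 2 by norm_num)] with r hr
    have := bψ (r * u) (by rw [hn r hr.1]; exact hr.1)
    rw [hn r hr.1] at this
    linarith [hr.2]
  rw [Metric.tendsto_nhds]
  intro ε hε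
  set C : ℝ := D * 2 ^ D + 1 with hC
  have hC0 : 0 < C := by positivity
  obtain ⟨δ, hδ, h⟩ := land_deriv dψ iψ bψ (ε := ε / C) (by positivity)
  have hpow : ∀ᶠ r in 𝓝[>] (1 : ℝ), r ^ D < 1 + δ := by
    have : Tendsto (fun r : ℝ => r ^ D) (𝓝 1) (𝓝 (1 ^ D)) := (continuous_pow D).tendsto 1
    exact (this.eventually (gt_mem_nhds (by rw [one_pow]; linarith))).filter_mono
      nhdsWithin_le_nhds
  filter_upwards [hpow, Ioo_mem_nhdsGT (show (1 : ℝ) < 2 by norm_num)] with r hr hr'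
  have hr1 := hr'.1
  have hle : r ≤ r ^ D := le_self_pow₀ hr1.le (by omega)
  rw [dist_zero_right, ← sψ _ (by rwa [hn r hr1]), mul_pow, huD, ← Complex.ofReal_pow]
  have hmv := norm_image_sub_le_of_norm_deriv_le_segment' (f := fun r : ℝ => ψ (r * u))
    (f' := fun r : ℝ => deriv ψ (r * u) * u) (a := r) (b := r ^ D) (C := ε / C / (r - 1))
    (fun x hx => (hder x (hr1.trans_le hx.1)).hasDerivWithinAt) (fun x hx => by
      have hx1 : 1 < x := hr1.trans_le hx.1
      have := h (x * u) (by rwa [hn x hx1]) (by rw [hn x hx1]; linarith [hx.2])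
      rw [hn x hx1] at this
      rw [norm_mul, hu1, mul_one, le_div_iff₀ (by linarith)]
      nlinarith [norm_nonneg (deriv ψ (x * u)), hx.1]) (r ^ D) ⟨hle, le_rfl⟩
  refine hmv.trans_lt ?_
  have h3 : r ^ D - 1 ≤ D * 2 ^ D * (r - 1) := by
    have := abs_pow_sub_pow_le r 1 D
    rw [one_pow, abs_of_pos (by linarith : 0 < r - 1), abs_of_pos (by linarith : 0 < r), abs_one,
      max_eq_left hr1.le] at this
    have h4 : r ^ (D - 1) ≤ 2 ^ D :=
      (pow_le_pow_left₀ (by linarith) hr'.2.le _).trans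
        (pow_le_pow_right₀ (by norm_num) (by omega))
    calc r ^ D - 1 ≤ |r ^ D - 1| := le_abs_self _
      _ ≤ (r - 1) * D * r ^ (D - 1) := this
      _ ≤ (r - 1) * D * 2 ^ D := by gcongr
      _ = _ := by ring
  rw [div_mul_eq_mul_div, div_lt_iff₀ (by linarith), div_mul_eq_mul_div, div_lt_iff₀ hC0, hC]
  nlinarith [mul_pos hε (show 0 < r - 1 by linarith)]

theorem ray_land (he : 1 ≤ e) {c : ℂ} (hc : ‖c‖ ≤ 2) {ψ : ℂ → ℂ} (h : Bot e c ψ) {N : ℕ}
    (hN : 0 < N) {θ : ℝ} {m : ℤ} (hθ : ((e + 1 : ℕ) : ℝ) ^ N * θ = θ + m) :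
    ∃ z, (fq e c)^[N] z = z ∧ Lands ψ θ z :=
  land_ray (D := (e + 1) ^ N) (Nat.one_le_pow _ _ (by omega)) (iter_diff N).continuous
    (t1323_roots he hN c) h.diff h.inj (fun _ hw => h.bound he hc hw)
    (fun _ hw => h.iter he N hw) (m := m) (by rw [Nat.cast_pow]; exact hθ)

end Pool.Agent.MP_28f8a1_an.Mlc
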