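import Pool.Agent.MP_28f8a1_an.Mlc.Defs

/-! A parameter with a global inverse Boettcher map lies in the Multibrot set. -/

set_option autoImplicit false

namespace Pool.Agent.MP_28f8a1_an.Mlc

open MeasureTheory Metric Set Real Filter Topology Pool.Agent.MP_28f8a1_an.H42
open Complex (I)

variable {e : ℕ}

theorem mem_far {ψ : ℂ → ℂ} (hd : DifferentiableOn ℂ ψ {w | 1 < ‖w‖})
    (ha : Tendsto (fun w => ψ w / w) (Bornology.cobounded ℂ) (𝓝 1)) :
    ∃ R : ℝ, 0 < R ∧ ∀ z : ℂ, R < ‖z‖ → ∃ w, 1 < ‖w‖ ∧ ψ w = z := by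
  classical
  set h : ℂ → ℂ := Function.update (fun u => ψ u⁻¹ / u⁻¹) 0 1 with hh
  have h0 : h 0 = 1 := Function.update_self ..
  have hb : ball (0 : ℂ) 1 ∈ 𝓝 (0 : ℂ) := ball_mem_nhds _ one_pos
  have hin : ∀ u ∈ ball (0 : ℂ) 1, u ≠ 0 → 1 < ‖u⁻¹‖ := fun u hu h0 => by
    rw [norm_inv]
    exact (one_lt_inv₀ (norm_pos_iff.mpr h0)).mpr (mem_ball_zero_iff.mp hu)
  have han : AnalyticAt ℂ h 0 := by
    refine Complex.analyticAt_of_differentiable_on_punctured_nhds_of_continuousAt ?_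
      (continuousAt_update_same.mpr (ha.comp tendsto_inv₀_nhdsNE_zero))
    filter_upwards [mem_nhdsWithin_of_mem_nhds hb, self_mem_nhdsWithin] with u hu (h0 : u ≠ 0)
    have h1 : DifferentiableAt ℂ (fun u : ℂ => u⁻¹) u := differentiableAt_inv h0
    refine (((hd.differentiableAt ((isOpen_lt continuous_const continuous_norm).mem_nhds
      (hin u hu h0))).comp u h1).div h1 (inv_ne_zero h0)).congr_of_eventuallyEq ?_
    filter_upwards [isOpen_ne.mem_nhds h0] with v hv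
    exact Function.update_of_ne hv ..
  have hG : HasStrictDerivAt (fun u => u / h u) 1 0 := by
    have := (hasStrictDerivAt_id (0 : ℂ)).fun_div han.hasStrictDerivAt (by simp [h0])
    simpa [h0] using this
  have h1 := (hG.map_nhds_eq one_ne_zero).ge (image_mem_map hb)
  rw [zero_div] at h1
  obtain ⟨δ, hδ, h2⟩ := Metric.mem_nhds_iff.mp h1
  refine ⟨δ⁻¹, inv_pos.mpr hδ, fun z hz => ?_⟩
  have hz0 : 0 < ‖z‖ := (inv_pos.mpr hδ).trans hz
  obtain ⟨u, hu, h3⟩ := h2 (show z⁻¹ ∈ ball 0 δ by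
    rwa [mem_ball_zero_iff, norm_inv, inv_lt_comm₀ hz0 hδ])
  have hu0 : u ≠ 0 := by
    rintro rfl
    exact inv_ne_zero (norm_pos_iff.mp hz0) (by simpa using h3.symm)
  refine ⟨u⁻¹, hin u hu hu0, inv_injective ?_⟩
  rw [← h3, hh]
  simp only [Function.update_of_ne hu0, div_inv_eq_mul]
  rw [div_mul_cancel_right₀ hu0]

theorem Bot.back (he : 1 ≤ e) {c : ℂ} {ψ : ℂ → ℂ} (h : Bot e c ψ) {x w : ℂ} (hw : 1 < ‖w‖)
    (hx : ψ w = fq e c x) : x ≠ 0 ∧ ∃ u, 1 < ‖u‖ ∧ ψ u = x := by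
  classical
  obtain ⟨u, rfl⟩ := IsAlgClosed.exists_pow_nat_eq w e.succ_pos
  have hu : 1 < ‖u‖ := by
    rw [norm_pow] at hw
    exact (one_lt_pow_iff_of_nonneg (norm_nonneg _) e.succ_ne_zero).mp hw
  have hn : ∀ j : ℕ, 1 < ‖om e ^ j * u‖ := fun j => by
    rwa [norm_mul, norm_pow, (om_prim e).norm'_eq_one e.succ_ne_zero, one_pow, one_mul]
  have hp : ∀ j : ℕ, ψ (om e ^ j * u) ^ (e + 1) = x ^ (e + 1) := fun j => by
    have h1 := h.semi _ (hn j)
    rw [mul_pow, ← pow_mul, mul_comm j, pow_mul, (om_prim e).pow_eq_one, one_pow, one_mul,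
      hx] at h1
    exact (add_right_cancel h1).symm
  have hi : InjOn (fun j : ℕ => ψ (om e ^ j * u)) (Finset.range (e + 1)) := fun i hi j hj hij =>
    (om_prim e).pow_inj (by simpa using hi) (by simpa using hj)
      (mul_right_cancel₀ (norm_pos_iff.mp (one_pos.trans hu)) (h.inj (hn i) (hn j) hij))
  refine ⟨?_, ?_⟩
  · rintro rfl
    have h1 : ∀ j : ℕ, ψ (om e ^ j * u) = 0 := fun j =>
      pow_eq_zero_iff e.succ_ne_zero |>.mp ((hp j).trans (zero_pow e.succ_ne_zero))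
    exact zero_ne_one (hi (by simp) (by simpa using Nat.lt_succ_of_le he) ((h1 0).trans (h1 1).symm))
  · by_contra hc
    have h1 : x ∉ (Finset.range (e + 1)).image fun j : ℕ => ψ (om e ^ j * u) := fun h1 => by
      obtain ⟨j, -, hj⟩ := Finset.mem_image.mp h1
      exact hc ⟨_, hn j, hj⟩
    have h2 : insert x ((Finset.range (e + 1)).image fun j : ℕ => ψ (om e ^ j * u)) ⊆
        (Polynomial.nthRoots (e + 1) (x ^ (e + 1))).toFinset := fun y hy => by
      rw [Multiset.mem_toFinset, Polynomial.mem_nthRoots e.succ_pos]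
      rcases Finset.mem_insert.mp hy with rfl | hy
      · rfl
      · obtain ⟨j, -, rfl⟩ := Finset.mem_image.mp hy
        exact hp j
    have h3 := (Finset.card_le_card h2).trans ((Multiset.toFinset_card_le _).trans
      (Polynomial.card_nthRoots _ _))
    rw [Finset.card_insert_of_notMem h1, Finset.card_image_of_injOn hi, Finset.card_range] at h3
    omega

theorem Bot.mem (he : 1 ≤ e) {c : ℂ} {ψ : ℂ → ℂ} (h : Bot e c ψ) : c ∈ Mset e := by
  obtain ⟨R, hR, hfar⟩ := mem_far h.diff h.asy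
  refine ⟨R, fun k => le_of_not_gt fun hk => ?_⟩
  have key : ∀ j, (∃ w, 1 < ‖w‖ ∧ ψ w = (fq e c)^[j + 1] 0) → False := by
    intro j
    induction j with
    | zero => exact fun ⟨w, hw, h1⟩ => (h.back he hw h1).1 rfl
    | succ j ih =>
      rintro ⟨w, hw, h1⟩
      rw [Function.iterate_succ_apply'] at h1
      exact ih (h.back he hw h1).2
  rcases k with _ | k
  · simp at hk
    linarith
  · exact key k (hfar _ hk)

end Pool.Agent.MP_28f8a1_an.Mlc
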