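import Pool.Agent.MP_28f8a1_an.Mlc.Defs

/-! Sections of the multiplier map. -/

set_option autoImplicit false

namespace Pool.Agent.MP_28f8a1_an.Mlc

open MeasureTheory Metric Set Real Filter Topology Pool.Agent.MP_28f8a1_an.H42
open Complex (I)

variable {e : ℕ}

/-- A local inverse of the restriction of `μ` to `E` at `x`. -/
def Inv (E : Set (ℂ × ℂ)) (μ : ℂ × ℂ → ℂ) (x : ℂ × ℂ) (ψ : ℂ → ℂ × ℂ) : Prop :=
  ContinuousAt ψ (μ x) ∧ (∀ᶠ w in 𝓝 (μ x), ψ w ∈ E ∧ μ (ψ w) = w) ∧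
    ∀ᶠ y in 𝓝 x, y ∈ E → ψ (μ y) = y

theorem sec_big (he : 1 ≤ e) {c z : ℂ} (k : ℕ) (h : ∀ j < k, 1 ≤ ‖(fq e c)^[j] z‖) :
    2 ^ k ≤ ‖Pd e c z k‖ := by
  induction k with
  | zero => simp [Pd_zero]
  | succ k ih =>
    have h1 := ih fun j hj => h j (by omega)
    have h2 : 1 ≤ ‖(fq e c)^[k] z‖ ^ e := one_le_pow₀ (h k (by omega))
    have h4 : (2 : ℝ) ≤ (e + 1 : ℕ) := by exact_mod_cast (show 2 ≤ e + 1 by omega)
    have h3 : (0 : ℝ) ≤ 2 ^ k := by positivity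
    rw [Pd_succ', norm_mul, norm_mul, norm_pow, Complex.norm_natCast, pow_succ, mul_comm]
    exact mul_le_mul (by nlinarith) h1 h3 (by positivity)

theorem sec_small (he : 1 ≤ e) {n : ℕ} (hn : 0 < n) {c z : ℂ} (hm : ‖Pd e c z n‖ < 2) :
    ∃ i < n, ‖(fq e c)^[i] z‖ < 1 := by
  by_contra h
  push Not at h
  linarith [sec_big he n h, (le_self_pow₀ (by norm_num) hn.ne' : (2 : ℝ) ≤ 2 ^ n)]

theorem sec_bound (he : 1 ≤ e) {n : ℕ} (hn : 0 < n) {c z : ℂ} (h : (fq e c)^[n] z = z)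
    (hm : ‖Pd e c z n‖ < 2) : ‖c‖ ≤ 4 ∧ ‖z‖ ≤ 3 := by
  obtain ⟨i, -, hi⟩ := sec_small he hn hm
  obtain ⟨j, -, hj⟩ := (Finset.range n).exists_max_image (fun j => ‖(fq e c)^[j] z‖)
    ⟨0, Finset.mem_range.2 hn⟩
  have hR : ∀ k, ‖(fq e c)^[k] z‖ ≤ ‖(fq e c)^[j] z‖ := fun k => by
    have := hj (k % n) (Finset.mem_range.2 (Nat.mod_lt _ hn))
    rwa [Function.IsPeriodicPt.iterate_mod_apply h] at this
  have hs : ∀ k, (fq e c)^[k + 1] z = ((fq e c)^[k] z) ^ (e + 1) + c := fun k => by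
    rw [Function.iterate_succ_apply']
    rfl
  have a1 : ‖c‖ ≤ ‖(fq e c)^[j] z‖ + 1 := by
    have e1 : c = (fq e c)^[i + 1] z - ((fq e c)^[i] z) ^ (e + 1) := by rw [hs]; ring
    have b := norm_sub_le ((fq e c)^[i + 1] z) (((fq e c)^[i] z) ^ (e + 1))
    rw [← e1, norm_pow] at b
    linarith [hR (i + 1), pow_le_one₀ (n := e + 1) (norm_nonneg _) hi.le]
  have a2 : ‖(fq e c)^[j] z‖ ≤ 3 := by
    by_contra h3
    push Not at h3
    have e1 : ((fq e c)^[j] z) ^ (e + 1) = (fq e c)^[j + 1] z - c := by rw [hs]; ring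
    have b := norm_sub_le ((fq e c)^[j + 1] z) c
    rw [← e1, norm_pow] at b
    have b2 : ‖(fq e c)^[j] z‖ ^ 2 ≤ ‖(fq e c)^[j] z‖ ^ (e + 1) :=
      pow_le_pow_right₀ (by linarith) (by omega)
    nlinarith [hR (j + 1)]
  exact ⟨by linarith, (hR 0).trans a2⟩

theorem Ec_compact (he : 1 ≤ e) {n : ℕ} (hn : 0 < n) : IsCompact (Ec e n) := by
  obtain ⟨Q, q1, q2, q3⟩ := t57_div (e := e) n
  have e1 : Ec e n = ({x : ℂ × ℂ | (fq e x.1)^[n] x.2 = x.2} ∩ {x | ‖mu e n x‖ ≤ 3 / 2}) ∩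
      ⋂ d ∈ Ioo 0 n, {x : ℂ × ℂ | Q (x.1, x.2, (fq e x.1)^[d] x.2) = 1} := by
    ext x
    simp only [Ec, Per, mem_inter_iff, mem_ofPred_eq, mem_iInter, t57_per hn]
    constructor
    · rintro ⟨h1, h2, h3⟩
      refine ⟨⟨h1, h2⟩, fun d hd => ?_⟩
      by_cases h4 : (fq e x.1)^[d] x.2 = x.2
      · rw [h4, q3]
        exact h3.resolve_right fun h5 => h5.2 d hd h4
      · have h6 := q2 x.1 x.2 ((fq e x.1)^[d] x.2)
        rw [← Function.iterate_add_apply, add_comm, Function.iterate_add_apply, h1] at h6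
        exact mul_right_cancel₀ (sub_ne_zero.2 h4) (by rw [← h6, one_mul])
    · rintro ⟨⟨h1, h2⟩, h3⟩
      refine ⟨h1, h2, or_iff_not_imp_left.2 fun h4 => ⟨h1, fun d hd h5 => h4 ?_⟩⟩
      have h6 := h3 d hd
      rwa [h5, q3] at h6
  refine ((isCompact_closedBall (0 : ℂ) 4).prod (isCompact_closedBall (0 : ℂ) 3)).of_isClosed_subset
    ?_ fun x hx => ?_
  · rw [e1]
    refine ((isClosed_eq (t57_cont n) continuous_snd).inter
      (isClosed_le (mu_cont e n).norm continuous_const)).inter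
      (isClosed_biInter fun d _ => isClosed_eq ?_ continuous_const)
    exact q1.comp (continuous_fst.prodMk (continuous_snd.prodMk (t57_cont d)))
  · obtain ⟨h1, h2⟩ := sec_bound he hn hx.1 (hx.2.1.trans_lt (by norm_num))
    exact ⟨mem_closedBall_zero_iff.2 h1, mem_closedBall_zero_iff.2 h2⟩

theorem Ec_fin (he : 1 ≤ e) {n : ℕ} (hn : 0 < n) : {x ∈ Ec e n | mu e n x = 1}.Finite := by
  refine ((t1323_fin he hn).biUnion fun c _ =>
    (finite_singleton c).prod (t1323_roots he hn c)).subset fun x hx => ?_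
  exact mem_biUnion (x := x.1) ⟨x.2, hx.1.1, hx.2⟩ ⟨rfl, hx.1.1⟩

theorem Ec_zero (he : 1 ≤ e) {n : ℕ} (hn : 0 < n) {x : ℂ × ℂ} (hx : x ∈ Ec e n)
    (h1 : 1 ≤ ‖mu e n x‖) : x.1 ≠ 0 := by
  obtain ⟨c, z⟩ := x
  rintro (rfl : c = 0)
  have hz : (fq e 0)^[n] z = z := hx.1
  have hN : ∀ k, ‖(fq e 0)^[k] z‖ = ‖z‖ ^ (e + 1) ^ k := fun k => by
    induction k with
    | zero => simp
    | succ k ih =>
      rw [Function.iterate_succ_apply', fq, add_zero, norm_pow, ih, ← pow_mul, ← pow_succ]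
  obtain ⟨i, -, hi⟩ := sec_small he hn (c := 0) (z := z) (hx.2.1.trans_lt (by norm_num))
  rw [hN] at hi
  have h2 : ‖z‖ < 1 := (pow_lt_one_iff_of_nonneg (norm_nonneg _) (by positivity)).1 hi
  have h3 : z = 0 := by
    by_contra h4
    have h5 := hN n
    rw [hz] at h5
    exact (pow_lt_self_of_lt_one₀ (norm_pos_iff.2 h4) h2
      (Nat.one_lt_pow hn.ne' (by omega))).ne' h5
  subst h3
  obtain ⟨m, rfl⟩ : ∃ m, n = m + 1 := ⟨n - 1, by omega⟩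
  have h6 : (fq e 0)^[m] 0 = 0 := Function.iterate_fixed (by simp [fq]) m
  rw [mu, Pd_succ', h6, zero_pow (by omega), mul_zero, zero_mul, norm_zero] at h1
  linarith

theorem sec_inv (he : 1 ≤ e) {n : ℕ} (hn : 0 < n) {x : ℂ × ℂ} (hx : x ∈ Per e n)
    (hr : ‖mu e n x‖ < 3 / 2) (h0 : mu e n x ≠ 0) (h1 : mu e n x ≠ 1)
    (hS : ∀ Y : Cyc e, Y.ρ = mu e n x → Y.S ≠ 0) :
    ∃ (Y : Cyc e) (ψ : ℂ → ℂ × ℂ), Y.ρ = mu e n x ∧ Inv (Ec e n) (mu e n) x ψ ∧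
      HasDerivAt (fun w => (ψ w).1) (mu e n x * Y.S)⁻¹ (mu e n x) := by
  obtain ⟨c, z⟩ := x
  obtain ⟨ψ, d, hz, hψ, hfix⟩ := t1055_follow (Per.fix hx) h1
  dsimp only at hz hψ hfix
  subst hz
  obtain ⟨Y, t, hY, ht, hYS⟩ := t1055_cyc he hn hx h0 h1
  dsimp only at hY ht hYS
  have hne : ∀ j < n, (fq e c)^[j] (ψ c) ≠ 0 := fun j hj => (t1055_ne0 he h0 hj).1
  have hd : t1055_sp e c (ψ c) d n = d :=
    ((t1055_orbit_deriv hψ n).hasDerivAt.congr_of_eventuallyEq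
      (hfix.mono fun _ h => h.symm)).unique hψ.hasDerivAt
  have htel := t1055_tele (e := e) (c := c) (z := ψ c) (t := t) (d := d) n hne
  rw [ht, hd, ← hYS] at htel
  have hμ0 := t1055_mult_deriv he hψ n hne
  rw [show ∑ j ∈ Finset.range n, e * t1055_sp e c (ψ c) d j / (fq e c)^[j] (ψ c) = Y.S by
    linear_combination htel] at hμ0
  have hμ : HasStrictDerivAt (fun c' => mu e n (c', ψ c')) (mu e n (c, ψ c) * Y.S) c := hμ0
  have hD : mu e n (c, ψ c) * Y.S ≠ 0 := mul_ne_zero h0 (hS Y hY)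
  have hg := hμ.to_localInverse hD
  have hgl := hμ.eventually_left_inverse hD
  have hgr := hμ.eventually_right_inverse hD
  generalize hμ.localInverse _ _ _ hD = g at hg hgl hgr
  have hgc : g (mu e n (c, ψ c)) = c := hgl.self_of_nhds
  have hψc : ContinuousAt ψ c := hψ.hasDerivAt.continuousAt
  have hgt : Tendsto g (𝓝 (mu e n (c, ψ c))) (𝓝 c) := by
    have h := hg.hasDerivAt.continuousAt.tendsto
    rwa [hgc] at h
  have hsep : ∀ᶠ l in 𝓝 c, ∀ k ∈ Finset.Ioo 0 n, (fq e l)^[k] (ψ l) ≠ ψ l := by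
    refine (Finset.eventually_all _).2 fun k hk => ?_
    have h2 : (fq e c)^[k] (ψ c) - ψ c ≠ 0 :=
      sub_ne_zero.2 (((t57_per hn).1 hx).2 k (by simpa using hk))
    have h4 : ContinuousAt (fun l => (fq e l)^[k] (ψ l) - ψ l) c :=
      ((t57_cont (e := e) k).continuousAt.comp (f := fun l => (l, ψ l))
        (continuousAt_id.prodMk hψc)).sub hψc
    exact (h4.eventually_ne h2).mono fun _ h => sub_ne_zero.1 h
  refine ⟨Y, fun w => (g w, ψ (g w)), hY, ⟨?_, ?_, ?_⟩, hg.hasDerivAt⟩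
  · have h2 : ContinuousAt g (mu e n (c, ψ c)) := hg.hasDerivAt.continuousAt
    exact h2.prodMk (ContinuousAt.comp (hgc.symm ▸ hψc) h2)
  · filter_upwards [hgr, hgt.eventually hfix, hgt.eventually hsep,
      (continuous_norm.tendsto _).eventually (gt_mem_nhds hr)] with w h2 h3 h4 h5
    refine ⟨⟨h3, ?_, Or.inr ((t57_per hn).2 ⟨h3, fun k hk => h4 k (by simpa using hk)⟩)⟩, h2⟩
    rw [h2]
    exact h5.le
  · obtain ⟨Q, q1, q2, q3⟩ := t57_div (e := e) n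
    have hf : Tendsto (Prod.fst : ℂ × ℂ → ℂ) (𝓝 (c, ψ c)) (𝓝 c) := continuous_fst.tendsto _
    have hQ : ContinuousAt (fun y : ℂ × ℂ => Q (y.1, y.2, ψ y.1)) (c, ψ c) :=
      q1.continuousAt.comp (f := fun y : ℂ × ℂ => (y.1, y.2, ψ y.1))
        (continuousAt_fst.prodMk (continuousAt_snd.prodMk
          (ContinuousAt.comp (f := Prod.fst) (x := (c, ψ c)) hψc continuousAt_fst)))
    have hQ1 : Q (c, ψ c, ψ c) ≠ 1 := by
      rw [q3]
      exact h1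
    filter_upwards [hf.eventually hfix, hf.eventually hgl, hQ.eventually_ne hQ1] with y h2 h3 h4 hy
    obtain ⟨l, z⟩ := y
    have h5 := q2 l z (ψ l)
    rw [h2, hy.1] at h5
    obtain rfl : ψ l = z := sub_eq_zero.1 ((mul_left_eq_self₀.1 h5.symm).resolve_left h4)
    dsimp only at h3 ⊢
    rw [h3]

theorem inv_core (he : 1 ≤ e) {M : ℝ} (hM : 0 < M) : ∃ κ > 0, κ ≤ 1 / 4 ∧ ∀ n : ℕ, 0 < n →
    ∀ x ∈ Ec e n, 1 / 2 ≤ ‖mu e n x‖ → ‖mu e n x‖ ≤ 1 + κ → mu e n x ≠ 1 →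
      ∃ (ψ : ℂ → ℂ × ℂ) (D : ℂ), Inv (Ec e n) (mu e n) x ψ ∧
        HasDerivAt (fun w => (ψ w).1) D (mu e n x) ∧
        ‖D‖ ≤ 2 / min κ (M * ‖mu e n x - 1‖) := by
  obtain ⟨δ, hδ, h⟩ := core he hM.le
  refine ⟨min δ (1 / 4), lt_min hδ (by norm_num), min_le_right _ _, fun n hn x hx h2 h3 h1 => ?_⟩
  have hm : 0 < min (min δ (1 / 4)) (M * ‖mu e n x - 1‖) :=
    lt_min (lt_min hδ (by norm_num)) (mul_pos hM (norm_pos_iff.2 (sub_ne_zero.2 h1)))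
  have hS : ∀ Y : Cyc e, Y.ρ = mu e n x →
      min (min δ (1 / 4)) (M * ‖mu e n x - 1‖) ≤ ‖Y.S‖ := fun Y hY => by
    have := h Y (by rwa [hY]) (by rwa [hY]) (by rw [hY]; linarith [min_le_left δ (1 / 4)])
    rw [hY] at this
    exact (min_le_min_right _ (min_le_left _ _)).trans this
  obtain ⟨Y, ψ, hY, a1, a2⟩ := sec_inv he hn (hx.2.2.resolve_left h1)
    (by linarith [min_le_right δ (1 / 4)]) (norm_pos_iff.1 (by linarith)) h1
    fun Y hY => norm_pos_iff.1 (hm.trans_le (hS Y hY))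
  refine ⟨ψ, _, a1, a2, ?_⟩
  rw [norm_inv, norm_mul, inv_eq_one_div, div_le_div_iff₀ (mul_pos (by linarith)
    (hm.trans_le (hS Y hY))) hm]
  nlinarith [hS Y hY, mul_le_mul h2 (hS Y hY) hm.le (norm_nonneg _)]

end Pool.Agent.MP_28f8a1_an.Mlc
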