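import Pool.Agent.MP_28f8a1_an.Mlc.Stab
import Pool.Agent.MP_28f8a1_an.Mlc.Bot2
import Pool.Agent.MP_28f8a1_an.Mlc.Mem
import Pool.Agent.MP_28f8a1_an.Mlc.Sec

/-! The set of parameters at which a ray portrait is realised at a repelling cycle. -/

set_option autoImplicit false

namespace Pool.Agent.MP_28f8a1_an.Mlc

open MeasureTheory Metric Set Real Filter Topology Pool.Agent.MP_28f8a1_an.H42
open Complex (I)

variable {e n p q : ℕ} {θ : ℕ → ℝ}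

/-- A ray portrait with rotation `p / q`. -/
structure Port (e n p q : ℕ) (θ : ℕ → ℝ) : Prop where
  hn : 0 < n
  hp : 0 < p
  hpq : p < q
  mem : ∀ j < q, 0 ≤ θ j ∧ θ j < 1
  mono : ∀ i j, i < j → j < q → θ i < θ j
  rot : ∀ j < q, ∃ m : ℤ, ((e + 1 : ℕ) : ℝ) ^ n * θ j = θ ((j + p) % q) + m

/-- All rays of the portrait land at the marked point. -/
def Ray (e q : ℕ) (θ : ℕ → ℝ) (x : ℂ × ℂ) : Prop :=
  ∃ ψ, Bot e x.1 ψ ∧ ∀ j < q, Lands ψ (θ j) x.2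

/-- Repelling points of exact period `n` at which the rays land. -/
def Lam (e n q : ℕ) (θ : ℕ → ℝ) : Set (ℂ × ℂ) :=
  {x | x ∈ Per e n ∧ 1 < ‖mu e n x‖ ∧ Ray e q θ x}

theorem Port.hq (P : Port e n p q θ) : 0 < q := P.hp.trans P.hpq

theorem Port.hN (P : Port e n p q θ) : 0 < n * q := Nat.mul_pos P.hn P.hq

theorem Port.rotN (P : Port e n p q θ) {j : ℕ} (hj : j < q) :
    ∃ m : ℤ, ((e + 1 : ℕ) : ℝ) ^ (n * q) * θ j = θ j + m := by
  have h : ∀ k : ℕ, ∃ m : ℤ, ((e + 1 : ℕ) : ℝ) ^ (n * k) * θ j = θ ((j + k * p) % q) + m := by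
    intro k
    induction k with
    | zero => exact ⟨0, by simp [Nat.mod_eq_of_lt hj]⟩
    | succ k ih =>
      obtain ⟨m, hm⟩ := ih
      obtain ⟨m', hm'⟩ := P.rot _ (Nat.mod_lt (j + k * p) P.hq)
      refine ⟨m' + ((e + 1 : ℕ) : ℤ) ^ n * m, ?_⟩
      rw [Nat.mod_add_mod, add_assoc, ← Nat.succ_mul] at hm'
      rw [Nat.mul_succ, pow_add, mul_right_comm, hm]
      push_cast at hm' ⊢
      linear_combination hm'
  simpa [Nat.mod_eq_of_lt hj] using h q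

theorem fixN {x : ℂ × ℂ} (h : (fq e x.1)^[n] x.2 = x.2) (q : ℕ) :
    (fq e x.1)^[n * q] x.2 = x.2 := by
  rw [Function.iterate_mul]
  exact Function.iterate_fixed h q

theorem per_open (hn : 0 < n) {x : ℂ × ℂ} (hx : x ∈ Per e n) :
    ∀ᶠ y in 𝓝 x, (fq e y.1)^[n] y.2 = y.2 → y ∈ Per e n := by
  have h : ∀ k ∈ Finset.Ioo 0 n, ∀ᶠ y : ℂ × ℂ in 𝓝 x, (fq e y.1)^[k] y.2 ≠ y.2 := by
    intro k hk
    rw [Finset.mem_Ioo] at hk
    refine (isOpen_ne_fun (t57_cont k) continuous_snd).mem_nhds fun h => ?_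
    have := Function.IsPeriodicPt.minimalPeriod_le hk.1 h
    rw [show Function.minimalPeriod _ _ = n from hx] at this
    omega
  filter_upwards [(eventually_all_finset _).2 h] with y hy hf
  have h1 := Function.IsPeriodicPt.minimalPeriod_le hn hf
  have h2 := Function.IsPeriodicPt.minimalPeriod_pos hn hf
  by_contra h3
  exact hy _ (Finset.mem_Ioo.2 ⟨h2, lt_of_le_of_ne h1 h3⟩) Function.iterate_minimalPeriod

theorem Lam.mem (he : 1 ≤ e) {x : ℂ × ℂ} (hx : x ∈ Lam e n q θ) : x.1 ∈ Mset e :=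
  let ⟨_, h, _⟩ := hx.2.2
  h.mem he

theorem Lam.stab (he : 1 ≤ e) (P : Port e n p q θ) {x : ℂ × ℂ} (hx : x ∈ Lam e n q θ) :
    ∀ᶠ y : ℂ × ℂ in 𝓝 x, ‖y.1‖ ≤ 2 → (fq e y.1)^[n] y.2 = y.2 →
      ∀ ψ, Bot e y.1 ψ → ∀ j < q, Lands ψ (θ j) y.2 := by
  obtain ⟨ψ, hψ, hl⟩ := hx.2.2
  have h : ∀ j ∈ Finset.range q, ∀ᶠ y : ℂ × ℂ in 𝓝 x, ‖y.1‖ ≤ 2 →
      (fq e y.1)^[n * q] y.2 = y.2 → ∀ ψ', Bot e y.1 ψ' → Lands ψ' (θ j) y.2 := by
    intro j hj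
    rw [Finset.mem_range] at hj
    obtain ⟨m, hm⟩ := P.rotN hj
    refine ray_stab he (M_norm he (hψ.mem he)) hψ P.hN hm (hl j hj) ?_
    rw [t57_pow (Per.fix hx.1), norm_pow]
    exact one_lt_pow₀ hx.2.1 P.hq.ne'
  filter_upwards [(eventually_all_finset _).2 h] with y hy h1 h2 ψ' h3 j hj
  exact hy j (Finset.mem_range.2 hj) h1 (fixN h2 q) ψ' h3

theorem Lam.inj (he : 1 ≤ e) (P : Port e n p q θ) : InjOn Prod.fst (Lam e n q θ) := by
  intro x hx y hy hxy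
  obtain ⟨ψ, hψ, hl⟩ := hy.2.2
  exact Prod.ext hxy (tendsto_nhds_unique ((Lam.stab he P hx).self_of_nhds
    (M_norm he (Lam.mem he hx)) (Per.fix hx.1) ψ (hxy ▸ hψ) 0 P.hq) (hl 0 P.hq))

theorem Lam.loc (he : 1 ≤ e) (P : Port e n p q θ) {x : ℂ × ℂ} (hx : x ∈ Lam e n q θ) :
    ∃ g : ℂ → ℂ × ℂ, Tendsto g (𝓝 x.1) (𝓝 x) ∧ (∀ c, (g c).1 = c) ∧
      ∀ᶠ c in 𝓝[Mset e] x.1, g c ∈ Lam e n q θ := by
  obtain ⟨g, d, g0, g1, g2⟩ := t1055_follow (Per.fix hx.1) (fun h => by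
    have := hx.2.1
    rw [mu, h, norm_one] at this
    exact lt_irrefl _ this)
  have ht : Tendsto (fun c => (c, g c)) (𝓝 x.1) (𝓝 x) := by
    have := (continuousAt_id.prodMk g1.hasDerivAt.continuousAt).tendsto
    simpa only [id, g0] using this
  refine ⟨_, ht, fun _ => rfl, eventually_nhdsWithin_iff.2 ?_⟩
  filter_upwards [g2, ht.eventually (Lam.stab he P hx), ht.eventually (per_open P.hn hx.1),
    ht.eventually ((isOpen_lt continuous_const (mu_cont e n).norm).mem_nhds hx.2.1)]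
    with c h1 h2 h3 h4 hc
  obtain ⟨ψ, hψ⟩ := bot_exists he hc
  exact ⟨h3 h1, h4, ψ, hψ, h2 (M_norm he hc) h1 ψ hψ⟩

theorem Lam.open (he : 1 ≤ e) (P : Port e n p q θ) {x : ℂ × ℂ} (hx : x ∈ Lam e n q θ)
    {N : Set (ℂ × ℂ)} (hN : N ∈ 𝓝 x) : Prod.fst '' (Lam e n q θ ∩ N) ∈ 𝓝[Mset e] x.1 := by
  obtain ⟨g, g1, g2, g3⟩ := Lam.loc he P hx
  filter_upwards [g3, nhdsWithin_le_nhds (g1 hN)] with c h1 h2
  exact ⟨g c, ⟨h1, h2⟩, g2 c⟩

theorem Lam.lift (he : 1 ≤ e) (P : Port e n p q θ) {x : ℂ × ℂ} (hx : x ∈ Lam e n q θ)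
    {C : Set ℂ} (hC : IsPreconnected C) (hxC : x.1 ∈ C) (hCL : C ⊆ Prod.fst '' Lam e n q θ) :
    C ⊆ Prod.fst '' connectedComponentIn (closure (Lam e n q θ)) x := by
  choose! s s1 s2 using (show ∀ c, c ∈ C → ∃ y ∈ Lam e n q θ, y.1 = c from hCL)
  have hs : ContinuousOn s C := by
    intro c hc
    obtain ⟨g, g1, g2, g3⟩ := Lam.loc he P (s1 _ hc)
    rw [s2 _ hc] at g1 g3
    refine (g1.mono_left nhdsWithin_le_nhds).congr' ?_
    filter_upwards [nhdsWithin_mono c (fun c' hc' => s2 _ hc' ▸ Lam.mem he (s1 _ hc')) g3,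
      self_mem_nhdsWithin] with c' h1 h2
    exact Lam.inj he P h1 (s1 _ h2) ((g2 c').trans (s2 _ h2).symm)
  intro c hc
  exact ⟨s c, (hC.image s hs).subset_connectedComponentIn
    ⟨x.1, hxC, Lam.inj he P (s1 _ hxC) hx (s2 _ hxC)⟩
    (forall_mem_image.2 fun c' hc' => subset_closure (s1 _ hc')) ⟨c, hc, rfl⟩, s2 _ hc⟩

/-- The closed horodisc. -/
def Hor (p q : ℕ) (a : ℝ) : Set ℂ := {L | q * ‖L - 2 * π * I * p / q‖ ^ 2 ≤ a * L.re}

theorem Hor.le (hq : 0 < q) {a : ℝ} (ha : 0 ≤ a) {L : ℂ} (h : L ∈ Hor p q a) :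
    ‖L - 2 * π * I * p / q‖ ≤ a / q := by
  have hq' : (0 : ℝ) < q := by exact_mod_cast hq
  have h1 : L.re ≤ ‖L - 2 * π * I * p / q‖ := by
    have := Complex.re_le_norm (L - ((2 * π * p / q : ℝ) : ℂ) * I)
    rw [Complex.sub_re, Complex.re_ofReal_mul, Complex.I_re, mul_zero, sub_zero] at this
    refine this.trans_eq ?_
    congr 2
    push_cast
    ring
  have h2 : q * ‖L - 2 * π * I * p / q‖ ^ 2 ≤ a * L.re := h
  rw [le_div_iff₀ hq']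
  by_contra h3
  push Not at h3
  have h4 : 0 < ‖L - 2 * π * I * p / q‖ := by
    by_contra h5
    nlinarith [norm_nonneg (L - 2 * π * I * p / q)]
  nlinarith [mul_le_mul_of_nonneg_left h1 ha]

theorem Hor.closed (hq : 0 < q) {a : ℝ} (ha : 0 ≤ a) : IsClosed (Complex.exp '' Hor p q a) :=
  ((isCompact_of_isClosed_isBounded (isClosed_le (by fun_prop) (by fun_prop))
    ((isBounded_closedBall (x := 2 * π * I * p / q) (r := a / q)).subset fun _ h =>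
      mem_closedBall_iff_norm.2 (Hor.le hq ha h))).image Complex.continuous_exp).isClosed

theorem rot_norm (p q : ℕ) : ‖Complex.exp (2 * π * I * p / q)‖ = 1 := by
  rw [show (2 * π * I * p / q : ℂ) = ((2 * π * p / q : ℝ) : ℂ) * I by push_cast; ring,
    Complex.norm_exp_ofReal_mul_I]

theorem Hor.near (hp : 0 < p) (hpq : p < q) {a : ℝ} (ha : 0 ≤ a) (haq : a ≤ q) {w : ℂ}
    (h : w ∈ Complex.exp '' Hor p q a) :
    w ≠ 1 ∧ 1 ≤ ‖w‖ ∧ ‖w - Complex.exp (2 * π * I * p / q)‖ ≤ 2 * (a / q) ∧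
      (‖w‖ ≤ 1 → w ^ q = 1) := by
  obtain ⟨L, hL, rfl⟩ := h
  have hq := hp.trans hpq
  have hq' : (0 : ℝ) < q := by exact_mod_cast hq
  obtain ⟨c1, c2, -⟩ := near_circle hp hpq ha hL haq
  have h1 := Hor.le hq ha hL
  refine ⟨c1, c2, ?_, fun h => ?_⟩
  · have h2 := Complex.norm_exp_sub_one_le (h1.trans ((div_le_one hq').2 haq))
    rw [show Complex.exp L - Complex.exp (2 * π * I * p / q) = Complex.exp (2 * π * I * p / q) *
      (Complex.exp (L - 2 * π * I * p / q) - 1) by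
        rw [mul_sub, ← Complex.exp_add, add_sub_cancel, mul_one], norm_mul, rot_norm]
    linarith
  · rw [Complex.norm_exp, Real.exp_le_one_iff] at h
    have h2 : q * ‖L - 2 * π * I * p / q‖ ^ 2 ≤ 0 :=
      le_trans hL (mul_nonpos_of_nonneg_of_nonpos ha h)
    have h3 : ‖L - 2 * π * I * p / q‖ = 0 := by
      by_contra h4
      exact absurd h2 (not_le.2 (by positivity))
    have hq0 : (q : ℂ) ≠ 0 := by exact_mod_cast hq.ne'
    rw [sub_eq_zero.1 (norm_eq_zero.1 h3), ← Complex.exp_nat_mul,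
      show (q * (2 * π * I * p / q) : ℂ) = p * (2 * π * I) by field_simp,
      Complex.exp_nat_mul_two_pi_mul_I]

theorem Ray.hor (he : 1 ≤ e) (P : Port e n p q θ) {x : ℂ × ℂ} (hx : Ray e q θ x)
    (hf : (fq e x.1)^[n] x.2 = x.2) :
    mu e n x ∈ Complex.exp '' Hor p q (n * (2 * Real.log (e + 1 : ℕ))) := by
  obtain ⟨ψ, hψ, hl⟩ := hx
  obtain ⟨L, hL, hY⟩ := yoccoz (iter_diff (e := e) (c := x.1) n) (D := (e + 1) ^ n)
    (Nat.one_lt_pow P.hn.ne' (by omega)) hψ.diff hψ.inj (fun w hw => hψ.iter he n hw) hψ.asy hf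
    P.hpq P.mem P.mono hl (fun j hj => by simpa using P.rot j hj)
  rw [Nat.cast_pow, Real.log_pow, mul_left_comm] at hY
  exact ⟨L, hY, hL⟩

theorem land_rep (he : 1 ≤ e) {c z : ℂ} {ψ : ℂ → ℂ} (h : Bot e c ψ) {N : ℕ} (hN : 0 < N) {t : ℝ}
    (ht : 0 ≤ t ∧ t < 1) {m : ℤ} (hm : ((e + 1 : ℕ) : ℝ) ^ N * t = t + m)
    (hz : (fq e c)^[N] z = z) (hl : Lands ψ t z) (h1 : Pd e c z N ≠ 1) : 1 < ‖Pd e c z N‖ := by
  obtain ⟨L, hL, hY⟩ := yoccoz (iter_diff (e := e) (c := c) N) (D := (e + 1) ^ N)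
    (Nat.one_lt_pow hN.ne' (by omega)) h.diff h.inj (fun w hw => h.iter he N hw) h.asy hz
    (p := 0) (q := 1) one_pos (θ := fun _ => t) (fun _ _ => ht) (fun i j h1 h2 => by omega)
    (fun _ _ => hl) (fun _ _ => ⟨m, by simpa using hm⟩)
  rw [show deriv (fq e c)^[N] z = Pd e c z N from rfl] at hL
  simp only [Nat.cast_zero, mul_zero, zero_div, sub_zero, Nat.cast_one, one_mul] at hY
  rw [← hL, Complex.norm_exp, Real.one_lt_exp_iff]
  by_contra h2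
  have h3 : 0 < ‖L‖ := norm_pos_iff.2 fun h0 => h1 (by rw [← hL, h0, Complex.exp_zero])
  have h4 := mul_nonpos_of_nonneg_of_nonpos
    (show 0 ≤ 2 * Real.log ((e + 1) ^ N : ℕ) by positivity) (not_lt.1 h2)
  nlinarith

theorem Lam.bdry (he : 1 ≤ e) (P : Port e n p q θ) {x : ℂ × ℂ} (hx : x ∈ closure (Lam e n q θ))
    (hM : x.1 ∈ Mset e) (hper : x ∈ Per e n) (hx' : x ∉ Lam e n q θ) :
    ∃ z, (fq e x.1)^[n * q] z = z ∧ Pd e x.1 z (n * q) = 1 := by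
  by_contra hE
  push Not at hE
  obtain ⟨ψ, hψ⟩ := bot_exists he hM
  have h : ∀ j < q, Lands ψ (θ j) x.2 ∧ 1 < ‖Pd e x.1 x.2 (n * q)‖ := by
    intro j hj
    obtain ⟨m, hm⟩ := P.rotN hj
    obtain ⟨w, w1, w2⟩ := ray_land he (M_norm he hM) hψ P.hN hm
    have w3 := land_rep he hψ P.hN (P.mem j hj) hm w1 w2 (hE w w1)
    suffices hw : x.2 = w from hw ▸ ⟨w2, w3⟩
    refine eq_of_forall_dist_le fun ε hε => ?_
    obtain ⟨δ, hδ, H⟩ := ray_near he (M_norm he hM) hψ P.hN hm w1 w2 w3 (half_pos hε)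
    obtain ⟨y, hy, hd⟩ := Metric.mem_closure_iff.1 hx _ (lt_min hδ (half_pos hε))
    rw [Prod.dist_eq, max_lt_iff, lt_min_iff, lt_min_iff] at hd
    obtain ⟨ψ', hψ', hl⟩ := hy.2.2
    obtain ⟨z', -, z2, z3⟩ := H y.1 ψ' (M_norm he (Lam.mem he hy)) hψ'
      (by rw [← dist_eq_norm, dist_comm]; exact hd.1.1)
    rw [tendsto_nhds_unique z2 (hl j hj), ← dist_eq_norm] at z3
    linarith [dist_triangle x.2 y.2 w, hd.2.2]
  refine hx' ⟨hper, ?_, ψ, hψ, fun j hj => (h j hj).1⟩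
  have h1 := (h 0 P.hq).2
  rw [t57_pow (Per.fix hper), norm_pow] at h1
  exact (one_lt_pow_iff_of_nonneg (norm_nonneg _) P.hq.ne').1 h1

end Pool.Agent.MP_28f8a1_an.Mlc
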