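import Pool.Agent.MP_28f8a1_an.Mlc.Land

/-! Stability of a ray that lands at a repelling fixed point. -/

set_option autoImplicit false

namespace Pool.Agent.MP_28f8a1_an.Mlc

open MeasureTheory Metric Set Real Filter Topology Pool.Agent.MP_28f8a1_an.H42
open Complex (I)

variable {e : ℕ}

/-- A path with `γ (r ^ D) = F (γ r)` that lies in a disc on one fundamental interval stays in
the disc below it, if `F` maps the boundary circle out of the open disc. -/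
theorem stab_core {F : ℂ → ℂ} {γ : ℝ → ℂ} {z : ℂ} {η r0 : ℝ} {D : ℕ} (hD : 2 ≤ D)
    (hγ : ContinuousOn γ (Ioi 1)) (hs : ∀ r, 1 < r → γ (r ^ D) = F (γ r))
    (hexp : ∀ x, ‖x - z‖ = η → η ≤ ‖F x - z‖)
    (hin : ∀ r ∈ Icc r0 (r0 ^ D), ‖γ r - z‖ < η) :
    ∀ r, 1 < r → r ≤ r0 → ‖γ r - z‖ < η := by
  intro r hr hrr
  by_contra hcon
  have hr0 : 1 < r0 := hr.trans_le hrr
  have hle : r0 ≤ r0 ^ D := le_self_pow₀ hr0.le (by omega)
  have hc : ContinuousOn (fun t => ‖γ t - z‖) (Icc r (r0 ^ D)) :=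
    ((hγ.mono fun t ht => hr.trans_le ht.1).sub continuousOn_const).norm
  have hK : IsCompact (Icc r (r0 ^ D) ∩ (fun t => ‖γ t - z‖) ⁻¹' Ici η) :=
    isCompact_Icc.of_isClosed_subset
      (hc.preimage_isClosed_of_isClosed isClosed_Icc isClosed_Ici) inter_subset_left
  obtain ⟨t, ⟨ht, ht'⟩, hmax⟩ := hK.exists_isGreatest
    ⟨r, ⟨le_rfl, hrr.trans hle⟩, not_lt.mp hcon⟩
  have ht1 : 1 < t := hr.trans_le ht.1
  have ht0 : t < r0 := by
    by_contra h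
    exact absurd (hin t ⟨not_lt.mp h, ht.2⟩) (not_lt.mpr ht')
  obtain ⟨u, hu, hu'⟩ := intermediate_value_Icc' ht0.le
    (hc.mono (Icc_subset_Icc ht.1 hle))
    (show η ∈ Icc ‖γ r0 - z‖ ‖γ t - z‖ from ⟨(hin r0 ⟨le_rfl, hle⟩).le, ht'⟩)
  have hut : u = t := le_antisymm
    (hmax ⟨⟨ht.1.trans hu.1, hu.2.trans hle⟩, le_of_eq hu'.symm⟩) hu.1
  subst hut
  have h1 : u < u ^ D := lt_self_pow₀ ht1 (by omega)
  have h2 : u ^ D ≤ r0 ^ D := pow_le_pow_left₀ (by linarith) ht0.le D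
  have h3 := hexp _ hu'
  rw [← hs u ht1] at h3
  exact absurd (hmax ⟨⟨ht.1.trans h1.le, h2⟩, h3⟩) (not_le.mpr h1)

/-- Stability of the landing point, for a jointly continuous family of maps. -/
theorem stab_path {G : ℂ → ℂ → ℂ} (hG : Continuous fun p : ℂ × ℂ => G p.1 p.2) {c z : ℂ} {D : ℕ}
    (hD : 2 ≤ D) (hfix : G c z = z) (hdiff : DifferentiableAt ℂ (G c) z)
    (hrep : 1 < ‖deriv (G c) z‖) {γ : ℝ → ℂ} (hland : Tendsto γ (𝓝[>] 1) (𝓝 z))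
    {ε : ℝ} (hε : 0 < ε) :
    ∃ r0 : ℝ, 1 < r0 ∧ ∃ δ : ℝ, 0 < δ ∧ ∀ (c' : ℂ) (γ' : ℝ → ℂ), ‖c' - c‖ < δ →
      ContinuousOn γ' (Ioi 1) → (∀ r, 1 < r → γ' (r ^ D) = G c' (γ' r)) →
      (∀ r ∈ Icc r0 (r0 ^ D), ‖γ' r - γ r‖ < δ) →
      ∀ z', Tendsto γ' (𝓝[>] 1) (𝓝 z') → ‖z' - z‖ < ε := by
  set a := deriv (G c) z with ha
  have ho := (hasDerivAt_iff_isLittleO.mp hdiff.hasDerivAt).bound
    (show 0 < (‖a‖ - 1) / 2 by linarith)
  obtain ⟨η0, hη0, h0⟩ := Metric.eventually_nhds_iff.mp ho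
  set η := min (η0 / 2) (ε / 2) with hη
  have hηp : 0 < η := lt_min (by linarith) (by linarith)
  have hη1 : η ≤ η0 / 2 := min_le_left _ _
  have hη2 : η ≤ ε / 2 := min_le_right _ _
  have hsp : ∀ x ∈ sphere z η, η < ‖G c x - z‖ := by
    intro x hx
    have hx' : ‖x - z‖ = η := by rwa [mem_sphere, dist_eq_norm] at hx
    have h1 := h0 (show dist x z < η0 by rw [dist_eq_norm, hx']; linarith)
    rw [hfix, hx', ← ha] at h1
    have h2 := norm_sub_norm_le ((x - z) • a) (G c x - z)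
    rw [norm_sub_rev ((x - z) • a), norm_smul, hx'] at h2
    nlinarith [mul_pos hηp (show 0 < ‖a‖ - 1 by linarith)]
  have hev : ∀ᶠ c' in 𝓝 c, ∀ x ∈ sphere z η, η < ‖G c' x - z‖ := by
    refine (isCompact_sphere z η).eventually_forall_of_forall_eventually fun x hx => ?_
    exact ((hG.sub continuous_const).norm.tendsto (c, x)).eventually (lt_mem_nhds (hsp x hx))
  obtain ⟨δ0, hδ0, h1⟩ := Metric.eventually_nhds_iff.mp hev
  obtain ⟨t, ht, hsub⟩ := mem_nhdsGT_iff_exists_Ioo_subset.mp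
    (Metric.tendsto_nhds.mp hland (η / 2) (by linarith))
  have hpow : ∀ᶠ r in 𝓝[>] (1 : ℝ), r ^ D < t := by
    have : Tendsto (fun r : ℝ => r ^ D) (𝓝 1) (𝓝 (1 ^ D)) := (continuous_pow D).tendsto 1
    exact (this.eventually (gt_mem_nhds (by rwa [one_pow]))).filter_mono nhdsWithin_le_nhds
  obtain ⟨r0, hr0, hr0'⟩ := (hpow.and self_mem_nhdsWithin).exists
  have hr1 : 1 < r0 := hr0'
  refine ⟨r0, hr1, min δ0 (η / 2), lt_min hδ0 (by linarith), ?_⟩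
  intro c' γ' hc' hγ' hs hcl z' hz'
  have hin := stab_core (z := z) (η := η) (r0 := r0) hD hγ' hs
    (fun x hx => (h1 (show dist c' c < δ0 by
      rw [dist_eq_norm]; exact hc'.trans_le (min_le_left _ _)) x
      (by rwa [mem_sphere, dist_eq_norm])).le)
    (fun r hr => by
      have a1 := (hcl r hr).trans_le (min_le_right _ _)
      have a2 : dist (γ r) z < η / 2 := hsub ⟨hr1.trans_le hr.1, hr.2.trans_lt hr0⟩
      rw [dist_eq_norm] at a2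
      have a3 := norm_add_le (γ' r - γ r) (γ r - z)
      rw [sub_add_sub_cancel] at a3
      linarith)
  have hle : ‖z' - z‖ ≤ η := by
    refine le_of_tendsto (hz'.sub_const z).norm ?_
    filter_upwards [Ioo_mem_nhdsGT hr1] with r hr using (hin r hr.1 hr.2.le).le
  linarith

theorem ray_near (he : 1 ≤ e) {c : ℂ} (hc : ‖c‖ ≤ 2) {ψ : ℂ → ℂ} (h : Bot e c ψ) {N : ℕ}
    (hN : 0 < N) {θ : ℝ} {m : ℤ} (hθ : ((e + 1 : ℕ) : ℝ) ^ N * θ = θ + m) {z : ℂ}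
    (hz : (fq e c)^[N] z = z) (hl : Lands ψ θ z) (hrep : 1 < ‖Pd e c z N‖) {ε : ℝ}
    (hε : 0 < ε) : ∃ δ > 0, ∀ (c' : ℂ) (ψ' : ℂ → ℂ), ‖c'‖ ≤ 2 → Bot e c' ψ' → ‖c' - c‖ < δ →
      ∃ z', (fq e c')^[N] z' = z' ∧ Lands ψ' θ z' ∧ ‖z' - z‖ < ε := by
  have hD : 2 ≤ (e + 1) ^ N := Nat.one_lt_pow hN.ne' (by omega)
  obtain ⟨r0, hr0, δ, hδ, H⟩ := stab_path (G := fun c => (fq e c)^[N]) (t57_cont N) hD hz
    (iter_diff N z) hrep hl hε
  set R := r0 ^ (e + 1) ^ N with hR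
  have hR0 : 0 < R := by positivity
  obtain ⟨δ', hδ', H'⟩ := bot_cont he hr0 (ε := δ / (2 * R)) (by positivity)
  refine ⟨min δ δ', lt_min hδ hδ', fun c' ψ' hc' h' hcc => ?_⟩
  obtain ⟨z', hz1, hz2⟩ := ray_land he hc' h' hN hθ
  set u := Complex.exp (2 * π * I * θ) with hu
  have hu1 : ‖u‖ = 1 := by
    rw [hu, show (2 * π * I * θ : ℂ) = ((2 * π * θ : ℝ) : ℂ) * I by push_cast; ring,
      Complex.norm_exp_ofReal_mul_I]
  have huD : u ^ (e + 1) ^ N = u := by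
    have h1 : (((e + 1) ^ N : ℕ) : ℂ) * θ = θ + m := by exact_mod_cast hθ
    rw [hu, ← Complex.exp_nat_mul, show (((e + 1) ^ N : ℕ) : ℂ) * (2 * π * I * θ) =
      2 * π * I * θ + m * (2 * π * I) by linear_combination (2 * π * I) * h1, Complex.exp_add,
      Complex.exp_int_mul_two_pi_mul_I, mul_one]
  have hn : ∀ r : ℝ, 1 < r → ‖(r : ℂ) * u‖ = r := fun r hr => by
    rw [norm_mul, hu1, mul_one, Complex.norm_real, Real.norm_of_nonneg (by linarith)]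
  refine ⟨z', hz1, hz2, H c' (fun r : ℝ => ψ' (r * u)) (hcc.trans_le (min_le_left _ _)) ?_ ?_ ?_
    z' hz2⟩
  · exact h'.diff.continuousOn.comp
      (Complex.continuous_ofReal.mul continuous_const).continuousOn
      fun r hr => show 1 < ‖(r : ℂ) * u‖ by rwa [hn r hr]
  · intro r hr
    rw [← h'.iter he N (by rwa [hn r hr]), mul_pow, huD, Complex.ofReal_pow]
  · intro r hr
    have hr1 : 1 < r := hr0.trans_le hr.1
    have := H' c' c ψ' ψ hc' hc h' h (hcc.trans_le (min_le_right _ _)) (r * u)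
      (by rw [hn r hr1]; exact hr.1)
    rw [hn r hr1] at this
    calc _ ≤ δ / (2 * R) * r := this
      _ ≤ δ / (2 * R) * R := by gcongr; exact hr.2
      _ = δ / 2 := by field_simp
      _ < δ := by linarith

theorem Lands.fix (he : 1 ≤ e) {c : ℂ} {ψ : ℂ → ℂ} (h : Bot e c ψ) {N : ℕ}
    {θ : ℝ} {m : ℤ} (hθ : ((e + 1 : ℕ) : ℝ) ^ N * θ = θ + m) {z : ℂ} (hl : Lands ψ θ z) :
    (fq e c)^[N] z = z := by
  set u := Complex.exp (2 * π * I * θ) with hu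
  have hu1 : ‖u‖ = 1 := by
    rw [hu, show (2 * π * I * θ : ℂ) = ((2 * π * θ : ℝ) : ℂ) * I by push_cast; ring,
      Complex.norm_exp_ofReal_mul_I]
  have huD : u ^ (e + 1) ^ N = u := by
    have h1 : (((e + 1) ^ N : ℕ) : ℂ) * θ = θ + m := by exact_mod_cast hθ
    rw [hu, ← Complex.exp_nat_mul, show (((e + 1) ^ N : ℕ) : ℂ) * (2 * π * I * θ) =
      2 * π * I * θ + m * (2 * π * I) by linear_combination (2 * π * I) * h1, Complex.exp_add,
      Complex.exp_int_mul_two_pi_mul_I, mul_one]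
  have hp : Tendsto (fun r : ℝ => r ^ (e + 1) ^ N) (𝓝[>] 1) (𝓝[>] 1) := by
    refine tendsto_nhdsWithin_iff.mpr ⟨?_, ?_⟩
    · have : Tendsto (fun r : ℝ => r ^ (e + 1) ^ N) (𝓝 1) (𝓝 (1 ^ (e + 1) ^ N)) :=
        (continuous_pow _).tendsto 1
      rw [one_pow] at this
      exact this.mono_left nhdsWithin_le_nhds
    · filter_upwards [self_mem_nhdsWithin] with r hr
      exact one_lt_pow₀ (mem_Ioi.mp hr) (by positivity)
  have h1 : Tendsto (fun r : ℝ => ψ ((r ^ (e + 1) ^ N : ℝ) * u)) (𝓝[>] 1) (𝓝 z) := hl.comp hp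
  have h2 : Tendsto (fun r : ℝ => (fq e c)^[N] (ψ (r * u))) (𝓝[>] 1) (𝓝 ((fq e c)^[N] z)) :=
    ((iter_diff N).continuous.tendsto z).comp hl
  refine tendsto_nhds_unique (h2.congr' ?_) h1
  filter_upwards [self_mem_nhdsWithin] with r hr
  have hr1 : 1 < r := hr
  rw [← h.iter he N (by
    rwa [norm_mul, hu1, mul_one, Complex.norm_real, Real.norm_of_nonneg (by linarith)]),
    mul_pow, huD, Complex.ofReal_pow]

theorem ray_stab (he : 1 ≤ e) {c : ℂ} (hc : ‖c‖ ≤ 2) {ψ : ℂ → ℂ} (h : Bot e c ψ) {N : ℕ}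
    (hN : 0 < N) {θ : ℝ} {m : ℤ} (hθ : ((e + 1 : ℕ) : ℝ) ^ N * θ = θ + m) {z : ℂ}
    (hl : Lands ψ θ z) (hr : 1 < ‖Pd e c z N‖) :
    ∀ᶠ x : ℂ × ℂ in 𝓝 (c, z), ‖x.1‖ ≤ 2 → (fq e x.1)^[N] x.2 = x.2 →
      ∀ ψ', Bot e x.1 ψ' → Lands ψ' θ x.2 := by
  obtain ⟨Q, q1, q2, q3⟩ := div_smooth e N
  have hne : Q (c, z, z) ≠ 1 := by
    rw [q3]
    intro h1
    rw [h1, norm_one] at hr
    exact lt_irrefl _ hr
  obtain ⟨ε, hε, hQ⟩ := Metric.eventually_nhds_iff.mp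
    (q1.continuous.continuousAt.eventually_ne hne)
  obtain ⟨δ, hδ, H⟩ := ray_near he hc h hN hθ (hl.fix he h hθ) hl hr hε
  filter_upwards [ball_mem_nhds (c, z) (lt_min hδ hε)] with x hx hx1 hx2 ψ' h'
  rw [mem_ball, Prod.dist_eq, max_lt_iff, lt_min_iff, lt_min_iff] at hx
  obtain ⟨z', a1, a2, a3⟩ := H x.1 ψ' hx1 h' (by rw [← dist_eq_norm]; exact hx.1.1)
  have a4 : Q (x.1, x.2, z') ≠ 1 := hQ (by
    rw [Prod.dist_eq, Prod.dist_eq]
    exact max_lt hx.1.2 (max_lt hx.2.2 (by rw [dist_eq_norm]; exact a3)))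
  have a5 := q2 x.1 x.2 z'
  rw [a1, hx2] at a5
  have a6 : z' - x.2 = 0 := by
    by_contra h0
    exact a4 (mul_right_cancel₀ h0 (by rw [one_mul]; exact a5.symm))
  rwa [← sub_eq_zero.mp a6]

end Pool.Agent.MP_28f8a1_an.Mlc
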