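import Pool.Agent.MP_28f8a1_an.Mlc.Diam
import Pool.Agent.MP_1071ec_an.Mg.Par

/-! The canonical root of the multiplier is a local homeomorphism over the unit disc. -/

set_option autoImplicit false

namespace Pool.Agent.MP_28f8a1_an.Mlc

open MeasureTheory Metric Set Real Filter Topology Pool.Agent.MP_28f8a1_an.H42
open Polynomial (X C derivative aeval)

variable {e : ℕ}

/-- The multiplier of an attracting cycle has no critical point. -/
theorem tau_S (he : 1 ≤ e) (Y : Cyc e) (h : ‖Y.ρ‖ < 1) : Y.S ≠ 0 := by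
  intro hS
  have h1 : Y.B.card ≠ 1 := fun h1 => by
    have := Y.card_one he h1 (by linarith) (fun h2 => by rw [h2, norm_one] at h; exact h.false)
    rw [hS, norm_zero] at this
    norm_num at this
  have h2 : 1 < Y.B.card := by
    have := Y.ne.card_pos
    omega
  obtain ⟨α, a1, a2⟩ : ∃ α, fq e Y.c α = α ∧ α ≠ 0 := by
    by_cases hc : Y.c = 0
    · exact ⟨1, by simp [fq, hc], one_ne_zero⟩
    · have hd : (X ^ (e + 1) + (C Y.c - X) : Polynomial ℂ).degree = (e + 1 : ℕ) := by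
        rw [Polynomial.degree_add_eq_left_of_degree_lt, Polynomial.degree_X_pow]
        rw [Polynomial.degree_X_pow]
        refine ((Polynomial.degree_sub_le _ _).trans (max_le (Polynomial.degree_C_le.trans
          zero_le_one) Polynomial.degree_X_le)).trans_lt ?_
        exact_mod_cast (show 1 < e + 1 by omega)
      obtain ⟨α, hα⟩ := Complex.exists_root (f := X ^ (e + 1) + (C Y.c - X))
        (by rw [hd]; exact_mod_cast Nat.succ_pos e)
      simp only [Polynomial.IsRoot.def, Polynomial.eval_add, Polynomial.eval_pow,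
        Polynomial.eval_X, Polynomial.eval_sub, Polynomial.eval_C] at hα
      refine ⟨α, by rw [fq]; linear_combination hα, fun h0 => hc ?_⟩
      simpa [h0] using hα
  have a3 : α ∉ Y.B := fun hb => by
    obtain ⟨p, p0, p1, p2, p3⟩ := Y.orb α hb
    have := p3 1 h2 0 (by omega) ((Y.inj _ (p1 1) _ hb (by rw [p2 0, p0, a1])).trans p0.symm)
    omega
  have h3 := MP_1071ec_an.Cy.flux_pos ⟨Y, α, a1, a3, a2⟩ he (Y.bounds he (by linarith)).1
  simp only [MP_1071ec_an.Cy.flux, MP_1071ec_an.Cy.s, hS, max_eq_left h.le] at h3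
  simp at h3

/-- The critical orbit polynomials. -/
noncomputable def tauG (e : ℕ) : ℕ → Polynomial ℤ
  | 0 => 0
  | n + 1 => tauG e n ^ (e + 1) + X

theorem tauG_monic (he : 1 ≤ e) (n : ℕ) :
    (tauG e (n + 1)).Monic ∧ 1 ≤ (tauG e (n + 1)).natDegree := by
  induction n with
  | zero => simp [tauG, Polynomial.monic_X]
  | succ n ih =>
    have h1 : (X : Polynomial ℤ).natDegree < (tauG e (n + 1) ^ (e + 1)).natDegree := by
      rw [ih.1.natDegree_pow, Polynomial.natDegree_X]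
      nlinarith [ih.2]
    rw [tauG]
    refine ⟨(ih.1.pow _).add_of_left (Polynomial.degree_lt_degree h1), ?_⟩
    rw [Polynomial.natDegree_add_eq_left_of_natDegree_lt h1]
    rw [Polynomial.natDegree_X] at h1
    omega

theorem tauG_eval (c : ℂ) (n : ℕ) : aeval c (tauG e n) = (fq e c)^[n] 0 := by
  induction n with
  | zero => simp [tauG]
  | succ n ih =>
    rw [Function.iterate_succ_apply', ← ih, tauG, map_add, map_pow, Polynomial.aeval_X, fq]

/-- Gleason's lemma. -/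
theorem gleason (he : 1 ≤ e) {c : ℂ} {n : ℕ} (hn : 0 < n) (h : (fq e c)^[n] 0 = 0) :
    ∃ d : ℂ, d ≠ 0 ∧ HasStrictDerivAt (fun c' => (fq e c')^[n] 0) d c := by
  obtain ⟨m, rfl⟩ : ∃ m, n = m + 1 := ⟨n - 1, by omega⟩
  refine ⟨aeval c (derivative (tauG e (m + 1))), fun h0 => ?_, ?_⟩
  · have hc : IsIntegral ℤ c := ⟨tauG e (m + 1), (tauG_monic he m).1, by
      rw [← Polynomial.aeval_def, tauG_eval, h]⟩
    have hw : IsIntegral ℤ (aeval c (tauG e m ^ e * derivative (tauG e m))) :=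
      adjoin_le_integralClosure hc (Polynomial.aeval_mem_adjoin_singleton ℤ c)
    have hne : ((e : ℂ) + 1) ≠ 0 := by exact_mod_cast Nat.succ_ne_zero e
    have e1 : aeval c (tauG e m ^ e * derivative (tauG e m)) =
        algebraMap ℚ ℂ (-1 / (e + 1)) := by
      simp only [tauG, Polynomial.derivative_X, Polynomial.derivative_pow_succ, map_add, map_mul,
        map_one, map_natCast] at h0 ⊢
      simp only [eq_ratCast] at h0 ⊢
      push_cast at h0 ⊢
      rw [eq_div_iff hne]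
      linear_combination h0
    rw [e1, isIntegral_algebraMap_iff (algebraMap ℚ ℂ).injective] at hw
    obtain ⟨y, hy⟩ := IsIntegrallyClosed.isIntegral_iff.1 hw
    have h2 : (((e + 1) * y : ℤ) : ℚ) = ((-1 : ℤ) : ℚ) := by
      rw [eq_intCast, eq_div_iff (by positivity)] at hy
      push_cast
      linarith
    have h3 := Int.cast_injective h2
    rcases Int.eq_one_or_neg_one_of_mul_eq_neg_one h3 with h4 | h4 <;> omega
  · simpa only [tauG_eval] using (tauG e (m + 1)).hasStrictDerivAt_aeval c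

theorem tau_sp (he : 1 ≤ e) (c d : ℂ) (k : ℕ) :
    t1055_sp e c 0 d (k + 1) = t1055_sp e c 0 0 (k + 1) := by
  induction k with
  | zero => simp [t1055_sp, lam, zero_pow (show e ≠ 0 by omega)]
  | succ k ih => rw [t1055_sp, ih, t1055_sp.eq_2 e c 0 0 (k + 1)]

/-- The canonical root of the multiplier. -/
noncomputable def tau (e n : ℕ) (x : ℂ × ℂ) : ℂ :=
  (((e + 1 : ℝ) ^ n) ^ (e⁻¹ : ℝ) : ℝ) * ∏ j ∈ Finset.range n, (fq e x.1)^[j] x.2

theorem tau_pow (he : 1 ≤ e) (n : ℕ) (x : ℂ × ℂ) : tau e n x ^ e = mu e n x := by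
  have h : ∀ k, Pd e x.1 x.2 k =
      ((e : ℂ) + 1) ^ k * (∏ j ∈ Finset.range k, (fq e x.1)^[j] x.2) ^ e := fun k => by
    induction k with
    | zero => simp [Pd_zero]
    | succ k ih =>
      rw [Pd_succ', ih, Finset.prod_range_succ, mul_pow]
      push_cast
      ring
  rw [tau, mul_pow, ← Complex.ofReal_pow, Real.rpow_inv_natCast_pow (by positivity) (by omega), mu,
    h]
  push_cast
  rfl

theorem tau_cont (e n : ℕ) : Continuous (tau e n) :=
  continuous_const.mul (continuous_finsetProd _ fun j _ => t57_cont j)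

theorem tau_prod {c d : ℂ} {ψ : ℂ → ℂ} (hψ : HasStrictDerivAt ψ d c) (s : Finset ℕ) :
    ∃ D, HasStrictDerivAt (fun c' => ∏ j ∈ s, (fq e c')^[j] (ψ c')) D c :=
  ⟨_, HasStrictDerivAt.fun_finsetProd fun j _ => t1055_orbit_deriv hψ j⟩

/-- The local inverse of a function on the curve of periodic points. -/
theorem inv_of {n : ℕ} (hn : 0 < n) {c d D : ℂ} {ψ : ℂ → ℂ} (hx : (c, ψ c) ∈ Per e n)
    (hr : ‖mu e n (c, ψ c)‖ < 3 / 2) (h1 : mu e n (c, ψ c) ≠ 1) (hψ : HasStrictDerivAt ψ d c)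
    (hfix : ∀ᶠ c' in 𝓝 c, (fq e c')^[n] (ψ c') = ψ c') {ν : ℂ × ℂ → ℂ}
    (hμ : HasStrictDerivAt (fun c' => ν (c', ψ c')) D c) (hD : D ≠ 0) :
    ∃ Ψ D', Inv (Ec e n) ν (c, ψ c) Ψ ∧ HasDerivAt (fun w => (Ψ w).1) D' (ν (c, ψ c)) := by
  have hg := hμ.to_localInverse hD
  have hgl := hμ.eventually_left_inverse hD
  have hgr := hμ.eventually_right_inverse hD
  generalize hμ.localInverse _ _ _ hD = g at hg hgl hgr
  have hgc : g (ν (c, ψ c)) = c := hgl.self_of_nhds
  have hψc : ContinuousAt ψ c := hψ.hasDerivAt.continuousAt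
  have hgt : Tendsto g (𝓝 (ν (c, ψ c))) (𝓝 c) := by
    have h := hg.hasDerivAt.continuousAt.tendsto
    rwa [hgc] at h
  have hsep : ∀ᶠ l in 𝓝 c, ∀ k ∈ Finset.Ioo 0 n, (fq e l)^[k] (ψ l) ≠ ψ l := by
    refine (Finset.eventually_all _).2 fun k hk => ?_
    have h2 : (fq e c)^[k] (ψ c) - ψ c ≠ 0 :=
      sub_ne_zero.2 (((t57_per hn).1 hx).2 k (by simpa using hk))
    have h4 : ContinuousAt (fun l => (fq e l)^[k] (ψ l) - ψ l) c :=
      ((t57_cont (e := e) k).continuousAt.comp (f := fun l => (l, ψ l))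
        (continuousAt_id.prodMk hψc)).sub hψc
    exact (h4.eventually_ne h2).mono fun _ h => sub_ne_zero.1 h
  have hlt : ∀ᶠ l in 𝓝 c, ‖mu e n (l, ψ l)‖ < 3 / 2 :=
    ((mu_cont e n).continuousAt.comp (f := fun l => (l, ψ l))
      (continuousAt_id.prodMk hψc)).norm.eventually (gt_mem_nhds hr)
  refine ⟨fun w => (g w, ψ (g w)), _, ⟨?_, ?_, ?_⟩, hg.hasDerivAt⟩
  · have h2 : ContinuousAt g (ν (c, ψ c)) := hg.hasDerivAt.continuousAt
    exact h2.prodMk (ContinuousAt.comp (hgc.symm ▸ hψc) h2)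
  · filter_upwards [hgr, hgt.eventually hfix, hgt.eventually hsep, hgt.eventually hlt]
      with w h2 h3 h4 h5
    exact ⟨⟨h3, h5.le, Or.inr ((t57_per hn).2 ⟨h3, fun k hk => h4 k (by simpa using hk)⟩)⟩, h2⟩
  · obtain ⟨Q, q1, q2, q3⟩ := t57_div (e := e) n
    have hf : Tendsto (Prod.fst : ℂ × ℂ → ℂ) (𝓝 (c, ψ c)) (𝓝 c) := continuous_fst.tendsto _
    have hQ : ContinuousAt (fun y : ℂ × ℂ => Q (y.1, y.2, ψ y.1)) (c, ψ c) :=
      q1.continuousAt.comp (f := fun y : ℂ × ℂ => (y.1, y.2, ψ y.1))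
        (continuousAt_fst.prodMk (continuousAt_snd.prodMk
          (ContinuousAt.comp (f := Prod.fst) (x := (c, ψ c)) hψc continuousAt_fst)))
    have hQ1 : Q (c, ψ c, ψ c) ≠ 1 := by
      rw [q3]
      exact h1
    filter_upwards [hf.eventually hfix, hf.eventually hgl, hQ.eventually_ne hQ1] with y h2 h3 h4 hy
    obtain ⟨l, z⟩ := y
    have h5 := q2 l z (ψ l)
    rw [h2, hy.1] at h5
    obtain rfl : ψ l = z := sub_eq_zero.1 ((mul_left_eq_self₀.1 h5.symm).resolve_left h4)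
    dsimp only at h3 ⊢
    rw [h3]

theorem tau_lt (he : 1 ≤ e) {n : ℕ} {x : ℂ × ℂ} : ‖tau e n x‖ < 1 ↔ ‖mu e n x‖ < 1 := by
  rw [← tau_pow he, norm_pow, pow_lt_one_iff_of_nonneg (norm_nonneg _) (by omega)]

theorem Ec_per {n : ℕ} {x : ℂ × ℂ} (hx : x ∈ Ec e n) (h : ‖mu e n x‖ < 1) : x ∈ Per e n :=
  hx.2.2.resolve_left fun h4 => by
    rw [h4, norm_one] at h
    exact h.false

theorem tau_inv (he : 1 ≤ e) {n : ℕ} (hn : 0 < n) {x : ℂ × ℂ} (hx : x ∈ Ec e n)
    (h : ‖tau e n x‖ < 1) :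
    ∃ Ψ D, Inv (Ec e n) (tau e n) x Ψ ∧ HasDerivAt (fun w => (Ψ w).1) D (tau e n x) := by
  have hm := (tau_lt he).1 h
  have hp := Ec_per hx hm
  have h1 : mu e n x ≠ 1 := fun h4 => by
    rw [h4, norm_one] at hm
    exact hm.false
  obtain ⟨c, z⟩ := x
  obtain ⟨ψ, d, hz, hψ, hfix⟩ := t1055_follow (Per.fix hp) h1
  dsimp only at hz hψ hfix
  subst hz
  have hA : ((((e + 1 : ℝ) ^ n) ^ (e⁻¹ : ℝ) : ℝ) : ℂ) ≠ 0 :=
    Complex.ofReal_ne_zero.2 (by positivity)
  by_cases h0 : mu e n (c, ψ c) = 0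
  · obtain ⟨i, hi, hz⟩ : ∃ i ∈ Finset.range n, (fq e c)^[i] (ψ c) = 0 := by
      rw [← tau_pow he, pow_eq_zero_iff (by omega), tau, mul_eq_zero, Finset.prod_eq_zero_iff] at h0
      exact h0.resolve_left hA
    have hper : Function.minimalPeriod (fq e c) (ψ c) = n := hp
    have hne : ∏ j ∈ (Finset.range n).erase i, (fq e c)^[j] (ψ c) ≠ 0 :=
      Finset.prod_ne_zero_iff.2 fun j hj h2 => (Finset.mem_erase.1 hj).1
        (Function.iterate_injOn_Iio_minimalPeriod (f := fq e c) (x := ψ c)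
          (by rw [hper]; exact Finset.mem_range.1 (Finset.mem_erase.1 hj).2)
          (by rw [hper]; exact Finset.mem_range.1 hi) (h2.trans hz.symm))
    have dZ := t1055_orbit_deriv (e := e) hψ i
    generalize t1055_sp e c (ψ c) d i = ζ at dZ
    have h00 : (fq e c)^[n] 0 = 0 := by
      rw [← hz, ← Function.iterate_add_apply, add_comm, Function.iterate_add_apply, Per.fix hp]
    have hζ0 : ζ ≠ 0 := by
      obtain ⟨d', hd', hg⟩ := gleason he hn h00
      have b1 := t1055_orbit_deriv (e := e) dZ n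
      have b2 := t1055_orbit_deriv (e := e) (hasStrictDerivAt_const c (0 : ℂ)) n
      have b3 := b2.hasDerivAt.unique hg.hasDerivAt
      have b4 := (b1.hasDerivAt.congr_of_eventuallyEq (f₁ := fun c' => (fq e c')^[i] (ψ c'))
        (hfix.mono fun c' h => by
          dsimp only
          rw [← Function.iterate_add_apply, add_comm, Function.iterate_add_apply, h])).unique
        dZ.hasDerivAt
      obtain ⟨m, rfl⟩ : ∃ m, n = m + 1 := ⟨n - 1, by omega⟩
      rw [hz, tau_sp he] at b4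
      rw [← b4, b3]
      exact hd'
    obtain ⟨D, hD⟩ := tau_prod (e := e) hψ ((Finset.range n).erase i)
    have b := (dZ.fun_mul hD).const_mul ((((e + 1 : ℝ) ^ n) ^ (e⁻¹ : ℝ) : ℝ) : ℂ)
    rw [hz, zero_mul, add_zero] at b
    refine inv_of hn hp (by linarith) h1 hψ hfix
      (b.congr_of_eventuallyEq (Eventually.of_forall fun c' => ?_))
      (mul_ne_zero hA (mul_ne_zero hζ0 hne))
    dsimp only [tau]
    rw [Finset.mul_prod_erase _ (fun j => (fq e c')^[j] (ψ c')) hi]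
  · obtain ⟨Y, t, hY, ht, hYS⟩ := t1055_cyc he hn hp h0 h1
    dsimp only at hY ht hYS
    have hne : ∀ j < n, (fq e c)^[j] (ψ c) ≠ 0 := fun j hj => (t1055_ne0 he h0 hj).1
    have hd : t1055_sp e c (ψ c) d n = d :=
      ((t1055_orbit_deriv hψ n).hasDerivAt.congr_of_eventuallyEq
        (hfix.mono fun _ h => h.symm)).unique hψ.hasDerivAt
    have htel := t1055_tele (e := e) (c := c) (z := ψ c) (t := t) (d := d) n hne
    rw [ht, hd, ← hYS] at htel
    have hμ0 := t1055_mult_deriv he hψ n hne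
    rw [show ∑ j ∈ Finset.range n, e * t1055_sp e c (ψ c) d j / (fq e c)^[j] (ψ c) = Y.S by
      linear_combination htel] at hμ0
    obtain ⟨D, hD⟩ := tau_prod (e := e) hψ (Finset.range n)
    have b : HasStrictDerivAt (fun c' => tau e n (c', ψ c')) _ c :=
      hD.const_mul ((((e + 1 : ℝ) ^ n) ^ (e⁻¹ : ℝ) : ℝ) : ℂ)
    refine inv_of hn hp (by linarith) h1 hψ hfix b fun h2 => ?_
    have b2 := (b.hasDerivAt.fun_pow e).unique (hμ0.hasDerivAt.congr_of_eventuallyEq
      (Eventually.of_forall fun c' => tau_pow he n (c', ψ c')))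
    rw [h2, mul_zero] at b2
    exact mul_ne_zero h0 (tau_S he Y (by rw [hY]; exact hm)) b2.symm

end Pool.Agent.MP_28f8a1_an.Mlc
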